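import Pool.Agent.H48.TP.Last2

/-!
# Polynomials with values away from zero: the ring `R[1/κ]` is a valuation ring
-/

set_option autoImplicit false

namespace Pool.Agent.H48.TP

open Polynomial FirstOrder FirstOrder.Language FirstOrder.Ring

variable {K : Type} [Field K] {R : Subring K} {π : K}

/-- the ring `R[1/π]` -/
def loc (R : Subring K) (π : K) (hπ : π ∈ R) : Subring K where
  carrier := {x | ∃ L : ℕ, π ^ L * x ∈ R}
  mul_mem' := by
    rintro x y ⟨L, hL⟩ ⟨M, hM⟩
    refine ⟨L + M, ?_⟩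
    have e : π ^ (L + M) * (x * y) = (π ^ L * x) * (π ^ M * y) := by ring
    rw [e]
    exact R.mul_mem hL hM
  one_mem' := ⟨0, by simp⟩
  add_mem' := by
    rintro x y ⟨L, hL⟩ ⟨M, hM⟩
    refine ⟨L + M, ?_⟩
    have e : π ^ (L + M) * (x + y) = π ^ M * (π ^ L * x) + π ^ L * (π ^ M * y) := by ring
    rw [e]
    exact R.add_mem (R.mul_mem (R.pow_mem hπ _) hL) (R.mul_mem (R.pow_mem hπ _) hM)
  zero_mem' := ⟨0, by simp⟩
  neg_mem' := by
    rintro x ⟨L, hL⟩
    refine ⟨L, ?_⟩
    rw [mul_neg]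
    exact R.neg_mem hL

theorem le_loc (hπ : π ∈ R) : R ≤ loc R π hπ := fun x hx => ⟨0, by simpa using hx⟩

theorem mem_of_poly (hic : ∀ x : K, IsIntegral R x → x ∈ R) {P : K[X]} (hP : P.Monic)
    (hc : ∀ k, P.coeff k ∈ R) {x : K} (hx : P.eval x = 0) : x ∈ R := by
  apply hic
  have hco : (↑P.coeffs : Set K) ⊆ R := by
    intro c hc'
    obtain ⟨k, -, rfl⟩ := Polynomial.mem_coeffs_iff.1 hc'
    exact hc k
  refine ⟨P.toSubring R hco, (monic_toSubring P R hco).2 hP, ?_⟩
  rw [← eval_map]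
  have : (P.toSubring R hco).map (algebraMap R K) = P := map_toSubring P R hco
  rw [this, hx]

theorem mem_loc_of_eval (hic : ∀ x : K, IsIntegral R x → x ∈ R) (hπ : π ∈ R) {h : R[X]}
    (hm : h.Monic) (hd : 1 ≤ h.natDegree) {y : K} (hs : aeval y h ∈ loc R π hπ) :
    y ∈ loc R π hπ := by
  obtain ⟨L, hL⟩ := hs
  refine ⟨L, ?_⟩
  set s := aeval y h with hsd
  set Q : K[X] := h.map (algebraMap R K) - C s with hQ
  have hmm : (h.map (algebraMap R K)).Monic := hm.map _
  have hnd : (h.map (algebraMap R K)).natDegree = h.natDegree := hm.natDegree_map _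
  have hQm : Q.Monic := by
    refine hmm.sub_of_left (lt_of_le_of_lt degree_C_le ?_)
    rw [degree_eq_natDegree hmm.ne_zero, hnd]
    exact_mod_cast hd
  have hQd : Q.natDegree = h.natDegree := by
    rw [hQ, natDegree_sub_C, hnd]
  refine mem_of_poly hic (P := scaleRoots Q (π ^ L)) ((monic_scaleRoots_iff _).2 hQm)
    (fun k => ?_) ?_
  · rw [coeff_scaleRoots, hQd]
    rcases Nat.eq_zero_or_pos k with rfl | hk
    · obtain ⟨d, hd'⟩ : ∃ d, h.natDegree = d + 1 := ⟨h.natDegree - 1, by omega⟩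
      rw [hQ, coeff_sub, coeff_map, coeff_C_zero, hd', Nat.sub_zero]
      have e : (algebraMap R K (h.coeff 0) - s) * (π ^ L) ^ (d + 1) =
          (h.coeff 0 : K) * (π ^ L) ^ (d + 1) - (π ^ L) ^ d * (π ^ L * s) := by
        show ((h.coeff 0 : K) - s) * (π ^ L) ^ (d + 1) = _
        ring
      rw [e]
      exact R.sub_mem (R.mul_mem (h.coeff 0).2 (R.pow_mem (R.pow_mem hπ _) _))
        (R.mul_mem (R.pow_mem (R.pow_mem hπ _) _) hL)
    · obtain ⟨k', rfl⟩ : ∃ k', k = k' + 1 := ⟨k - 1, by omega⟩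
      rw [hQ, coeff_sub, coeff_map, coeff_C_succ, sub_zero]
      exact R.mul_mem (h.coeff _).2 (R.pow_mem (R.pow_mem hπ _) _)
  · have h0 : eval₂ (RingHom.id K) y Q = 0 := by
      rw [hQ, eval₂_sub, eval₂_C, eval₂_map]
      have : eval₂ ((RingHom.id K).comp (algebraMap R K)) y h = s := rfl
      rw [this]
      simp
    have h1 := scaleRoots_eval₂_eq_zero (s := π ^ L) (RingHom.id K) h0
    exact h1

theorem inv_mem_of_small (hic : ∀ x : K, IsIntegral R x → x ∈ R) {h : R[X]}
    (hd : 1 ≤ h.natDegree) {y z : K} (hz : aeval y h * z = 1) (hzR : z ∈ R)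
    (hu : ∀ a ∈ R, 1 - a * z ≠ 0 ∧ (1 - a * z)⁻¹ ∈ R) (hy0 : y ≠ 0) : y⁻¹ ∈ R := by
  obtain ⟨hu0, hui⟩ := hu _ (h.coeff 0).2
  apply hic
  set u : K := 1 - (h.coeff 0 : K) * z with hud
  set d := h.natDegree with hdd
  set v := y⁻¹ with hv
  have hρR : u⁻¹ * z ∈ R := R.mul_mem hui hzR
  refine ⟨Polynomial.X ^ d + (-(C (⟨u⁻¹ * z, hρR⟩ : R) *
    ∑ k ∈ Finset.range d, C (h.coeff (k + 1)) * X ^ (d - 1 - k))), ?_, ?_⟩
  · apply Polynomial.monic_X_pow_add
    rw [degree_neg, ← smul_eq_C_mul]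
    refine lt_of_le_of_lt (degree_smul_le _ _) ?_
    refine lt_of_le_of_lt (degree_sum_le _ _) ?_
    rw [Finset.sup_lt_iff (by exact WithBot.bot_lt_coe _)]
    intro k _
    refine lt_of_le_of_lt (degree_C_mul_X_pow_le _ _) ?_
    have : d - 1 - k < d := by omega
    exact_mod_cast this
  · simp only [eval₂_add, eval₂_neg, eval₂_mul, eval₂_X_pow, eval₂_C, eval₂_finsetSum]
    have h9 : ∀ k ∈ Finset.range d, (algebraMap R K) (h.coeff (k + 1)) * v ^ (d - 1 - k) =
        ((h.coeff (k + 1) : K) * y ^ (k + 1)) * v ^ d := by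
      intro k hk
      have hk' : k < d := Finset.mem_range.1 hk
      have : v ^ d = v ^ (k + 1) * v ^ (d - 1 - k) := by
        rw [← pow_add]
        congr 1
        omega
      rw [this, hv, mul_assoc, ← mul_assoc (y ^ (k + 1)), ← mul_pow, mul_inv_cancel₀ hy0,
        one_pow, one_mul]
      rfl
    have h10 : ∑ k ∈ Finset.range d, (h.coeff (k + 1) : K) * y ^ (k + 1) =
        aeval y h - h.coeff 0 := by
      rw [aeval_eq_sum_range, Finset.sum_range_succ']
      rw [pow_zero, Algebra.smul_def (h.coeff 0), mul_one]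
      have : ∀ k, h.coeff (k + 1) • y ^ (k + 1) = (h.coeff (k + 1) : K) * y ^ (k + 1) :=
        fun k => Algebra.smul_def _ _
      simp only [this]
      exact (add_sub_cancel_right _ _).symm
    rw [Finset.sum_congr rfl h9, ← Finset.sum_mul, h10]
    show v ^ d + -(u⁻¹ * z * ((aeval y h - h.coeff 0) * v ^ d)) = 0
    have h11 : u⁻¹ * (z * (aeval y h - h.coeff 0)) = 1 := by
      have : z * (aeval y h - h.coeff 0) = u := by
        rw [hud]
        linear_combination hz
      rw [this]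
      exact inv_mul_cancel₀ hu0
    linear_combination (-(v ^ d)) * h11

/-- replace the polynomial by a monic polynomial over `R` -/
theorem monic_of (hfrac : ∀ x : K, ∃ c ∈ R, c ≠ 0 ∧ c * x ∈ R) (f : K[X])
    (hf : f.derivative ≠ 0) {b : K} (hb0 : b ≠ 0) (hb : ∀ y : K, b * (f.eval y)⁻¹ ∈ R) :
    ∃ h : R[X], h.Monic ∧ 1 ≤ h.natDegree ∧ ∃ β : K, β ≠ 0 ∧ ∀ y, β * (aeval y h)⁻¹ ∈ R := by
  classical
  obtain ⟨c, hc, hc0, hcf⟩ := common hfrac f.coeffs
  have hco : (↑(C c * f).coeffs : Set K) ⊆ R := by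
    intro x hx
    obtain ⟨k, -, rfl⟩ := Polynomial.mem_coeffs_iff.1 hx
    rw [coeff_C_mul]
    by_cases h0 : f.coeff k = 0
    · rw [h0, mul_zero]
      exact R.zero_mem
    · exact hcf _ (Polynomial.coeff_mem_coeffs h0)
  set g : R[X] := (C c * f).toSubring R hco with hg
  have hgm : g.map (algebraMap R K) = C c * f := map_toSubring _ R hco
  have hf0 : f ≠ 0 := by
    rintro rfl
    exact hf derivative_zero
  have hgn : g.natDegree = f.natDegree := by
    rw [hg, natDegree_toSubring, natDegree_C_mul hc0]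
  have hfd : 1 ≤ f.natDegree := by
    by_contra hcon
    have h0 : f.natDegree = 0 := by omega
    rw [eq_C_of_natDegree_eq_zero h0, derivative_C] at hf
    exact hf rfl
  have hg0 : g ≠ 0 := by
    intro h0
    rw [h0, natDegree_zero] at hgn
    omega
  set α : K := (g.leadingCoeff : K) with hα
  have hα0 : α ≠ 0 := fun h0 => leadingCoeff_ne_zero.2 hg0 (Subtype.ext h0)
  have key : ∀ y : K, aeval y (integralNormalization g) =
      α ^ (g.natDegree - 1) * (c * f.eval (y / α)) := by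
    intro y
    have h1 := integralNormalization_eval₂_leadingCoeff_mul (p := g) (by omega)
      (algebraMap R K) (y / α)
    have h2 : algebraMap R K g.leadingCoeff * (y / α) = y := mul_div_cancel₀ y hα0
    rw [h2] at h1
    have h3 : eval₂ (algebraMap R K) (y / α) g = c * f.eval (y / α) := by
      rw [← eval_map, hgm, eval_mul, eval_C]
    rw [h3] at h1
    exact h1
  refine ⟨integralNormalization g, monic_integralNormalization hg0, ?_,
    b * (α ^ (g.natDegree - 1) * c), mul_ne_zero hb0 (mul_ne_zero (pow_ne_zero _ hα0) hc0),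
    fun y => ?_⟩
  · rw [natDegree_integralNormalization]
    omega
  · have e : b * (α ^ (g.natDegree - 1) * c) * (aeval y (integralNormalization g))⁻¹ =
        b * (f.eval (y / α))⁻¹ := by
      rw [key y, ← mul_assoc (α ^ (g.natDegree - 1)), mul_inv, ← mul_assoc, mul_assoc b,
        mul_inv_cancel₀ (mul_ne_zero (pow_ne_zero _ hα0) hc0), mul_one]
    rw [e]
    exact hb _

end Pool.Agent.H48.TP
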