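import Pool.Agent.H48.TP.Awy

/-!
# Polynomials with values away from zero: the henselian valuation ring
-/

set_option autoImplicit false

namespace Pool.Agent.H48.TP

open Polynomial FirstOrder FirstOrder.Language FirstOrder.Ring

variable {K : Type} [Field K] {R : Subring K} {π : K}

/-- a bounded henselian valuation ring over `R` -/
def HensOver (R : Subring K) (O : ValuationSubring K) : Prop :=
  O ≠ ⊤ ∧ HenselianLocalRing O ∧ R ≤ O.toSubring ∧ ∃ a : K, a ≠ 0 ∧ ∀ x ∈ O, a * x ∈ R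

/-- If `R[1/κ]` is not `K` -/
theorem hensOver_loc (I : Ideal R) (hH : HenselianRing R I) {κ : K} (hκ : Small I κ)
    (hκR : κ ∈ R) (hκ0 : κ ≠ 0)
    (hdich : ∀ x ∈ loc R κ hκR, x ∈ R ∨ x⁻¹ ∈ loc R κ hκR)
    (hval : ∀ y : K, y ∈ loc R κ hκR ∨ y⁻¹ ∈ loc R κ hκR) (htop : loc R κ hκR ≠ ⊤) :
    ∃ O : ValuationSubring K, HensOver R O := by
  let O : ValuationSubring K := { loc R κ hκR with mem_or_inv_mem' := hval }
  have hmem : ∀ x, x ∈ O ↔ x ∈ loc R κ hκR := fun x => Iff.rfl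
  -- nonunits are divisible by all powers of `κ`
  have hnon : ∀ x, x ∈ loc R κ hκR → x⁻¹ ∉ loc R κ hκR → ∀ k : ℕ, (κ ^ k)⁻¹ * x ∈ R := by
    rintro x ⟨L, hL⟩ hx2 k
    have h1 : (κ ^ k)⁻¹ * x ∈ loc R κ hκR := by
      refine ⟨L + k, ?_⟩
      have e : κ ^ (L + k) * ((κ ^ k)⁻¹ * x) = κ ^ L * x := by
        rw [pow_add]
        field_simp
      rw [e]
      exact hL
    refine (hdich _ h1).resolve_right fun h2 => hx2 ?_
    obtain ⟨M, hM⟩ := h2
    refine ⟨M + k, ?_⟩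
    have e : κ ^ (M + k) * x⁻¹ = κ ^ M * ((κ ^ k)⁻¹ * x)⁻¹ := by
      rw [mul_inv, inv_inv, pow_add, mul_assoc]
    rw [e]
    exact hM
  have hRO : R ≤ O.toSubring := fun x hx => le_loc hκR hx
  refine ⟨O, ?_, ?_, hRO, ?_⟩
  · intro h
    apply htop
    rw [eq_top_iff]
    intro x _
    have : x ∈ O := by rw [h]; trivial
    exact this
  · refine henselian_of I O (fun x hx => hRO hx) fun x hx => ?_
    by_cases hx0 : x = 0
    · subst hx0
      exact ⟨0, Ideal.zero_mem _, rfl⟩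
    have h1 : x⁻¹ ∉ O := by
      intro h1
      rw [← ValuationSubring.valuation_le_one_iff, map_inv₀] at h1
      have h3 : O.valuation x ≠ 0 := (Valuation.ne_zero_iff _).2 hx0
      exact absurd hx (not_lt.2 ((inv_le_one₀ (zero_lt_iff.2 h3)).1 h1))
    have h2 : x ∈ O := (O.mem_or_inv_mem x).resolve_right h1
    have h3 := hnon x h2 h1 1
    have e : x = κ * ((κ ^ 1)⁻¹ * x) := by
      rw [pow_one, mul_inv_cancel_left₀ hκ0]
    rw [e]
    exact hκ.mul h3
  · obtain ⟨x, hx⟩ : ∃ x : K, x ∉ loc R κ hκR := by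
      by_contra hcon
      push Not at hcon
      exact htop (eq_top_iff.2 fun x _ => hcon x)
    have hx0 : x ≠ 0 := by
      rintro rfl
      exact hx (loc R κ hκR).zero_mem
    have hxi : x⁻¹ ∈ loc R κ hκR := (hval x).resolve_left hx
    refine ⟨x⁻¹, inv_ne_zero hx0, ?_⟩
    rintro y ⟨L, hL⟩
    have h1 := hnon x⁻¹ hxi (by rwa [inv_inv]) L
    have e : x⁻¹ * y = ((κ ^ L)⁻¹ * x⁻¹) * (κ ^ L * y) := by
      field_simp
    rw [e]
    exact R.mul_mem h1 hL

/-- Polynomials with values away from zero give henselian valuations. -/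
theorem away_val [CompatibleRing K] (hK : NIPField K) (I : Ideal R) (hH : HenselianRing R I)
    (hI : I ≠ ⊥) (hic : ∀ x : K, IsIntegral R x → x ∈ R)
    (hfrac : ∀ x : K, ∃ c ∈ R, c ≠ 0 ∧ c * x ∈ R) (hf : Away R) :
    ∃ O : ValuationSubring K, HensOver R O := by
  classical
  obtain ⟨f, hf, b, hb0, hb⟩ := hf.get
  obtain ⟨B, hB, ⟨a, ha0, ha⟩, b', hb'0, hb'⟩ :=
    bdd_of_values I hI hfrac f hf hb0 hb (infinite_of I hI)
  obtain ⟨ρ, hρ, hρ0⟩ := exists_small I hI
  have hρR : ρ ∈ R := by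
    obtain ⟨r, -, rfl⟩ := hρ
    exact r.2
  obtain ⟨c, hc, hc0, hcab⟩ := common hfrac {a⁻¹, b'⁻¹}
  have hca := hcab a⁻¹ (by simp)
  have hcb := hcab b'⁻¹ (by simp)
  obtain ⟨h, hm, hd, β, hβ0, hβ⟩ := monic_of hfrac f hf hb0 hb
  obtain ⟨e, he, he0, heβ⟩ := hfrac β⁻¹
  -- the scale
  set κ : K := ρ * (c * e) with hκd
  have hceR : c * e ∈ R := R.mul_mem hc he
  have hκ : Small I κ := hρ.mul hceR
  have hκR : κ ∈ R := R.mul_mem hρR hceR
  have hκ0 : κ ≠ 0 := mul_ne_zero hρ0 (mul_ne_zero hc0 he0)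
  have hpre : Pre R κ := ⟨hic, conn_small I hκ hκ0⟩
  have hn : Nbhd R κ 1 B := by
    refine ⟨fun y hy => ?_, fun y hy => ?_⟩
    · have e1 : κ ^ 1 * y = a * ((c * a⁻¹) * (ρ * (e * y))) := by
        rw [hκd]
        field_simp
      rw [e1]
      exact ha _ (R.mul_mem hca (R.mul_mem hρR (R.mul_mem he hy)))
    · have e1 : κ ^ 1 * y = (c * b'⁻¹) * (b' * y) * (ρ * e) := by
        rw [hκd]
        field_simp
      rw [e1]
      exact R.mul_mem (R.mul_mem hcb (hb' y hy)) (R.mul_mem hρR he)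
  obtain ⟨N, hN⟩ := hpre.exists_no_peaks hK B hB hn
  have hdich : ∀ x ∈ loc R κ hκR, x ∈ R ∨ x⁻¹ ∈ loc R κ hκR := by
    rintro x ⟨L, hL⟩
    rcases hpre.dichotomy le_rfl hN x hL with h1 | h1
    · exact Or.inl h1
    · exact Or.inr ⟨N, h1⟩
  have hval : ∀ y : K, y ∈ loc R κ hκR ∨ y⁻¹ ∈ loc R κ hκR := by
    intro y
    by_cases hy0 : y = 0
    · left
      rw [hy0]
      exact (loc R κ hκR).zero_mem
    by_cases hz0 : aeval y h = 0
    · left
      exact le_loc hκR (hic y ⟨h, hm, hz0⟩)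
    set z := (aeval y h)⁻¹ with hz
    have hzl : z ∈ loc R κ hκR := by
      refine ⟨1, ?_⟩
      have e1 : κ ^ 1 * z = (ρ * c) * ((e * β⁻¹) * (β * z)) := by
        rw [hκd]
        field_simp
      rw [e1]
      exact R.mul_mem (R.mul_mem hρR hc) (R.mul_mem heβ (hβ y))
    by_cases hzi : z⁻¹ ∈ loc R κ hκR
    · left
      rw [hz, inv_inv] at hzi
      exact mem_loc_of_eval hic hκR hm hd hzi
    · right
      -- `z` is divisible by `κ`
      have h1 : κ⁻¹ * z ∈ R := by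
        obtain ⟨L, hL⟩ := hzl
        have h2 : κ⁻¹ * z ∈ loc R κ hκR := by
          refine ⟨L + 1, ?_⟩
          have e1 : κ ^ (L + 1) * (κ⁻¹ * z) = κ ^ L * z := by
            rw [pow_succ]
            field_simp
          rw [e1]
          exact hL
        refine (hdich _ h2).resolve_right fun h3 => hzi ?_
        obtain ⟨M, hM⟩ := h3
        refine ⟨M + 1, ?_⟩
        have e1 : κ ^ (M + 1) * z⁻¹ = κ ^ M * (κ⁻¹ * z)⁻¹ := by
          rw [mul_inv, inv_inv κ, pow_succ, mul_assoc]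
        rw [e1]
        exact hM
      have hzs : Small I z := by
        have e1 : z = κ * (κ⁻¹ * z) := (mul_inv_cancel_left₀ hκ0 z).symm
        rw [e1]
        exact hκ.mul h1
      have hzR : z ∈ R := by
        obtain ⟨r, -, hr⟩ := hzs
        rw [← hr]
        exact r.2
      refine le_loc hκR (inv_mem_of_small hic hd (mul_inv_cancel₀ hz0) hzR (fun a ha => ?_) hy0)
      have h4 : Small I (z * -a) := hzs.mul (R.neg_mem ha)
      have h5 := h4.one_add hH.jac
      have e1 : 1 + z * -a = 1 - a * z := by ring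
      rwa [e1] at h5
  by_cases htop : loc R κ hκR = ⊤
  · -- the ring `R[1/κ]` is the field
    have hfin : ∀ x : K, ∃ n : ℕ, κ ^ n * x ∈ R := by
      intro x
      have : x ∈ loc R κ hκR := by rw [htop]; trivial
      exact this
    obtain ⟨O, h1, h2, h3⟩ := last_pair hK I hH hI hfrac hκ0 (tate_bounded hκR hκ0 hfin hic)
      (Or.inl ⟨B, hB, ⟨a, ha0, ha⟩, b', hb'0, hb'⟩)
    refine ⟨O, h1.2.1, h2.1, fun x hx => ?_, κ, hκ0, h3⟩
    exact (h1.1 x).2 ⟨1, R.one_mem, one_ne_zero, fun m => by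
      rw [one_mul]
      exact R.pow_mem hx m⟩
  · exact hensOver_loc I hH hκ hκR hκ0 hdich hval htop

end Pool.Agent.H48.TP
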