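import Pool.Agent.H48.TP.Last3
import Pool.Graph.R_pool_sql_team_seeded_3997aac3.Q175.NFC.Fin

/-!
# Positive characteristic
-/

set_option autoImplicit false

namespace Pool.Agent.H48.TP

open Polynomial FirstOrder FirstOrder.Language FirstOrder.Ring

variable {K : Type} [Field K] {R : Subring K}

/-- separably closed, or a nontrivial definable henselian valuation ring -/
def Shel (K : Type) [Field K] [CompatibleRing K] : Prop :=
  IsSepClosed K ∨ ∃ O : ValuationSubring K, O ≠ ⊤ ∧ HenselianLocalRing O ∧ DefSet (O : Set K)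

theorem isSepClosed_of (h : ∀ x : SeparableClosure K,
    x ∈ Set.range (algebraMap K (SeparableClosure K))) : IsSepClosed K := by
  refine IsSepClosed.of_exists_root K fun f hf hirr hsep => ?_
  have hdeg : f.degree ≠ 0 := (Polynomial.degree_pos_of_irreducible hirr).ne'
  obtain ⟨x, hx⟩ := IsSepClosed.exists_aeval_eq_zero (SeparableClosure K) f hdeg hsep
  obtain ⟨y, rfl⟩ := h x
  refine ⟨y, ?_⟩
  rw [aeval_algebraMap_apply, map_eq_zero_iff _ (algebraMap K (SeparableClosure K)).injective] at hx
  exact hx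

theorem defSet_scale [CompatibleRing K] {B : Set K} (hB : DefSet B) (y : K) :
    DefSet {x : K | x * y ∈ B} := by
  obtain ⟨p, ψ, c, hψ⟩ := hB
  refine ⟨p + 1, mulF ψ, Fin.cons y c, fun x => ?_⟩
  rw [realize_mulF, ← hψ]
  rfl

theorem shel_charP [CompatibleRing K] (hK : NIPField K) {p : ℕ} (hp : p.Prime) (hchar : CharP K p)
    {O : ValuationSubring K} (hO : Same R O) (hB : Bdd R) : Shel K := by
  have : Fact p.Prime := ⟨hp⟩
  by_cases hns : ∃ x : SeparableClosure K, x ∉ Set.range (algebraMap K (SeparableClosure K))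
  · right
    obtain ⟨B, hB, ⟨a, ha0, ha⟩, b, hb0, hb⟩ := hB
    obtain ⟨htop, hRO, a', ha'0, ha'⟩ := hO
    have hc0 : b * (a * a') ≠ 0 := mul_ne_zero hb0 (mul_ne_zero ha0 ha'0)
    obtain ⟨⟨O', h1, h2, h3, -⟩, -⟩ := Pool.Agent.Q175.NFC.main_char_p (K := K) hK p (V := O) htop
      (S := {x : K | x * b⁻¹ ∈ B}) (defSet_scale hB b⁻¹) (fun x hx => by
        have h4 := hb _ hx
        have e : b * (x * b⁻¹) = x := by field_simp
        rw [e] at h4
        exact hRO h4) hc0 (fun x hx => by
        have h5 : x / (b * (a * a')) ∈ O := by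
          rw [← ValuationSubring.valuation_le_one_iff, map_div₀]
          exact (div_le_one₀ (zero_lt_iff.2 ((Valuation.ne_zero_iff _).2 hc0))).2 hx
        have h6 := ha _ (ha' _ h5)
        have e : a * (a' * (x / (b * (a * a')))) = x * b⁻¹ := by field_simp
        rw [e] at h6
        exact h6) hns
    exact ⟨O', h1, h2, h3⟩
  · left
    push Not at hns
    exact isSepClosed_of hns

theorem shel_ringChar [CompatibleRing K] (hK : NIPField K) (hchar : ringChar K ≠ 0)
    {O : ValuationSubring K} (hO : Same R O) (hB : Bdd R) : Shel K := by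
  have hp : (ringChar K).Prime := by
    rcases CharP.char_is_prime_or_zero K (ringChar K) with h | h
    · exact h
    · exact absurd h hchar
  exact shel_charP hK hp (ringChar.charP K) hO hB

theorem bdd_of_away [CompatibleRing K] (I : Ideal R) (hH : HenselianRing R I) (hI : I ≠ ⊥)
    (hfrac : ∀ x : K, ∃ c ∈ R, c ≠ 0 ∧ c * x ∈ R) (h : Away R) : Bdd R := by
  obtain ⟨f, hf, b, hb0, hb⟩ := h.get
  exact bdd_of_values I hI hfrac f hf hb0 hb (infinite_of I hI)

/-- the full conclusion -/
theorem shel_of [CompatibleRing K] (hK : NIPField K) {O : ValuationSubring K} (hO : Same R O)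
    (hc : HensCoa O) (hB : Bdd R) (h : ringChar K ≠ 0 ∨ NotDivisible O) : Shel K := by
  rcases h with h | h
  · exact shel_ringChar hK h hO hB
  · obtain ⟨O', -, h1, h2, h3⟩ := hc.2 h
    exact Or.inr ⟨O', h1, h2, h3⟩

end Pool.Agent.H48.TP
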