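import Pool.Agent.H48.TP.Fin

/-!
# The integral closure of a henselian pair `(R, π R)` with `K = R[1/π]`
-/

set_option autoImplicit false

namespace Pool.Agent.H48.TP

open Polynomial

variable {K : Type} [Field K] {R : Subring K} {π : K}

theorem isUnit_one_add {R' : Subring K} (hRR' : R ≤ R') (hmem : π ∈ R)
    [hH : HenselianRing R (Ideal.span {(⟨π, hmem⟩ : R)})] {s : K} (hs : s ∈ R') {a : ℕ}
    (ha : ∀ m : ℕ, π ^ a * s ^ m ∈ R) : IsUnit (1 + ⟨π, hRR' hmem⟩ * ⟨s, hs⟩ : R') := by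
  -- `(1 + π s) (1 - π s + ... ) = 1 ± (π s) ^ (a + 1)`
  have h1 : (-(π * s)) ^ (a + 1) = π * ((-1) ^ (a + 1) * (π ^ a * s ^ (a + 1))) := by ring
  have h2 : (-1 : K) ^ (a + 1) * (π ^ a * s ^ (a + 1)) ∈ R :=
    R.mul_mem (R.pow_mem (R.neg_mem R.one_mem) _) (ha _)
  have h3 : IsUnit (1 + -((⟨π, hmem⟩ : R) * ⟨_, h2⟩)) := by
    refine isUnit_add hH.jac isUnit_one ?_
    exact (Ideal.neg_mem_iff _).2 (Ideal.mul_mem_right _ _ (Ideal.mem_span_singleton_self _))
  have h4 : IsUnit (1 - (-((⟨π, hRR' hmem⟩ : R') * ⟨s, hs⟩)) ^ (a + 1)) := by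
    obtain ⟨h5, h6⟩ := isUnit_iff.1 h3
    rw [isUnit_iff]
    have e : ((1 - (-((⟨π, hRR' hmem⟩ : R') * ⟨s, hs⟩)) ^ (a + 1) : R') : K) =
        ((1 + -((⟨π, hmem⟩ : R) * ⟨_, h2⟩) : R) : K) := by
      show 1 - (-(π * s)) ^ (a + 1) = 1 + -(π * ((-1) ^ (a + 1) * (π ^ a * s ^ (a + 1))))
      rw [h1]
      ring
    rw [e]
    exact ⟨h5, hRR' h6⟩
  have h7 : (1 - -((⟨π, hRR' hmem⟩ : R') * ⟨s, hs⟩)) ∣
      (1 - (-((⟨π, hRR' hmem⟩ : R') * ⟨s, hs⟩)) ^ (a + 1)) := by
    have := sub_dvd_pow_sub_pow (1 : R') (-((⟨π, hRR' hmem⟩ : R') * ⟨s, hs⟩)) (a + 1)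
    rwa [one_pow] at this
  have h8 := isUnit_of_dvd_unit h7 h4
  rwa [sub_neg_eq_add] at h8

theorem jac_of {R' : Subring K} (p : R') (h : ∀ s : R', IsUnit (1 + p * s)) :
    Ideal.span {p} ≤ Ideal.jacobson ⊥ := by
  rw [Ideal.span_singleton_le_iff_mem, Ideal.mem_jacobson_bot]
  intro y
  rw [add_comm]
  exact h y

/-- rings between `R` and `π ^ (-a) R` -/
theorem pair_of_bounded {R' : Subring K} (hRR' : R ≤ R') (hmem : π ∈ R) (hne : π ≠ 0)
    [hH : HenselianRing R (Ideal.span {(⟨π, hmem⟩ : R)})] {a : ℕ} (ha : ∀ x ∈ R', π ^ a * x ∈ R) :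
    HenselianRing R' (Ideal.span {(⟨π, hRR' hmem⟩ : R')}) := by
  have hjac : Ideal.span {(⟨π, hRR' hmem⟩ : R')} ≤ Ideal.jacobson ⊥ :=
    jac_of _ fun s => isUnit_one_add hRR' hmem s.2 (fun m => ha _ (R'.pow_mem s.2 m))
  refine ⟨hjac, fun f hf a₀ h1 h2 => ?_⟩
  have h3 := isUnit_of_quot hjac h2
  obtain ⟨b, hb1, hb2, hb3⟩ := newton hjac f a₀ h1 h3 a
  by_cases hb0 : f.eval b = 0
  · exact ⟨b, hb0, hb1⟩
  set f' : K[X] := f.map (algebraMap R' K) with hf'
  set g : K[X] := Polynomial.taylor (b : K) f' with hg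
  have hg0 : g.coeff 0 = ((f.eval b : R') : K) := by
    rw [hg, Polynomial.taylor_coeff_zero, hf', Polynomial.eval_map]
    exact Polynomial.eval₂_at_apply (algebraMap R' K) b
  have hg1 : g.coeff 1 = ((f.derivative.eval b : R') : K) := by
    rw [hg, Polynomial.taylor_coeff_one, hf', Polynomial.derivative_map, Polynomial.eval_map]
    exact Polynomial.eval₂_at_apply (algebraMap R' K) b
  have hgk : ∀ k, g.coeff k ∈ R' := by
    intro k
    have : g = (Polynomial.taylor b f).map (algebraMap R' K) := by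
      rw [hg, hf', Polynomial.map_taylor]
      rfl
    rw [this, Polynomial.coeff_map]
    exact ((Polynomial.taylor b f).coeff k).2
  obtain ⟨hg1', hg1i⟩ := isUnit_iff.1 hb2
  rw [← hg1] at hg1' hg1i
  have hg0' : g.coeff 0 ≠ 0 := by
    rw [hg0]
    exact fun h => hb0 (Subtype.ext h)
  obtain ⟨c, hc⟩ : ∃ c ∈ R', g.coeff 0 = π ^ (a + 1) * c := by
    obtain ⟨c₀, hc₀⟩ := Ideal.mem_span_singleton.1 h1
    obtain ⟨c₁, hc₁⟩ := hb3
    refine ⟨(c₀ ^ (a + 1) * c₁ : R'), Subtype.property _, ?_⟩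
    rw [hg0, hc₁, hc₀]
    show (π * (c₀ : K)) ^ (a + 1) * (c₁ : K) = π ^ (a + 1) * ((c₀ : K) ^ (a + 1) * (c₁ : K))
    ring
  obtain ⟨hcR, hc⟩ := hc
  obtain ⟨s, hs, hs1⟩ := root_near (Ideal.span {(⟨π, hmem⟩ : R)}) g (n := g.natDegree) (by omega)
    hg0' hg1' (fun k => by
      have h4 : g.coeff ((k : ℕ) + 2) * c ^ ((k : ℕ) + 1) * (g.coeff 1)⁻¹ ^ ((k : ℕ) + 2) ∈ R' :=
        R'.mul_mem (R'.mul_mem (hgk _) (R'.pow_mem hcR _)) (R'.pow_mem hg1i _)
      have h5 : π ^ ((a + 1) * k) * (π ^ a * (g.coeff ((k : ℕ) + 2) * c ^ ((k : ℕ) + 1) *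
          (g.coeff 1)⁻¹ ^ ((k : ℕ) + 2))) ∈ R := R.mul_mem (R.pow_mem hmem _) (ha _ h4)
      refine ⟨⟨π, hmem⟩ * ⟨_, h5⟩, Ideal.mul_mem_right _ _ (Ideal.mem_span_singleton_self _), ?_⟩
      show π * (π ^ ((a + 1) * k) * (π ^ a * (g.coeff ((k : ℕ) + 2) * c ^ ((k : ℕ) + 1) *
          (g.coeff 1)⁻¹ ^ ((k : ℕ) + 2)))) = _
      rw [hc, inv_pow]
      field_simp
      ring)
  have hval : c / g.coeff 1 * s ∈ R' := by
    rw [div_eq_mul_inv]
    exact R'.mul_mem (R'.mul_mem hcR hg1i) (hRR' hs)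
  have ht1 : π ^ a * (c / g.coeff 1 * s) ∈ R' := R'.mul_mem (R'.pow_mem (hRR' hmem) _) hval
  set t : R' := ⟨π, hRR' hmem⟩ * ⟨_, ht1⟩ with ht
  have htK : (t : K) = g.coeff 0 / g.coeff 1 * s := by
    show π * (π ^ a * (c / g.coeff 1 * s)) = _
    rw [hc]
    ring
  refine ⟨t + b, ?_, ?_⟩
  · have h4 : g.eval (t : K) = 0 := by
      rw [htK]
      exact hs1
    rw [hg, Polynomial.taylor_eval, hf', Polynomial.eval_map] at h4
    have h5 : Polynomial.eval₂ (algebraMap R' K) (((t + b : R')) : K) f =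
        ((f.eval (t + b) : R') : K) := Polynomial.eval₂_at_apply (algebraMap R' K) (t + b)
    have h6 : ((f.eval (t + b) : R') : K) = 0 := by
      rw [← h5]
      exact h4
    exact Subtype.ext h6
  · rw [add_sub_assoc]
    refine Ideal.add_mem _ ?_ hb1
    rw [ht]
    exact Ideal.mul_mem_right _ _ (Ideal.mem_span_singleton_self _)

/-- finitely many integral elements are in a ring between `R` and `π ^ (-a) R` -/
theorem exists_bounded (hmem : π ∈ R) (hfin : ∀ x : K, ∃ n : ℕ, π ^ n * x ∈ R) (T : Set K)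
    (hT : T.Finite) (hT2 : ∀ x ∈ T, IsIntegral R x) :
    ∃ (R' : Subring K) (a : ℕ), R ≤ R' ∧ T ⊆ R' ∧ (∀ x ∈ R', IsIntegral R x) ∧
      ∀ x ∈ R', π ^ a * x ∈ R := by
  classical
  have hfg := fg_adjoin_of_finite hT hT2
  obtain ⟨G, hG⟩ := hfg
  choose k hk using hfin
  have hmono : ∀ m n : ℕ, m ≤ n → ∀ x : K, π ^ m * x ∈ R → π ^ n * x ∈ R := by
    intro m n hmn x hx
    obtain ⟨l, rfl⟩ := Nat.exists_eq_add_of_le hmn
    rw [pow_add, mul_comm (π ^ m), mul_assoc]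
    exact R.mul_mem (R.pow_mem hmem _) hx
  refine ⟨(Algebra.adjoin R T).toSubring, G.sup k, ?_, ?_, ?_, ?_⟩
  · intro x hx
    exact (Algebra.adjoin R T).algebraMap_mem ⟨x, hx⟩
  · intro x hx
    exact Algebra.subset_adjoin hx
  · intro x hx
    exact Algebra.adjoin_le (S := integralClosure R K) (fun y hy => hT2 y hy) hx
  · intro x hx
    have hx' : x ∈ Submodule.span R (G : Set K) := by
      rw [hG]
      exact hx
    induction hx' using Submodule.span_induction with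
    | mem y hy => exact hmono _ _ (Finset.le_sup hy) _ (hk y)
    | zero => rw [mul_zero]; exact R.zero_mem
    | add y z hy hz ihy ihz =>
      rw [mul_add]
      have hy' : y ∈ (Algebra.adjoin R T).toSubring := by
        have : y ∈ Subalgebra.toSubmodule (Algebra.adjoin R T) := by
          rw [← hG]
          exact hy
        exact this
      have hz' : z ∈ (Algebra.adjoin R T).toSubring := by
        have : z ∈ Subalgebra.toSubmodule (Algebra.adjoin R T) := by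
          rw [← hG]
          exact hz
        exact this
      exact R.add_mem (ihy hy') (ihz hz')
    | smul r y hy ih =>
      have hy' : y ∈ (Algebra.adjoin R T).toSubring := by
        have : y ∈ Subalgebra.toSubmodule (Algebra.adjoin R T) := by
          rw [← hG]
          exact hy
        exact this
      have e : π ^ G.sup k * (r • y) = (r : K) * (π ^ G.sup k * y) := by
        rw [Algebra.smul_def]
        show π ^ G.sup k * ((r : K) * y) = _
        ring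
      rw [e]
      exact R.mul_mem r.2 (ih hy')

/-- the integral closure, as a subring -/
def cl (R : Subring K) : Subring K := (integralClosure R K).toSubring

theorem mem_cl {x : K} : x ∈ cl R ↔ IsIntegral R x := Iff.rfl

theorem le_cl : R ≤ cl R := fun x hx => (integralClosure R K).algebraMap_mem ⟨x, hx⟩

theorem pair_cl (hmem : π ∈ R) (hne : π ≠ 0) (hfin : ∀ x : K, ∃ n : ℕ, π ^ n * x ∈ R)
    [hH : HenselianRing R (Ideal.span {(⟨π, hmem⟩ : R)})] :
    HenselianRing (cl R) (Ideal.span {(⟨π, le_cl hmem⟩ : cl R)}) := by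
  classical
  have hjac : Ideal.span {(⟨π, le_cl hmem⟩ : cl R)} ≤ Ideal.jacobson ⊥ := by
    refine jac_of _ fun s => ?_
    obtain ⟨R', a, h1, h2, h3, h4⟩ := exists_bounded hmem hfin {(s : K)} (Set.finite_singleton _)
      (by
        intro x hx
        rw [Set.mem_singleton_iff] at hx
        rw [hx]
        exact s.2)
    exact isUnit_one_add le_cl hmem s.2 (fun m => h4 _ (R'.pow_mem (h2 rfl) m))
  refine ⟨hjac, fun f hf a₀ h1 h2 => ?_⟩
  obtain ⟨c₀, hc₀⟩ := Ideal.mem_span_singleton.1 h1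
  have h3 := isUnit_of_quot hjac h2
  obtain ⟨hu0, hui⟩ := isUnit_iff.1 h3
  obtain ⟨R', a, g1, g2, g3, g4⟩ := exists_bounded hmem hfin
    (((fun k => ((f.coeff k : cl R) : K)) '' (Finset.range (f.natDegree + 1) : Set ℕ)) ∪
      {(a₀ : K), (c₀ : K), ((f.derivative.eval a₀ : cl R) : K)⁻¹})
    (((Finset.finite_toSet _).image _).union (by simp)) (by
      rintro x (⟨k, -, rfl⟩ | hx)
      · exact (f.coeff k).2
      · simp only [Set.mem_insert_iff, Set.mem_singleton_iff] at hx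
        rcases hx with rfl | rfl | rfl
        · exact a₀.2
        · exact c₀.2
        · exact hui)
  have hR'cl : R' ≤ cl R := fun x hx => g3 x hx
  have hcoef : ∀ k, ((f.coeff k : cl R) : K) ∈ R' := by
    intro k
    by_cases hk : k ≤ f.natDegree
    · exact g2 (Or.inl ⟨k, by simpa using Nat.lt_succ_of_le hk, rfl⟩)
    · rw [coeff_eq_zero_of_natDegree_lt (by omega)]
      exact R'.zero_mem
  have ha₀ : (a₀ : K) ∈ R' := g2 (Or.inr (by simp))
  have hc₀R : (c₀ : K) ∈ R' := g2 (Or.inr (by simp))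
  have huR : ((f.derivative.eval a₀ : cl R) : K)⁻¹ ∈ R' := g2 (Or.inr (by simp))
  have := pair_of_bounded g1 hmem hne g4
  -- the polynomial over `R'`
  let ι : R' →+* cl R := Subring.inclusion hR'cl
  have hι : Function.Injective ι := Subring.inclusion_injective hR'cl
  obtain ⟨f₁, hf₁⟩ : ∃ f₁ : R'[X], f₁.map ι = f := by
    refine ⟨∑ k ∈ Finset.range (f.natDegree + 1), C (⟨_, hcoef k⟩ : R') * X ^ k, ?_⟩
    rw [Polynomial.map_sum]
    conv_rhs => rw [f.as_sum_range_C_mul_X_pow]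
    refine Finset.sum_congr rfl fun k _ => ?_
    rw [Polynomial.map_mul, Polynomial.map_pow, map_X, map_C]
    rfl
  have hf₁m : f₁.Monic := by
    rw [← hf₁] at hf
    exact Polynomial.monic_of_injective hι hf
  have hev : ∀ (p : R'[X]) (x : R'), ι (p.eval x) = (p.map ι).eval (ι x) := fun p x => by
    rw [Polynomial.eval_map_apply]
  have ha1 : ι ⟨a₀, ha₀⟩ = a₀ := rfl
  have k1 : f₁.eval (⟨a₀, ha₀⟩ : R') ∈ Ideal.span {(⟨π, g1 hmem⟩ : R')} := by
    rw [Ideal.mem_span_singleton]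
    refine ⟨⟨c₀, hc₀R⟩, hι ?_⟩
    rw [hev, hf₁, ha1, hc₀, map_mul]
    rfl
  have k2 : IsUnit (f₁.derivative.eval (⟨a₀, ha₀⟩ : R')) := by
    have e : ((f₁.derivative.eval (⟨a₀, ha₀⟩ : R') : R') : K) =
        ((f.derivative.eval a₀ : cl R) : K) := by
      have := hev f₁.derivative ⟨a₀, ha₀⟩
      rw [← Polynomial.derivative_map, hf₁, ha1] at this
      exact congrArg (fun x : cl R => (x : K)) this
    rw [isUnit_iff, e]
    exact ⟨hu0, huR⟩
  obtain ⟨b, hb1, hb2⟩ := HenselianRing.is_henselian f₁ hf₁m _ k1 (k2.map _)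
  refine ⟨ι b, ?_, ?_⟩
  · have := hev f₁ b
    rw [hf₁, hb1, map_zero] at this
    exact this.symm
  · obtain ⟨c, hc⟩ := Ideal.mem_span_singleton.1 hb2
    rw [Ideal.mem_span_singleton]
    refine ⟨ι c, ?_⟩
    have := congrArg ι hc
    rw [map_sub, map_mul] at this
    exact this

end Pool.Agent.H48.TP
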