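import Pool.Agent.H48.TP.Awy2

/-!
# Definable henselian coarsenings
-/

set_option autoImplicit false

namespace Pool.Agent.H48.TP

open Polynomial FirstOrder FirstOrder.Language FirstOrder.Ring

variable {K : Type} [Field K] {R : Subring K} {π : K}

/-- the elements `x` such that `1 + t x ^ q` is a `q`-th power -/
theorem power_iff (O : ValuationSubring K) (hH : HenselianLocalRing O) {q : ℕ} (hq0 : q ≠ 0)
    (hq : O.valuation (q : K) = 1) {t : K} (ht : ∀ x : K, O.valuation (x ^ q) ≠ O.valuation t)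
    (x : K) : (∃ z : K, z ^ q = 1 + t * x ^ q) ↔ O.valuation (t * x ^ q) < 1 := by
  set v := O.valuation with hv
  constructor
  · rintro ⟨z, hz⟩
    by_contra hcon
    rw [not_lt] at hcon
    rcases eq_or_lt_of_le hcon with h1 | h1
    · apply ht x⁻¹
      have hx : v x ≠ 0 := by
        intro h0
        rw [map_mul, map_pow, h0, zero_pow hq0, mul_zero] at h1
        exact zero_ne_one h1.symm
      rw [inv_pow, map_inv₀, map_pow]
      rw [map_mul, map_pow] at h1
      exact (eq_inv_of_mul_eq_one_left h1.symm).symm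
    · have h2 : v (z ^ q) = v (t * x ^ q) := by
        have h3 : v 1 < v (t * x ^ q) := by rwa [map_one]
        rw [hz, add_comm]
        exact Valuation.map_add_eq_of_lt_left v h3
      have hx : v x ≠ 0 := by
        intro h0
        rw [map_mul, map_pow, h0, zero_pow hq0, mul_zero] at h1
        exact not_lt_of_ge zero_le h1
      apply ht (z / x)
      rw [div_pow, map_div₀, h2, map_mul, map_pow]
      exact mul_div_cancel_right₀ _ (pow_ne_zero _ hx)
  · intro h1
    have hmem : t * x ^ q ∈ O := (ValuationSubring.valuation_le_one_iff _ _).1 h1.le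
    let f : O[X] := X ^ q - C (1 + ⟨_, hmem⟩)
    have hf : f.Monic := monic_X_pow_sub_C _ hq0
    have e0 : f.eval 1 = -⟨_, hmem⟩ := by
      simp only [f, eval_sub, eval_X_pow, eval_C, one_pow]
      ring
    have e1 : f.derivative.eval 1 = (q : O) := by
      simp only [f, derivative_sub, derivative_X_pow, derivative_C, eval_mul, eval_pow, eval_X,
        one_pow, mul_one, sub_zero]
      simp
    obtain ⟨a, ha, -⟩ := HenselianLocalRing.is_henselian f hf 1 (by
      rw [e0]
      refine neg_mem ((O.valuation_lt_one_iff _).2 ?_)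
      exact h1) (by
      rw [e1]
      exact (O.valuation_eq_one_iff _).2 hq)
    refine ⟨a, ?_⟩
    have h3 : f.eval a = 0 := ha
    simp only [f, eval_sub, eval_X_pow, eval_C] at h3
    have h4 := congrArg (fun x : O => (x : K)) (sub_eq_zero.1 h3)
    exact h4

theorem henselian_mono {O O' : ValuationSubring K} (h : O ≤ O') (hO : HenselianLocalRing O) :
    HenselianLocalRing O' := by
  let I : Ideal O.toSubring := IsLocalRing.maximalIdeal O
  have hp : HenselianRing O.toSubring I :=
    inferInstanceAs (HenselianRing O (IsLocalRing.maximalIdeal O))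
  refine henselian_of (R := O.toSubring) I O' (fun x hx => h hx) fun x hx => ?_
  by_cases hx0 : x = 0
  · subst hx0
    exact ⟨0, Ideal.zero_mem _, rfl⟩
  have h1 : x⁻¹ ∉ O' := by
    intro h1
    rw [← ValuationSubring.valuation_le_one_iff, map_inv₀] at h1
    have h3 : O'.valuation x ≠ 0 := (Valuation.ne_zero_iff _).2 hx0
    exact absurd hx (not_lt.2 ((inv_le_one₀ (zero_lt_iff.2 h3)).1 h1))
  have h2 : x⁻¹ ∉ O := fun h2 => h1 (h h2)
  have h3 : x ∈ O := (O.mem_or_inv_mem x).resolve_right h2
  have h4 : (⟨x, h3⟩ : O) ∈ IsLocalRing.maximalIdeal O := by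
    refine (O.valuation_lt_one_iff _).2 ?_
    show O.valuation x < 1
    refine lt_of_le_of_ne ((ValuationSubring.valuation_le_one_iff _ _).2 h3) fun h5 => h2 ?_
    rw [← ValuationSubring.valuation_le_one_iff, map_inv₀, h5, inv_one]
  exact ⟨⟨x, h3⟩, h4, rfl⟩

/-- A henselian valuation ring whose value group is not divisible has a definable coarsening. -/
theorem exists_coarsening (O : ValuationSubring K) [CompatibleRing K] (hH : HenselianLocalRing O)
    (hO : NotDivisible O) : ∃ O' : ValuationSubring K, O ≤ O' ∧ O' ≠ ⊤ ∧ HenselianLocalRing O' ∧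
      DefSet (O' : Set K) := by
  obtain ⟨q, hq, t, ht⟩ := hO
  have hq0 : q ≠ 0 := by
    rintro rfl
    rw [Nat.cast_zero, map_zero] at hq
    exact zero_ne_one hq
  have hq1 : q ≠ 1 := by
    rintro rfl
    exact ht t (by rw [pow_one])
  have ht0 : t ≠ 0 := by
    rintro rfl
    exact ht 0 (by rw [zero_pow hq0])
  have hA := power_iff O hH hq0 hq ht
  set v := O.valuation with hv
  have hmulv : ∀ y x : K, v (t * (y * x) ^ q) = v y ^ q * v (t * x ^ q) := by
    intro y x
    rw [mul_pow, mul_left_comm, map_mul, map_pow]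
  have hvx : ∀ x y : K, v x ≤ v y → v (t * y ^ q) < 1 → v (t * x ^ q) < 1 := by
    intro x y hxy hy
    refine lt_of_le_of_lt ?_ hy
    rw [map_mul, map_mul, map_pow, map_pow]
    exact mul_le_mul_right (pow_le_pow_left₀ zero_le hxy q) _
  let S : Subring K :=
    { carrier := {y | ∀ x : K, v (t * x ^ q) < 1 → v (t * (y * x) ^ q) < 1}
      mul_mem' := by
        intro y₁ y₂ h1 h2 x hx
        rw [mul_assoc]
        exact h1 _ (h2 x hx)
      one_mem' := by
        intro x hx
        rwa [one_mul]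
      add_mem' := by
        intro y₁ y₂ h1 h2 x hx
        rw [add_mul]
        have h3 := v.map_add (y₁ * x) (y₂ * x)
        rcases le_total (v (y₁ * x)) (v (y₂ * x)) with h4 | h4
        · rw [max_eq_right h4] at h3
          exact hvx _ _ h3 (h2 x hx)
        · rw [max_eq_left h4] at h3
          exact hvx _ _ h3 (h1 x hx)
      zero_mem' := by
        intro x hx
        rw [zero_mul, zero_pow hq0, mul_zero, map_zero]
        exact zero_lt_one
      neg_mem' := by
        intro y h1 x hx
        refine hvx _ _ ?_ (h1 x hx)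
        rw [neg_mul, Valuation.map_neg] }
  have hOS : O.toSubring ≤ S := by
    intro y hy x hx
    have hy1 : v y ≤ 1 := (ValuationSubring.valuation_le_one_iff _ _).2 hy
    refine hvx _ _ ?_ hx
    rw [map_mul]
    calc v y * v x ≤ 1 * v x := mul_le_mul_left hy1 _
      _ = v x := one_mul _
  let O' : ValuationSubring K := O.ofLE S hOS
  have hO' : ∀ y, y ∈ O' ↔ ∀ x : K, v (t * x ^ q) < 1 → v (t * (y * x) ^ q) < 1 :=
    fun y => Iff.rfl
  have hOO' : O ≤ O' := hOS
  have h1 : v t ≠ 1 := fun h1 => ht 1 (by rw [one_pow, map_one, h1])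
  obtain ⟨p, hp⟩ : ∃ p, q = p + 2 := ⟨q - 2, by omega⟩
  have einv : t * t⁻¹ ^ q = t⁻¹ ^ (p + 1) := by
    rw [hp, pow_succ t⁻¹ (p + 1)]
    field_simp
  obtain ⟨x₀, hx₀, hx₁⟩ : ∃ x₀ : K, x₀ ≠ 0 ∧ v (t * x₀ ^ q) < 1 := by
    rcases lt_or_gt_of_ne h1 with h2 | h2
    · exact ⟨1, one_ne_zero, by rwa [one_pow, mul_one]⟩
    · refine ⟨t⁻¹, inv_ne_zero ht0, ?_⟩
      rw [einv, map_pow, map_inv₀]
      exact pow_lt_one₀ zero_le (inv_lt_one_of_one_lt₀ h2) (by omega)
  obtain ⟨x₂, hx₂⟩ : ∃ x₂ : K, ¬ v (t * x₂ ^ q) < 1 := by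
    rcases lt_or_gt_of_ne h1 with h2 | h2
    · refine ⟨t⁻¹, ?_⟩
      rw [einv, map_pow, map_inv₀, not_lt]
      have h3 : v t ≠ 0 := (Valuation.ne_zero_iff _).2 ht0
      exact one_le_pow₀ ((one_le_inv₀ (zero_lt_iff.2 h3)).2 h2.le)
    · exact ⟨1, by rw [one_pow, mul_one, not_lt]; exact h2.le⟩
  refine ⟨O', hOO', ?_, henselian_mono hOO' hH, 1, multF q, fun _ => t, fun y => ?_⟩
  · intro htop
    have h3 : x₂ / x₀ ∈ O' := by rw [htop]; trivial
    have h4 := (hO' _).1 h3 x₀ hx₁
    rw [div_mul_cancel₀ _ hx₀] at h4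
    exact hx₂ h4
  · rw [realize_multF]
    show y ∈ O' ↔ _
    rw [hO']
    exact forall_congr' fun x => by rw [hA, hA]

end Pool.Agent.H48.TP
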