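import Pool.Agent.H48.TP.Gen

/-!
# Definability of henselian valuation rings of rank one with value groups which are not divisible
-/

set_option autoImplicit false

namespace Pool.Agent.H48.TP

open Polynomial FirstOrder FirstOrder.Language FirstOrder.Ring

variable {K : Type} [Field K] {R : Subring K} {π : K}

/-- the term `z ^ q - (1 + t x ^ q)` -/
noncomputable def powT (q : ℕ) {α : Type} (z t x : FreeCommRing α) : FreeCommRing α :=
  z ^ q - (1 + t * x ^ q)

/-- the formula: for all `x`, if `1 + t x ^ q` is a `q`-th power then so is `1 + t (y x) ^ q` -/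
noncomputable def multF (q : ℕ) : Language.ring.Formula (Fin 1 ⊕ Fin 1) :=
  (BoundedFormula.all (n := 0) (BoundedFormula.imp
    (BoundedFormula.ex (n := 1) (Term.bdEqual (termOfFreeCommRing
      (powT q (FreeCommRing.of (Sum.inr 1)) (FreeCommRing.of (Sum.inl (Sum.inr 0)))
        (FreeCommRing.of (Sum.inr 0)) : FreeCommRing ((Fin 1 ⊕ Fin 1) ⊕ Fin 2))) 0))
    (BoundedFormula.ex (n := 1) (Term.bdEqual (termOfFreeCommRing
      (powT q (FreeCommRing.of (Sum.inr 1)) (FreeCommRing.of (Sum.inl (Sum.inr 0)))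
        (FreeCommRing.of (Sum.inl (Sum.inl 0)) * FreeCommRing.of (Sum.inr 0)) :
        FreeCommRing ((Fin 1 ⊕ Fin 1) ⊕ Fin 2))) 0))) :
    Language.ring.BoundedFormula (Fin 1 ⊕ Fin 1) 0)

theorem realize_multF [CompatibleRing K] (q : ℕ) (y : K) (c : Fin 1 → K) :
    (multF q).Realize (Sum.elim (fun _ => y) c) ↔
      ∀ x : K, (∃ z : K, z ^ q = 1 + c 0 * x ^ q) → ∃ z : K, z ^ q = 1 + c 0 * (y * x) ^ q := by
  rw [multF, Formula.Realize, BoundedFormula.realize_all]
  refine forall_congr' fun x => ?_
  rw [BoundedFormula.realize_imp, BoundedFormula.realize_ex, BoundedFormula.realize_ex]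
  refine imp_congr (exists_congr fun z => ?_) (exists_congr fun z => ?_)
  · rw [BoundedFormula.realize_bdEqual, realize_termOfFreeCommRing, realize_zero]
    simp only [powT, map_sub, map_add, map_mul, map_pow, map_one, FreeCommRing.lift_of,
      Sum.elim_inl, Sum.elim_inr, sub_eq_zero]
    rfl
  · rw [BoundedFormula.realize_bdEqual, realize_termOfFreeCommRing, realize_zero]
    simp only [powT, map_sub, map_add, map_mul, map_pow, map_one, FreeCommRing.lift_of,
      Sum.elim_inl, Sum.elim_inr, sub_eq_zero]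
    rfl

/-- the archimedean property -/
theorem arch {O : ValuationSubring K} (hO : ∀ x, x ∈ O ↔ AlmInt R x)
    (hfrac : ∀ x : K, ∃ c ∈ R, c ≠ 0 ∧ c * x ∈ R) {a : K} (ha0 : a ≠ 0) (ha : ∀ x ∈ O, a * x ∈ R)
    {c : K} (hc0 : c ≠ 0) {y : K} (h : ∀ m : ℕ, c * y ^ m ∈ O) : y ∈ O := by
  obtain ⟨d, hd, hd0, hdac⟩ := hfrac (a * c)
  rw [hO]
  refine ⟨d * (a * c), hdac, mul_ne_zero hd0 (mul_ne_zero ha0 hc0), fun m => ?_⟩
  have e : d * (a * c) * y ^ m = d * (a * (c * y ^ m)) := by ring
  rw [e]
  exact R.mul_mem hd (ha _ (h m))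

/-- the value group is not divisible by a number which is a unit in the residue field -/
def NotDivisible (O : ValuationSubring K) : Prop :=
  ∃ q : ℕ, O.valuation (q : K) = 1 ∧ ∃ t : K, ∀ x : K, O.valuation (x ^ q) ≠ O.valuation t

theorem defSet_of (O : ValuationSubring K) [CompatibleRing K] (hH : HenselianLocalRing O)
    (harch : ∀ c : K, c ≠ 0 → ∀ y : K, (∀ m : ℕ, c * y ^ m ∈ O) → y ∈ O)
    (hO : NotDivisible O) : DefSet (O : Set K) := by
  obtain ⟨q, hq, t, ht⟩ := hO
  have hq0 : q ≠ 0 := by
    rintro rfl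
    rw [Nat.cast_zero, map_zero] at hq
    exact zero_ne_one hq
  have hq1 : q ≠ 1 := by
    rintro rfl
    exact ht t (by rw [pow_one])
  have ht0 : t ≠ 0 := by
    rintro rfl
    exact ht 0 (by rw [zero_pow hq0])
  set v := O.valuation with hv
  -- the set of the `x` such that `1 + t x ^ q` is a `q`-th power
  have hA : ∀ x : K, (∃ z : K, z ^ q = 1 + t * x ^ q) ↔ v (t * x ^ q) < 1 := by
    intro x
    constructor
    · rintro ⟨z, hz⟩
      by_contra hcon
      rw [not_lt] at hcon
      rcases eq_or_lt_of_le hcon with h1 | h1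
      · apply ht x⁻¹
        have hx : v x ≠ 0 := by
          intro h0
          rw [map_mul, map_pow, h0, zero_pow hq0, mul_zero] at h1
          exact zero_ne_one h1.symm
        rw [inv_pow, map_inv₀, map_pow]
        rw [map_mul, map_pow] at h1
        exact (eq_inv_of_mul_eq_one_left h1.symm).symm
      · have h2 : v (z ^ q) = v (t * x ^ q) := by
          have h3 : v 1 < v (t * x ^ q) := by rwa [map_one]
          rw [hz, add_comm]
          exact Valuation.map_add_eq_of_lt_left v h3
        have hx : v x ≠ 0 := by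
          intro h0
          rw [map_mul, map_pow, h0, zero_pow hq0, mul_zero] at h1
          exact not_lt_of_ge zero_le h1
        apply ht (z / x)
        rw [div_pow, map_div₀, h2, map_mul, map_pow]
        exact mul_div_cancel_right₀ _ (pow_ne_zero _ hx)
    · intro h1
      have hmem : t * x ^ q ∈ O := (ValuationSubring.valuation_le_one_iff _ _).1 h1.le
      let f : O[X] := X ^ q - C (1 + ⟨_, hmem⟩)
      have hf : f.Monic := monic_X_pow_sub_C _ hq0
      have e0 : f.eval 1 = -⟨_, hmem⟩ := by
        simp only [f, eval_sub, eval_X_pow, eval_C, one_pow]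
        ring
      have e1 : f.derivative.eval 1 = (q : O) := by
        simp only [f, derivative_sub, derivative_X_pow, derivative_C, eval_mul, eval_pow, eval_X,
          one_pow, mul_one, sub_zero]
        simp
      obtain ⟨a, ha, -⟩ := HenselianLocalRing.is_henselian f hf 1 (by
        rw [e0]
        refine neg_mem ((O.valuation_lt_one_iff _).2 ?_)
        exact h1) (by
        rw [e1]
        exact (O.valuation_eq_one_iff _).2 hq)
      refine ⟨a, ?_⟩
      have h3 : f.eval a = 0 := ha
      simp only [f, eval_sub, eval_X_pow, eval_C] at h3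
      have h4 := congrArg (fun x : O => (x : K)) (sub_eq_zero.1 h3)
      exact h4
  refine ⟨1, multF q, fun _ => t, fun y => ?_⟩
  rw [realize_multF]
  constructor
  · intro hy x hx
    rw [hA] at hx ⊢
    have hy1 : v y ≤ 1 := (ValuationSubring.valuation_le_one_iff _ _).2 hy
    rw [mul_pow, mul_left_comm, map_mul, map_pow]
    calc v y ^ q * v (t * x ^ q) ≤ 1 * v (t * x ^ q) := mul_le_mul_left (pow_le_one₀ zero_le hy1) _
      _ < 1 := by rwa [one_mul]
  · intro h
    obtain ⟨x₀, hx₀, hx₁⟩ : ∃ x₀ : K, x₀ ≠ 0 ∧ v (t * x₀ ^ q) < 1 := by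
      have h1 : v t ≠ 1 := fun h1 => ht 1 (by rw [one_pow, map_one, h1])
      rcases lt_or_gt_of_ne h1 with h2 | h2
      · exact ⟨1, one_ne_zero, by rwa [one_pow, mul_one]⟩
      · refine ⟨t⁻¹, inv_ne_zero ht0, ?_⟩
        obtain ⟨p, rfl⟩ : ∃ p, q = p + 2 := ⟨q - 2, by omega⟩
        have e : t * t⁻¹ ^ (p + 2) = t⁻¹ ^ (p + 1) := by
          rw [pow_succ t⁻¹ (p + 1)]
          field_simp
        rw [e, map_pow, map_inv₀]
        exact pow_lt_one₀ zero_le (inv_lt_one_of_one_lt₀ h2) (by omega)
    have hind : ∀ m : ℕ, v (t * (y ^ m * x₀) ^ q) < 1 := by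
      intro m
      induction m with
      | zero => rwa [pow_zero, one_mul]
      | succ m ih =>
        have := h _ ((hA _).2 ih)
        rw [pow_succ', mul_assoc]
        exact (hA _).1 this
    have hyq : y ^ q ∈ O := by
      refine harch (t * x₀ ^ q) (mul_ne_zero ht0 (pow_ne_zero _ hx₀)) _ fun m => ?_
      have e : t * x₀ ^ q * (y ^ q) ^ m = t * (y ^ m * x₀) ^ q := by
        rw [mul_pow, ← pow_mul, ← pow_mul, mul_comm q m]
        ring
      rw [e]
      exact (ValuationSubring.valuation_le_one_iff _ _).1 (hind m).le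
    show y ∈ O
    rw [← ValuationSubring.valuation_le_one_iff] at hyq ⊢
    rw [map_pow] at hyq
    exact (pow_le_one_iff hq0).1 hyq

end Pool.Agent.H48.TP
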