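import Pool.Agent.H48.TP.Fam

/-!
# Many peaks, if the topology is not a V-topology
-/

set_option autoImplicit false

namespace Pool.Agent.H48.TP

open Polynomial

variable {K : Type} [Field K] {R : Subring K} {π : K}

theorem Tate.bound_all (h : Tate R π) {ι : Type} [Fintype ι] (f : ι → K) :
    ∃ c ∈ R, c ≠ 0 ∧ ∀ i, c * f i ∈ R := by
  classical
  choose k hk hk0 hk1 using fun i => h.frac (f i)
  refine ⟨∏ i, k i, R.prod_mem fun i _ => hk i, Finset.prod_ne_zero_iff.2 fun i _ => hk0 i,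
    fun i => ?_⟩
  rw [← Finset.mul_prod_erase Finset.univ k (Finset.mem_univ i), mul_comm (k i), mul_assoc]
  exact R.mul_mem (R.prod_mem fun i _ => hk i) (hk1 i)

/-- peaks at many directions -/
theorem Tate.peaks_bad (h : Tate R π) {N : ℕ} (t : K) (P : Fin N → R[X]) (hP : ∀ i, (P i).Monic)
    (hco : ∀ i j, i ≠ j → IsCoprime (P i) (P j))
    (hbad : ∀ i, ∃ m : ℕ, π * ((aeval t (P i))⁻¹) ^ m ∉ R) (n : ℕ) : Peaks R π n N := by
  classical
  have hπ := h.ne
  set z : Fin N → K := fun i => (aeval t (P i))⁻¹ with hz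
  have hne : ∀ i, aeval t (P i) ≠ 0 := by
    intro i h0
    obtain ⟨m, hm⟩ := hbad i
    rw [h0, inv_zero] at hm
    apply hm
    rcases Nat.eq_zero_or_pos m with rfl | hm
    · rw [pow_zero, mul_one]
      exact h.mem
    · rw [zero_pow (by omega), mul_zero]
      exact R.zero_mem
  -- a common bound
  obtain ⟨γ, hγ, hγ0, hc0, hc⟩ : ∃ γ ∈ R, γ ≠ 0 ∧ (∀ i, γ * z i ∈ R) ∧
      ∀ i, ∀ k < (P i).natDegree, γ * (t ^ k * (aeval t (P i))⁻¹) ∈ R := by
    obtain ⟨c1, hc1, hc10, hc11⟩ := h.bound_all z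
    obtain ⟨c2, hc2, hc20, hc21⟩ := h.bound_all
      (fun p : (i : Fin N) × Fin (P i).natDegree => t ^ (p.2 : ℕ) * (aeval t (P p.1))⁻¹)
    refine ⟨c1 * c2, R.mul_mem hc1 hc2, mul_ne_zero hc10 hc20, fun i => ?_, fun i k hk => ?_⟩
    · rw [mul_comm c1, mul_assoc]
      exact R.mul_mem hc2 (hc11 i)
    · rw [mul_assoc]
      exact R.mul_mem hc1 (hc21 ⟨i, ⟨k, hk⟩⟩)
  set Λ : K := (π ^ n) ^ 4 * γ ^ 4 with hΛ
  have hΛR : Λ ∈ R := R.mul_mem (R.pow_mem (R.pow_mem h.mem _) _) (R.pow_mem hγ _)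
  have hΛ0 : Λ ≠ 0 := mul_ne_zero (pow_ne_zero _ (pow_ne_zero _ hπ)) (pow_ne_zero _ hγ0)
  have hm : ∀ i, ∃ m : ℕ, (∀ k ≤ m, Λ * z i ^ k ∈ R) ∧ (π ^ n) ^ 4 * γ ^ 3 * z i ^ m ∉ R := by
    intro i
    have hex : ∃ m : ℕ, Λ * z i ^ m ∉ R := by
      by_contra hcon
      push Not at hcon
      obtain ⟨m, hm⟩ := hbad i
      exact hm (h.bounded_of hΛR hΛ0 hcon m)
    have h1 := Nat.find_spec hex
    have h2 : ∀ k < Nat.find hex, Λ * z i ^ k ∈ R := fun k hk => by
      have := Nat.find_min hex hk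
      push Not at this
      exact this
    have h3 : Nat.find hex ≠ 0 := by
      intro h0
      rw [h0, pow_zero, mul_one] at h1
      exact h1 hΛR
    obtain ⟨m, hm⟩ : ∃ m, Nat.find hex = m + 1 := ⟨Nat.find hex - 1, by omega⟩
    rw [hm] at h1 h2
    refine ⟨m, fun k hk => h2 k (by omega), fun hcon => h1 ?_⟩
    have e : Λ * z i ^ (m + 1) = ((π ^ n) ^ 4 * γ ^ 3 * z i ^ m) * (γ * z i) := by
      rw [hΛ]
      ring
    rw [e]
    exact R.mul_mem hcon (hc0 i)
  choose m hm1 hm2 using hm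
  refine ⟨fun i => (π ^ n) ^ 3 * γ ^ 3 * z i ^ m i, fun i j hij => ?_, fun i hcon => ?_⟩
  · have hco' : IsCoprime ((P i) ^ m i) ((P j) ^ m j) := (hco i j hij).pow
    obtain ⟨U, V, hUV, hU, hV⟩ := partial_fractions ((hP i).pow (m i)) ((hP j).pow (m j)) hco'
    rw [(hP j).natDegree_pow, mul_comm] at hU
    rw [(hP i).natDegree_pow, mul_comm] at hV
    have h1 : Λ * γ * (aeval t U * z j ^ m j) ∈ R :=
      expand (hP j) t (hne j) hγ (hc j) (m j) U hU (hm1 j)
    have h2 : Λ * γ * (aeval t V * z i ^ m i) ∈ R :=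
      expand (hP i) t (hne i) hγ (hc i) (m i) V hV (hm1 i)
    have h3 : z i ^ m i * z j ^ m j = aeval t U * z j ^ m j + aeval t V * z i ^ m i := by
      have h4 := congrArg (aeval t) hUV
      rw [map_add, map_mul, map_mul, map_pow, map_pow, map_one] at h4
      have h5 : (aeval t (P i)) ^ m i * z i ^ m i = 1 := by
        rw [← mul_pow, mul_inv_cancel₀ (hne i), one_pow]
      have h6 : (aeval t (P j)) ^ m j * z j ^ m j = 1 := by
        rw [← mul_pow, mul_inv_cancel₀ (hne j), one_pow]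
      calc z i ^ m i * z j ^ m j = (aeval t U * aeval t (P i) ^ m i +
            aeval t V * aeval t (P j) ^ m j) * (z i ^ m i * z j ^ m j) := by rw [h4, one_mul]
        _ = aeval t U * ((aeval t (P i)) ^ m i * z i ^ m i) * z j ^ m j +
            aeval t V * ((aeval t (P j)) ^ m j * z j ^ m j) * z i ^ m i := by ring
        _ = _ := by rw [h5, h6, mul_one, mul_one]
    refine ⟨π ^ n * (γ * (Λ * γ * (z i ^ m i * z j ^ m j))), ?_, ?_⟩
    · apply h.mul_left
      apply R.mul_mem hγ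
      rw [h3, mul_add]
      exact R.add_mem h1 h2
    · rw [hΛ]
      ring
  · apply hm2 i
    apply h.of_pow (n := 2) (by norm_num)
    have e : ((π ^ n) ^ 4 * γ ^ 3 * z i ^ m i) ^ 2 =
        π ^ n * (π ^ n * ((π ^ n) ^ 3 * γ ^ 3 * z i ^ m i) ^ 2) := by ring
    rw [e]
    exact h.mul_left hcon

/-- quotients by a good polynomial are power bounded -/
theorem Tate.good (h : Tate R π) {P : R[X]} (hP : P.Monic) (t : K) (hz : aeval t P ≠ 0)
    (hg : ∀ m : ℕ, π * ((aeval t P)⁻¹) ^ m ∈ R) (U : R[X]) (hU : U.natDegree ≤ P.natDegree) :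
    aeval t U * (aeval t P)⁻¹ ∈ h.ring := by
  obtain ⟨γ, hγ, hγ0, hc⟩ := h.bound_all (fun k : Fin P.natDegree => t ^ (k : ℕ) * (aeval t P)⁻¹)
  intro m
  refine h.bounded_of (R.mul_mem h.mem hγ) (mul_ne_zero h.ne hγ0) (fun m => ?_) m
  rw [mul_pow, ← map_pow]
  refine expand hP t hz hγ (fun k hk => hc ⟨k, hk⟩) m _ ?_ (fun l _ => hg l)
  refine le_trans natDegree_pow_le ?_
  rw [mul_comm]
  exact Nat.mul_le_mul_right _ hU

/-- peaks at many radii -/
theorem Tate.peaks_good (h : Tate R π) {N : ℕ} (x : K) (s : Fin N → ℕ)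
    (h1 : ∀ i : Fin N, x / π ^ (i : ℕ) ∉ R) (h2 : ∀ i : Fin N, (x / π ^ (i : ℕ))⁻¹ ∉ R)
    (hg : ∀ (i : Fin N) (m : ℕ), π * ((aeval (x / π ^ (i : ℕ)) (Pp R (s i)))⁻¹) ^ m ∈ R)
    {n : ℕ} (hn : 1 ≤ n) : Peaks R π n N := by
  classical
  have hπ := h.ne
  set t : Fin N → K := fun i => x / π ^ (i : ℕ) with ht
  have hPm : ∀ i, (Pp R (s i)).Monic := fun i => (Qp_monic (A := R) (s i)).2.1
  have hQm : ∀ i, (Qp R (s i)).Monic := fun i => (Qp_monic (A := R) (s i)).1
  have hdeg : ∀ i, (Pp R (s i)).natDegree = (Qp R (s i)).natDegree + 1 :=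
    fun i => (Qp_monic (A := R) (s i)).2.2
  -- a root of a monic polynomial is in `R`
  have hroot : ∀ i, ∀ r ∈ R, aeval (t i) (Pp R (s i)) ≠ r := by
    intro i r hr h0
    apply h1 i
    apply h.ic
    refine ⟨Pp R (s i) - C ⟨r, hr⟩, ?_, ?_⟩
    · apply (hPm i).sub_of_left
      refine lt_of_le_of_lt degree_C_le ?_
      rw [degree_eq_natDegree (hPm i).ne_zero, hdeg]
      exact_mod_cast Nat.succ_pos _
    · rw [eval₂_sub, eval₂_C]
      have : eval₂ (algebraMap R K) (t i) (Pp R (s i)) = r := h0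
      show eval₂ (algebraMap R K) (t i) (Pp R (s i)) - r = 0
      rw [this, sub_self]
  have hne : ∀ i, aeval (t i) (Pp R (s i)) ≠ 0 := fun i => hroot i 0 R.zero_mem
  have ht0 : ∀ i, t i ≠ 0 := by
    intro i h0
    apply h1 i
    have : x / π ^ (i : ℕ) = 0 := h0
    rw [this]
    exact R.zero_mem
  set z : Fin N → K := fun i => (aeval (t i) (Pp R (s i)))⁻¹ with hz
  set q : Fin N → K := fun i => aeval (t i) (Qp R (s i)) with hq
  have hPq : ∀ i, aeval (t i) (Pp R (s i)) = t i * q i + 1 := by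
    intro i
    rw [Pp, map_add, map_mul, aeval_X, map_one]
  have hzq : ∀ i, 1 - z i = t i * q i * z i := by
    intro i
    have h3 : (t i * q i + 1) * z i = 1 := by
      rw [← hPq i]
      exact mul_inv_cancel₀ (hne i)
    linear_combination -h3
  have hz' : ∀ i, z i ∈ h.ring := fun i m => hg i m
  have hqz : ∀ i, q i * z i ∈ h.ring := fun i =>
    h.good (hPm i) (t i) (hne i) (hg i) _ (by rw [hdeg]; omega)
  have htz : ∀ i, t i * z i ∈ h.ring := fun i => by
    have := h.good (hPm i) (t i) (hne i) (hg i) X (by rw [hdeg]; exact le_trans natDegree_X_le (by omega))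
    rwa [aeval_X] at this
  have htqz : ∀ i, t i * q i * z i ∈ h.ring := fun i => by
    rw [← hzq i]
    exact h.ring.sub_mem h.ring.one_mem (hz' i)
  set w : Fin N → K := fun i => z i * (1 - z i) with hw
  refine ⟨fun i => w i ^ (3 * n + 2) / π ^ n, ?_, fun i hcon => ?_⟩
  · -- symmetric in `i`, `j`
    have key : ∀ i j : Fin N, i < j → ∃ r ∈ R,
        w i ^ (3 * n + 2) / π ^ n * (w j ^ (3 * n + 2) / π ^ n) = π ^ n * r := by
      intro i j hij
      obtain ⟨k, hk⟩ : ∃ k : ℕ, (j : ℕ) = i + (k + 1) := ⟨(j : ℕ) - i - 1, by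
        have : (i : ℕ) < j := hij
        omega⟩
      have htij : t i = π ^ (k + 1) * t j := by
        simp only [ht]
        rw [hk]
        field_simp
        ring
      have hww : w i * w j = π ^ (k + 1) * (z i * (q i * z i) * (t j * z j) * (t j * q j * z j)) := by
        simp only [hw]
        rw [hzq i, hzq j]
        conv_lhs => rw [htij]
        ring
      have ho : z i * (q i * z i) * (t j * z j) * (t j * q j * z j) ∈ h.ring :=
        h.ring.mul_mem (h.ring.mul_mem (h.ring.mul_mem (hz' i) (hqz i)) (htz j)) (htqz j)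
      generalize z i * (q i * z i) * (t j * z j) * (t j * q j * z j) = o at hww ho
      refine ⟨π ^ (k * (3 * n + 2) + 1) * (π * o ^ (3 * n + 2)), h.mul_left (ho _), ?_⟩
      have e : w i ^ (3 * n + 2) / π ^ n * (w j ^ (3 * n + 2) / π ^ n) =
          (w i * w j) ^ (3 * n + 2) / (π ^ n * π ^ n) := by
        rw [mul_pow (w i) (w j), div_mul_div_comm]
      rw [e, hww]
      rw [div_eq_iff (mul_ne_zero (pow_ne_zero _ hπ) (pow_ne_zero _ hπ))]
      ring
    intro i j hij
    rcases lt_or_gt_of_ne hij with h3 | h3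
    · exact key i j h3
    · obtain ⟨r, hr, e⟩ := key j i h3
      exact ⟨r, hr, by rw [← e]; ring⟩
  · have e1 : w i ^ ((3 * n + 2) * 2) = π ^ n * (π ^ n * (w i ^ (3 * n + 2) / π ^ n) ^ 2) := by
      field_simp
      ring
    have hwR : w i ∈ R := by
      apply h.of_pow (n := (3 * n + 2) * 2) (by omega)
      rw [e1]
      exact h.mul_left hcon
    have hyR : z i ∈ R := by
      apply h.ic
      refine ⟨Polynomial.X ^ 2 + (-Polynomial.X + Polynomial.C ⟨w i, hwR⟩), ?_, ?_⟩
      · apply Polynomial.monic_X_pow_add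
        refine lt_of_le_of_lt (Polynomial.degree_add_le _ _) (max_lt ?_ ?_)
        · rw [Polynomial.degree_neg]
          exact lt_of_le_of_lt Polynomial.degree_X_le (by norm_num)
        · exact lt_of_le_of_lt Polynomial.degree_C_le (by norm_num)
      · simp only [Polynomial.eval₂_add, Polynomial.eval₂_neg, Polynomial.eval₂_X_pow,
          Polynomial.eval₂_X, Polynomial.eval₂_C]
        show z i ^ 2 + (-z i + w i) = 0
        simp only [hw]
        ring
    have h4 := h.conn (z i) hyR ((3 * n + 2) * 2) (by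
      show π⁻¹ * (w i) ^ ((3 * n + 2) * 2) ∈ R
      rw [e1]
      have : π⁻¹ * (π ^ n * (π ^ n * (w i ^ (3 * n + 2) / π ^ n) ^ 2)) =
          π ^ (n - 1) * (π ^ n * (w i ^ (3 * n + 2) / π ^ n) ^ 2) := by
        obtain ⟨n', rfl⟩ : ∃ n', n = n' + 1 := ⟨n - 1, by omega⟩
        rw [Nat.add_sub_cancel, ← mul_assoc, pow_succ' π n', inv_mul_cancel_left₀ hπ]
      rw [this]
      exact h.mul_left hcon)
    rcases h4 with ⟨h5, h6⟩ | ⟨h5, h6⟩
    · -- `P (t i)` is in `R`
      have h7 : (z i)⁻¹ = aeval (t i) (Pp R (s i)) := inv_inv _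
      exact hroot i _ h6 h7.symm
    · -- `1 / t i` is integral over `R`
      apply h2 i
      apply h.ic
      set v := (t i)⁻¹ with hv
      set ρ : K := z i * (1 - z i)⁻¹ with hρ
      have hρR : ρ ∈ R := R.mul_mem hyR h6
      have h7 : ρ * (t i * q i) = 1 := by
        rw [hρ]
        have : z i * (1 - z i)⁻¹ * (t i * q i) = (1 - z i)⁻¹ * (t i * q i * z i) := by ring
        rw [this, ← hzq i]
        exact inv_mul_cancel₀ h5
      set d := (Qp R (s i)).natDegree with hd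
      have h8 : q i = ∑ k ∈ Finset.range (d + 1), ((Qp R (s i)).coeff k : K) * (t i) ^ k := by
        rw [hq]
        show aeval (t i) (Qp R (s i)) = _
        rw [aeval_eq_sum_range]
        rfl
      refine ⟨Polynomial.X ^ (d + 1) + (-(C (⟨ρ, hρR⟩ : R) *
        ∑ k ∈ Finset.range (d + 1), C ((Qp R (s i)).coeff k) * X ^ (d - k))), ?_, ?_⟩
      · apply Polynomial.monic_X_pow_add
        rw [degree_neg, ← smul_eq_C_mul]
        refine lt_of_le_of_lt (degree_smul_le _ _) ?_
        refine lt_of_le_of_lt (degree_sum_le _ _) ?_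
        rw [Finset.sup_lt_iff (by exact WithBot.bot_lt_coe _)]
        intro k _
        refine lt_of_le_of_lt (degree_C_mul_X_pow_le _ _) ?_
        have : d - k < d + 1 := by omega
        exact_mod_cast this
      · simp only [eval₂_add, eval₂_neg, eval₂_mul, eval₂_X_pow, eval₂_C, eval₂_finsetSum]
        have h9 : ∀ k ∈ Finset.range (d + 1), (algebraMap R K) ((Qp R (s i)).coeff k) * v ^ (d - k) =
            ((Qp R (s i)).coeff k : K) * (t i) ^ k * v ^ d := by
          intro k hk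
          have hk' : k ≤ d := Nat.lt_succ_iff.1 (Finset.mem_range.1 hk)
          have : v ^ d = v ^ k * v ^ (d - k) := by
            rw [← pow_add]
            congr 1
            omega
          rw [this, hv, mul_assoc, ← mul_assoc (t i ^ k), ← mul_pow, mul_inv_cancel₀ (ht0 i),
            one_pow, one_mul]
          rfl
        rw [Finset.sum_congr rfl h9, ← Finset.sum_mul, ← h8]
        show v ^ (d + 1) + -(ρ * (q i * v ^ d)) = 0
        have h10 : ρ * q i = v := by
          rw [hv]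
          apply eq_inv_of_mul_eq_one_left
          rw [← h7]
          ring
        rw [← mul_assoc, h10]
        ring

/-- If there are not `N` peaks then the topology of `R` is a V-topology. -/
theorem Tate.dichotomy (h : Tate R π) {N n : ℕ} (hn : 1 ≤ n) (hno : ¬ Peaks R π n N) (x : K) :
    x ∈ R ∨ π ^ N * x⁻¹ ∈ R := by
  by_contra hcon
  push Not at hcon
  obtain ⟨hx1, hx2⟩ := hcon
  have hπ := h.ne
  have h1 : ∀ i : Fin N, x / π ^ (i : ℕ) ∉ R := by
    intro i hi
    apply hx1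
    have : x = π ^ (i : ℕ) * (x / π ^ (i : ℕ)) := by field_simp
    rw [this]
    exact h.mul_left hi
  have h2 : ∀ i : Fin N, (x / π ^ (i : ℕ))⁻¹ ∉ R := by
    intro i hi
    apply hx2
    refine h.mono (le_of_lt i.2) ?_
    have : π ^ (i : ℕ) * x⁻¹ = (x / π ^ (i : ℕ))⁻¹ := by
      rw [inv_div, div_eq_mul_inv]
    rw [this]
    exact hi
  by_cases hb : ∃ i : Fin N, ∀ j : Fin N, ∃ m : ℕ,
      π * ((aeval (x / π ^ (i : ℕ)) (Pp R (j : ℕ)))⁻¹) ^ m ∉ R
  · obtain ⟨i, hi⟩ := hb
    refine hno (h.peaks_bad (x / π ^ (i : ℕ)) (fun j => Pp R (j : ℕ))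
      (fun j => (Qp_monic (A := R) _).2.1) (fun i j hij => Pp_coprime ?_) hi n)
    exact fun h => hij (Fin.ext h)
  · push Not at hb
    choose s hs using hb
    exact hno (h.peaks_good x (fun i => (s i : ℕ)) h1 h2 hs hn)

end Pool.Agent.H48.TP
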