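import Pool.Agent.H48.TP.Peaks

/-!
# A family of pairwise coprime polynomials, and peaks given by them
-/

set_option autoImplicit false

namespace Pool.Agent.H48.TP

open Polynomial

section fam

variable {A : Type} [CommRing A]

/-- the products of the first polynomials of the family -/
noncomputable def Qp (A : Type) [CommRing A] : ℕ → A[X]
  | 0 => 1
  | n + 1 => Qp A n * (X * Qp A n + 1)

/-- the family: `P n = X P 0 ... P (n - 1) + 1` -/
noncomputable def Pp (A : Type) [CommRing A] (n : ℕ) : A[X] := X * Qp A n + 1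

theorem Qp_monic [Nontrivial A] (n : ℕ) : (Qp A n).Monic ∧ (Pp A n).Monic ∧
    (Pp A n).natDegree = (Qp A n).natDegree + 1 := by
  have key : ∀ Q : A[X], Q.Monic → (X * Q + 1).Monic ∧ (X * Q + 1).natDegree = Q.natDegree + 1 := by
    intro Q hQ
    have h1 : (X * Q).Monic := monic_X.mul hQ
    have h2 : (X * Q).natDegree = Q.natDegree + 1 := by
      rw [Polynomial.Monic.natDegree_mul monic_X hQ, natDegree_X, add_comm]
    have h3 : (1 : A[X]).degree < (X * Q).degree := by
      rw [degree_one, degree_eq_natDegree h1.ne_zero, h2]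
      exact_mod_cast Nat.succ_pos _
    refine ⟨h1.add_of_left h3, ?_⟩
    rw [natDegree_add_eq_left_of_degree_lt h3, h2]
  have hQ : (Qp A n).Monic := by
    induction n with
    | zero => exact monic_one
    | succ n ih =>
      rw [Qp]
      exact ih.mul (key _ ih).1
  exact ⟨hQ, key _ hQ⟩

theorem Pp_dvd {i j : ℕ} (hij : i < j) : Pp A i ∣ Qp A j := by
  induction j with
  | zero => omega
  | succ j ih =>
    rw [Qp]
    rcases Nat.lt_succ_iff_lt_or_eq.1 hij with h | h
    · exact (ih h).mul_right _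
    · subst h
      exact Dvd.intro_left _ rfl

theorem Pp_coprime {i j : ℕ} (hij : i ≠ j) : IsCoprime (Pp A i) (Pp A j) := by
  have key : ∀ i j : ℕ, i < j → IsCoprime (Pp A i) (Pp A j) := by
    intro i j hij
    obtain ⟨c, hc⟩ := Pp_dvd (A := A) hij
    refine ⟨-(X * c), 1, ?_⟩
    rw [Pp, Pp] at *
    rw [show X * Qp A j = X * ((X * Qp A i + 1) * c) by rw [← hc]]
    ring
  rcases lt_or_gt_of_ne hij with h | h
  · exact key _ _ h
  · exact (key _ _ h).symm

/-- partial fractions -/
theorem partial_fractions [Nontrivial A] {P Q : A[X]} (hP : P.Monic) (hQ : Q.Monic) (h : IsCoprime P Q) :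
    ∃ U V : A[X], U * P + V * Q = 1 ∧ U.natDegree ≤ Q.natDegree ∧ V.natDegree ≤ P.natDegree := by
  obtain ⟨a, b, hab⟩ := h
  refine ⟨a + (b /ₘ P) * Q, b %ₘ P, ?_, ?_, ?_⟩
  · have h1 := modByMonic_add_div b P
    calc (a + b /ₘ P * Q) * P + b %ₘ P * Q = a * P + (b %ₘ P + P * (b /ₘ P)) * Q := by ring
      _ = 1 := by rw [h1, hab]
  · have h1 := modByMonic_add_div b P
    have h2 : (a + b /ₘ P * Q) * P = 1 - b %ₘ P * Q := by
      rw [eq_sub_iff_add_eq]
      calc (a + b /ₘ P * Q) * P + b %ₘ P * Q = a * P + (b %ₘ P + P * (b /ₘ P)) * Q := by ring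
        _ = 1 := by rw [h1, hab]
    by_cases h0 : a + b /ₘ P * Q = 0
    · rw [h0, natDegree_zero]
      exact Nat.zero_le _
    have h3 : ((a + b /ₘ P * Q) * P).natDegree = (a + b /ₘ P * Q).natDegree + P.natDegree := by
      rw [mul_comm, Polynomial.Monic.natDegree_mul' hP h0, add_comm]
    have h4 : (1 - b %ₘ P * Q).natDegree ≤ (b %ₘ P).natDegree + Q.natDegree := by
      refine le_trans (natDegree_sub_le _ _) (max_le ?_ ?_)
      · rw [natDegree_one]
        exact Nat.zero_le _
      · exact natDegree_mul_le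
    rw [h2] at h3
    have h5 : (b %ₘ P).natDegree ≤ P.natDegree := natDegree_modByMonic_le _ hP
    omega
  · exact natDegree_modByMonic_le _ hP

end fam

variable {K : Type} [Field K] {R : Subring K} {π : K}

/-- quotients of polynomials by powers of `P` are bounded together with the powers of `1 / P` -/
theorem expand {P : R[X]} (hP : P.Monic) (t : K) (hz : aeval t P ≠ 0)
    {γ Λ : K} (hγ : γ ∈ R) (hc : ∀ k < P.natDegree, γ * (t ^ k * (aeval t P)⁻¹) ∈ R) :
    ∀ (q : ℕ) (U : R[X]), U.natDegree ≤ P.natDegree * q →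
      (∀ l ≤ q, Λ * ((aeval t P)⁻¹) ^ l ∈ R) →
      Λ * γ * (aeval t U * ((aeval t P)⁻¹) ^ q) ∈ R := by
  intro q
  induction q with
  | zero =>
    intro U hU hq
    have h1 : U.natDegree = 0 := by simpa using hU
    have h2 := hq 0 le_rfl
    rw [pow_zero, mul_one] at h2
    rw [eq_C_of_natDegree_eq_zero h1, aeval_C, pow_zero, mul_one]
    exact R.mul_mem (R.mul_mem h2 hγ) (U.coeff 0).2
  | succ q ih =>
    intro U hU hq
    have h1 := modByMonic_add_div U P
    have h2 : (U /ₘ P).natDegree ≤ P.natDegree * q := by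
      rw [natDegree_divByMonic _ hP]
      have : P.natDegree * (q + 1) = P.natDegree * q + P.natDegree := by ring
      omega
    have h3 := ih (U /ₘ P) h2 (fun l hl => hq l (by omega))
    have e : aeval t U = aeval t (U %ₘ P) + aeval t P * aeval t (U /ₘ P) := by
      rw [← map_mul, ← map_add, h1]
    have e2 : Λ * γ * (aeval t U * ((aeval t P)⁻¹) ^ (q + 1)) =
        aeval t (U %ₘ P) * (aeval t P)⁻¹ * (γ * (Λ * ((aeval t P)⁻¹) ^ q)) +
        Λ * γ * (aeval t (U /ₘ P) * ((aeval t P)⁻¹) ^ q) := by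
      have hPz : aeval t P * (aeval t P)⁻¹ = 1 := mul_inv_cancel₀ hz
      rw [e]
      linear_combination (Λ * γ * aeval t (U /ₘ P) * ((aeval t P)⁻¹) ^ q) * hPz
    rw [e2]
    refine R.add_mem ?_ h3
    have h4 : aeval t (U %ₘ P) = ∑ k ∈ Finset.range P.natDegree, ((U %ₘ P).coeff k : K) * t ^ k := by
      by_cases hd : P.natDegree = 0
      · have : P = 1 := by
          rw [eq_C_of_natDegree_eq_zero hd]
          have := hP.coeff_natDegree
          rw [hd] at this
          rw [this, map_one]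
        rw [this]
        simp
      · have h5 : (U %ₘ P).natDegree < P.natDegree := natDegree_modByMonic_lt _ hP (fun h => hd (by
          rw [h, natDegree_one]))
        rw [aeval_eq_sum_range' h5]
        rfl
    rw [h4, Finset.sum_mul, Finset.sum_mul]
    refine R.sum_mem fun k hk => ?_
    have e3 : ((U %ₘ P).coeff k : K) * t ^ k * (aeval t P)⁻¹ * (γ * (Λ * ((aeval t P)⁻¹) ^ q)) =
        ((U %ₘ P).coeff k : K) * ((γ * (t ^ k * (aeval t P)⁻¹)) *
          (Λ * ((aeval t P)⁻¹) ^ q)) := by ring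
    rw [e3]
    exact R.mul_mem (Subtype.property _) (R.mul_mem (hc k (Finset.mem_range.1 hk)) (hq q (by omega)))

end Pool.Agent.H48.TP
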