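import Pool.Agent.H48.TP.Pol

/-!
# The valuation ring of a ring with a definable bounded neighbourhood of zero
-/

set_option autoImplicit false

namespace Pool.Agent.H48.TP

open Polynomial FirstOrder FirstOrder.Language FirstOrder.Ring

variable {K : Type} [Field K] {R : Subring K} {π : K}

theorem conn_of_local [IsLocalRing R] (y : K) (hy : y ∈ R) :
    (y ≠ 0 ∧ y⁻¹ ∈ R) ∨ (1 - y ≠ 0 ∧ (1 - y)⁻¹ ∈ R) := by
  have h4 := IsLocalRing.isUnit_or_isUnit_one_sub_self (⟨y, hy⟩ : R)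
  rcases h4 with h4 | h4
  · exact Or.inl (isUnit_iff.1 h4)
  · exact Or.inr (isUnit_iff.1 h4)

theorem conn_of_pair (I : Ideal R) [HenselianRing R I] (y : R) (hy : y * (1 - y) ∈ I.radical) :
    IsUnit y ∨ IsUnit (1 - y) := by
  have hJ := jac_radical I
  have := henselian_radical I
  have hf : (X ^ 2 + -X : R[X]).Monic := by
    apply monic_X_pow_add
    rw [degree_neg]
    exact lt_of_le_of_lt degree_X_le (by norm_num)
  have h1 : (X ^ 2 + -X : R[X]).eval y ∈ I.radical := by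
    have : (X ^ 2 + -X : R[X]).eval y = -(y * (1 - y)) := by
      simp only [eval_add, eval_neg, eval_X_pow, eval_X]
      ring
    rw [this]
    exact Ideal.neg_mem_iff _ |>.2 hy
  have h2 : IsUnit ((X ^ 2 + -X : R[X]).derivative.eval y) := by
    have e : (X ^ 2 + -X : R[X]).derivative.eval y = 2 * y - 1 := by
      simp only [derivative_add, derivative_X_pow, derivative_neg, derivative_X, eval_add,
        eval_mul, eval_neg, eval_one, eval_C, eval_pow, eval_X]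
      push_cast
      ring
    rw [e]
    have h3 : IsUnit ((2 * y - 1) * (2 * y - 1)) := by
      have e2 : (2 * y - 1) * (2 * y - 1) = 1 + -4 * (y * (1 - y)) := by ring
      rw [e2]
      exact isUnit_add hJ isUnit_one (Ideal.mul_mem_left _ _ hy)
    exact isUnit_of_mul_isUnit_left h3
  obtain ⟨e, he1, he2⟩ := HenselianRing.is_henselian _ hf y h1 (h2.map (Ideal.Quotient.mk I.radical))
  have h3 : e * (e - 1) = 0 := by
    have h4 : (X ^ 2 + -X : R[X]).eval e = 0 := he1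
    simp only [eval_add, eval_neg, eval_X_pow, eval_X] at h4
    rw [← h4]
    ring
  rcases mul_eq_zero.1 h3 with h4 | h4
  · right
    have : 1 - y = 1 + (e - y) := by
      rw [h4]
      ring
    rw [this]
    exact isUnit_add hJ isUnit_one he2
  · left
    have : y = 1 + -(e - y) := by
      have : e = 1 := sub_eq_zero.1 h4
      rw [this]
      ring
    rw [this]
    exact isUnit_add hJ isUnit_one ((Ideal.neg_mem_iff _).2 he2)

/-- `ρ` is not a unit and if a power of `y (1 - y)` is divisible by `ρ` then `y` or `1 - y` is a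
unit -/
structure Conn (R : Subring K) (ρ : K) : Prop where
  mem : ρ ∈ R
  ne : ρ ≠ 0
  inv : ρ⁻¹ ∉ R
  conn : ∀ y ∈ R, ∀ k : ℕ, ρ⁻¹ * (y * (1 - y)) ^ k ∈ R →
    (y ≠ 0 ∧ y⁻¹ ∈ R) ∨ (1 - y ≠ 0 ∧ (1 - y)⁻¹ ∈ R)

theorem Conn.mul {ρ : K} (h : Conn R ρ) {r : K} (hr : r ∈ R) (hr0 : r ≠ 0) : Conn R (ρ * r) where
  mem := R.mul_mem h.mem hr
  ne := mul_ne_zero h.ne hr0
  inv := by
    intro hcon
    apply h.inv
    have e : ρ⁻¹ = r * (ρ * r)⁻¹ := by
      have := h.ne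
      field_simp
    rw [e]
    exact R.mul_mem hr hcon
  conn := by
    intro y hy k hk
    apply h.conn y hy k
    have e : ρ⁻¹ * (y * (1 - y)) ^ k = r * ((ρ * r)⁻¹ * (y * (1 - y)) ^ k) := by
      have := h.ne
      field_simp
    rw [e]
    exact R.mul_mem hr hk

theorem conn_local [IsLocalRing R] (hfrac : ∀ x : K, ∃ c ∈ R, c ≠ 0 ∧ c * x ∈ R) (hR : R ≠ ⊤) :
    ∃ ρ, Conn R ρ := by
  obtain ⟨x, hx⟩ : ∃ x : K, x ∉ R := by
    by_contra hcon
    push Not at hcon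
    exact hR (eq_top_iff.2 fun x _ => hcon x)
  obtain ⟨c, hc, hc0, hcx⟩ := hfrac x
  refine ⟨c, hc, hc0, fun hcon => hx ?_, fun y hy _ _ => conn_of_local y hy⟩
  rw [← inv_mul_cancel_left₀ hc0 x]
  exact R.mul_mem hcon hcx

theorem conn_small (I : Ideal R) [hH : HenselianRing R I] {ρ : K} (hρ : Small I ρ) (hρ0 : ρ ≠ 0) :
    Conn R ρ := by
  obtain ⟨r, hr, rfl⟩ := hρ
  refine ⟨r.2, hρ0, ?_, ?_⟩
  · intro hcon
    have h1 : IsUnit r := isUnit_iff.2 ⟨hρ0, hcon⟩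
    have h2 : (1 : R) ∈ Ideal.jacobson (⊥ : Ideal R) := by
      obtain ⟨u, hu⟩ := h1
      have e : (1 : R) = r * ((u⁻¹ : Rˣ) : R) := by
        rw [← hu, Units.mul_inv]
      rw [e]
      exact Ideal.mul_mem_right _ _ (hH.jac hr)
    have h3 : IsUnit ((-1 : R) + 1) := isUnit_add le_rfl isUnit_one.neg h2
    rw [neg_add_cancel] at h3
    exact not_isUnit_zero h3
  · intro y hy k hk
    have h1 : (⟨y, hy⟩ : R) * (1 - ⟨y, hy⟩) ∈ I.radical := by
      refine ⟨k, ?_⟩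
      have e : ((⟨y, hy⟩ : R) * (1 - ⟨y, hy⟩)) ^ k = r * ⟨_, hk⟩ := by
        apply Subtype.ext
        show (y * (1 - y)) ^ k = (r : K) * ((r : K)⁻¹ * (y * (1 - y)) ^ k)
        rw [mul_inv_cancel_left₀ hρ0]
      rw [e]
      exact Ideal.mul_mem_right _ _ hr
    rcases conn_of_pair I _ h1 with h2 | h2
    · exact Or.inl (isUnit_iff.1 h2)
    · exact Or.inr (isUnit_iff.1 h2)

theorem exists_small (I : Ideal R) (hI : I ≠ ⊥) : ∃ ρ : K, Small I ρ ∧ ρ ≠ 0 := by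
  obtain ⟨⟨ρ, hρR⟩, hρ, hρ0⟩ := Submodule.exists_mem_ne_zero_of_ne_bot hI
  exact ⟨ρ, ⟨⟨ρ, hρR⟩, hρ, rfl⟩, fun h => hρ0 (Subtype.ext h)⟩

theorem conn_pair (I : Ideal R) [hH : HenselianRing R I] (hI : I ≠ ⊥) : ∃ ρ, Conn R ρ := by
  obtain ⟨ρ, h1, h2⟩ := exists_small I hI
  exact ⟨ρ, conn_small I h1 h2⟩

/-- `x` is almost integral over `R` -/
def AlmInt (R : Subring K) (x : K) : Prop := ∃ c ∈ R, c ≠ 0 ∧ ∀ m : ℕ, c * x ^ m ∈ R

theorem AlmInt.pow {x : K} (hx : AlmInt R x) (k : ℕ) : AlmInt R (x ^ k) := by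
  obtain ⟨c, hc, hc0, h⟩ := hx
  refine ⟨c, hc, hc0, fun m => ?_⟩
  rw [← pow_mul]
  exact h _

theorem tate_of (hic : ∀ x : K, IsIntegral R x → x ∈ R)
    (hfrac : ∀ x : K, ∃ c ∈ R, c ≠ 0 ∧ c * x ∈ R) (h : Conn R π) {κ r : K} (hr : r ∈ R)
    (e : π = κ * r) (hbd : ∀ x : K, AlmInt R x → κ * x ∈ R) : Tate R π where
  ic := hic
  mem := h.mem
  ne := h.ne
  inv := h.inv
  frac := hfrac
  bdd := by
    intro x hx m
    rw [e, mul_right_comm]
    exact R.mul_mem (hbd _ (AlmInt.pow hx m)) hr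
  conn := h.conn

theorem Tate.small_of_val (h : Tate R π) {M : ℕ} (hV : ∀ x : K, x ∈ R ∨ π ^ M * x⁻¹ ∈ R)
    (I : Ideal R) {c : K} (hc : Small I c) (hc0 : c ≠ 0) (x : K)
    (hx : (h.valRing hV).valuation x < 1) : Small I.radical x := by
  by_cases hx0 : x = 0
  · subst hx0
    exact ⟨0, Ideal.zero_mem _, rfl⟩
  have h1 : x⁻¹ ∉ h.valRing hV := by
    intro h1
    rw [← ValuationSubring.valuation_le_one_iff, map_inv₀] at h1
    have h3 : (h.valRing hV).valuation x ≠ 0 := (Valuation.ne_zero_iff _).2 hx0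
    exact absurd hx (not_lt.2 ((inv_le_one₀ (zero_lt_iff.2 h3)).1 h1))
  obtain ⟨c', hc', rfl⟩ := hc
  have hπ := h.ne
  have hex : ∃ m : ℕ, π ^ M * c' * x⁻¹ ^ m ∉ R := by
    by_contra hcon
    push Not at hcon
    exact h1 fun m => h.bounded_of (R.mul_mem (R.pow_mem h.mem M) c'.2)
      (mul_ne_zero (pow_ne_zero _ hπ) hc0) hcon m
  obtain ⟨m, hm⟩ := hex
  have h2 := (hV _).resolve_left hm
  have e : π ^ M * (π ^ M * c' * x⁻¹ ^ m)⁻¹ = (c' : K)⁻¹ * x ^ m := by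
    rw [inv_pow]
    field_simp
  rw [e] at h2
  have hm0 : 1 ≤ m := by
    by_contra hcon
    have : m = 0 := by omega
    subst this
    apply hm
    rw [pow_zero, mul_one]
    exact R.mul_mem (R.pow_mem h.mem M) c'.2
  have e3 : x ^ m = c' * ((c' : K)⁻¹ * x ^ m) := (mul_inv_cancel_left₀ hc0 _).symm
  have h3 : x ^ m ∈ R := by
    rw [e3]
    exact R.mul_mem c'.2 h2
  have hxR : x ∈ R := h.of_pow hm0 h3
  refine ⟨⟨x, hxR⟩, ⟨m, ?_⟩, rfl⟩
  have : (⟨x, hxR⟩ : R) ^ m = c' * ⟨_, h2⟩ := Subtype.ext e3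
  rw [this]
  exact Ideal.mul_mem_right _ _ hc'

/-- a nontrivial valuation ring of rank one -/
def RankOne (O : ValuationSubring K) : Prop :=
  O ≠ ⊤ ∧ ∀ O' : ValuationSubring K, O ≤ O' → O' = O ∨ O' = ⊤

theorem main [CompatibleRing K] (hK : NIPField K) (hic : ∀ x : K, IsIntegral R x → x ∈ R)
    (hfrac : ∀ x : K, ∃ c ∈ R, c ≠ 0 ∧ c * x ∈ R)
    (hbd : ∃ κ ∈ R, κ ≠ 0 ∧ ∀ x : K, AlmInt R x → κ * x ∈ R) (hconn : ∃ ρ, Conn R ρ)
    (hB : Bdd R) :
    ∃ O : ValuationSubring K, (∀ x, x ∈ O ↔ AlmInt R x) ∧ RankOne O ∧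
      ∀ I : Ideal R, I ≠ ⊥ → HenselianRing R I → HenselianLocalRing O := by
  classical
  obtain ⟨κ, hκ, hκ0, hbd⟩ := hbd
  obtain ⟨ρ, hρ⟩ := hconn
  obtain ⟨B, hB, ⟨a, ha0, ha⟩, b, hb0, hb⟩ := hB
  obtain ⟨c, hc, hc0, hcab⟩ := common hfrac {a⁻¹, b⁻¹}
  have hca := hcab a⁻¹ (by simp)
  have hcb := hcab b⁻¹ (by simp)
  -- the element `π`
  have h1 : Conn R (ρ * (κ * c)) := hρ.mul (R.mul_mem hκ hc) (mul_ne_zero hκ0 hc0)
  have h : Tate R (ρ * (κ * c)) := tate_of hic hfrac h1 (κ := κ) (r := ρ * c)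
    (R.mul_mem hρ.mem hc) (by ring) hbd
  have hn : Nbhd R (ρ * (κ * c)) 1 B := by
    refine ⟨fun x hx => ?_, fun x hx => ?_⟩
    · have e : (ρ * (κ * c)) ^ 1 * x = a * ((ρ * κ) * ((c * a⁻¹) * x)) := by
        field_simp
      rw [e]
      exact ha _ (R.mul_mem (R.mul_mem hρ.mem hκ) (R.mul_mem hca hx))
    · have e : (ρ * (κ * c)) ^ 1 * x = (ρ * κ) * ((c * b⁻¹) * (b * x)) := by
        field_simp
      rw [e]
      exact R.mul_mem (R.mul_mem hρ.mem hκ) (R.mul_mem hcb (hb x hx))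
  obtain ⟨M, -, hV⟩ := vtopology hK B hB h hn
  obtain ⟨s1, s2, s3⟩ := h.valRing_spec hV
  refine ⟨h.valRing hV, fun x => ?_, ⟨s2, s3⟩, fun I hI hH => ?_⟩
  · rw [s1]
    refine ⟨fun hx => ⟨_, h.mem, h.ne, hx⟩, fun hx => ?_⟩
    exact h.bdd x hx
  · obtain ⟨c', hc', hc'0⟩ := exists_small I hI
    have := henselian_radical I
    exact henselian_of I.radical _ (fun x hx => h.le_ring hx) (h.small_of_val hV I hc' hc'0)

end Pool.Agent.H48.TP
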