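import Pool.Agent.H48.TP.Cl

/-!
# Henselian pairs whose topology has a definable bounded neighbourhood of zero
-/

set_option autoImplicit false

namespace Pool.Agent.H48.TP

open Polynomial FirstOrder FirstOrder.Language FirstOrder.Ring
open scoped nonZeroDivisors

variable {K : Type} [Field K] {R : Subring K} {π : K}

theorem almInt_iff {x : K} : AlmInt R x ↔ IsAlmostIntegral R x := by
  constructor
  · rintro ⟨c, hc, hc0, h⟩
    refine ⟨⟨c, hc⟩, mem_nonZeroDivisors_of_ne_zero fun h0 => hc0 (congrArg Subtype.val h0),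
      fun m => ⟨⟨_, h m⟩, ?_⟩⟩
    rw [Algebra.smul_def]
    rfl
  · rintro ⟨c, hc, h⟩
    refine ⟨c, c.2, fun h0 => nonZeroDivisors.ne_zero hc (Subtype.ext h0), fun m => ?_⟩
    obtain ⟨r, hr⟩ := h m
    rw [Algebra.smul_def] at hr
    have e : (c : K) * x ^ m = r := hr.symm
    rw [e]
    exact r.2

theorem frac_of [IsFractionRing R K] (x : K) : ∃ c ∈ R, c ≠ 0 ∧ c * x ∈ R := by
  obtain ⟨a, b, hb, rfl⟩ := IsFractionRing.div_surjective (A := R) x
  have hb0 : (b : K) ≠ 0 := fun h0 => nonZeroDivisors.ne_zero hb (Subtype.ext h0)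
  refine ⟨b, b.2, hb0, ?_⟩
  have e : (b : K) * (algebraMap R K a / algebraMap R K b) = a := mul_div_cancel₀ _ hb0
  rw [e]
  exact a.2

/-- the complete integral closure as a subring -/
def acl (R : Subring K) : Subring K := (completeIntegralClosure R K).toSubring

theorem mem_acl {x : K} : x ∈ acl R ↔ AlmInt R x := almInt_iff.symm

theorem le_acl : R ≤ acl R := fun x hx => (completeIntegralClosure R K).algebraMap_mem ⟨x, hx⟩

theorem almInt_of_integral (hfrac : ∀ x : K, ∃ c ∈ R, c ≠ 0 ∧ c * x ∈ R) {x : K}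
    (hx : IsIntegral R x) : AlmInt R x := by
  rw [almInt_iff]
  apply hx.isAlmostIntegral_of_exists_smul_mem_range
  obtain ⟨c, hc, hc0, h⟩ := hfrac x
  refine ⟨⟨c, hc⟩, mem_nonZeroDivisors_of_ne_zero fun h0 => hc0 (congrArg Subtype.val h0),
    ⟨_, h⟩, ?_⟩
  rw [Algebra.smul_def]
  rfl

theorem isUnit_sub {S : Subring K} (hRS : R ≤ S) {x : K} (h : x ≠ 0 ∧ x⁻¹ ∈ R) (hx : x ∈ S) :
    IsUnit (⟨x, hx⟩ : S) := isUnit_iff.2 ⟨h.1, hRS h.2⟩

/-- The property of being henselian depends only on the ideal. -/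
theorem pair_conductor {S : Subring K} (hRS : R ≤ S) (I : Ideal R) [hH : HenselianRing R I]
    (J : Ideal S) (hJ : ∀ j ∈ J, Small I (j : K)) : HenselianRing S J := by
  have hjac : J ≤ Ideal.jacobson ⊥ := by
    intro j hj
    rw [Ideal.mem_jacobson_bot]
    intro y
    have h1 := (hJ _ (Ideal.mul_mem_right y J hj)).one_add hH.jac
    rw [add_comm]
    exact isUnit_sub hRS h1 (1 + j * y).2
  refine ⟨hjac, fun f hf b h1 h2 => ?_⟩
  have hb2 := isUnit_of_quot hjac h2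
  by_cases hb0 : f.eval b = 0
  · exact ⟨b, hb0, by simp⟩
  set f' : K[X] := f.map (algebraMap S K) with hf'
  set g : K[X] := Polynomial.taylor (b : K) f' with hg
  have hg0 : g.coeff 0 = ((f.eval b : S) : K) := by
    rw [hg, Polynomial.taylor_coeff_zero, hf', Polynomial.eval_map]
    exact Polynomial.eval₂_at_apply (algebraMap S K) b
  have hg1 : g.coeff 1 = ((f.derivative.eval b : S) : K) := by
    rw [hg, Polynomial.taylor_coeff_one, hf', Polynomial.derivative_map, Polynomial.eval_map]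
    exact Polynomial.eval₂_at_apply (algebraMap S K) b
  have hgk : ∀ k, g.coeff k ∈ S := by
    intro k
    have : g = (Polynomial.taylor b f).map (algebraMap S K) := by
      rw [hg, hf', Polynomial.map_taylor]
      rfl
    rw [this, Polynomial.coeff_map]
    exact ((Polynomial.taylor b f).coeff k).2
  obtain ⟨hg1', hg1i⟩ := isUnit_iff.1 hb2
  rw [← hg1] at hg1' hg1i
  have hg0' : g.coeff 0 ≠ 0 := by
    rw [hg0]
    exact fun h => hb0 (Subtype.ext h)
  obtain ⟨s, hs, hs1⟩ := root_near I g (n := g.natDegree) (by omega)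
    hg0' hg1' (fun k => by
      have h4 : g.coeff ((k : ℕ) + 2) * g.coeff 0 ^ (k : ℕ) * (g.coeff 1)⁻¹ ^ ((k : ℕ) + 2) ∈ S :=
        S.mul_mem (S.mul_mem (hgk _) (S.pow_mem (hgk 0) _)) (S.pow_mem hg1i _)
      have h5 := hJ _ (Ideal.mul_mem_right (⟨_, h4⟩ : S) J h1)
      have e : g.coeff ((k : ℕ) + 2) * g.coeff 0 ^ ((k : ℕ) + 1) / g.coeff 1 ^ ((k : ℕ) + 2) =
          ((f.eval b * ⟨_, h4⟩ : S) : K) := by
        show _ = ((f.eval b : S) : K) * (g.coeff ((k : ℕ) + 2) * g.coeff 0 ^ (k : ℕ) *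
          (g.coeff 1)⁻¹ ^ ((k : ℕ) + 2))
        rw [← hg0, inv_pow]
        field_simp
        ring
      rw [e]
      exact h5)
  have hval : (g.coeff 1)⁻¹ * s ∈ S := S.mul_mem hg1i (hRS hs)
  set t : S := f.eval b * ⟨_, hval⟩ with ht
  have htK : (t : K) = g.coeff 0 / g.coeff 1 * s := by
    show ((f.eval b : S) : K) * ((g.coeff 1)⁻¹ * s) = _
    rw [← hg0]
    ring
  refine ⟨t + b, ?_, ?_⟩
  · have h4 : g.eval (t : K) = 0 := by
      rw [htK]
      exact hs1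
    rw [hg, Polynomial.taylor_eval, hf', Polynomial.eval_map] at h4
    have h5 : Polynomial.eval₂ (algebraMap S K) (((t + b : S)) : K) f =
        ((f.eval (t + b) : S) : K) := Polynomial.eval₂_at_apply (algebraMap S K) (t + b)
    have h6 : ((f.eval (t + b) : S) : K) = 0 := by
      rw [← h5]
      exact h4
    exact Subtype.ext h6
  · rw [add_sub_cancel_right, ht]
    exact Ideal.mul_mem_right _ _ h1

/-- the set is between multiples of a larger bounded ring too -/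
theorem Bdd.mono [CompatibleRing K] {S : Subring K} (hRS : R ≤ S) {κ : K} (hκ0 : κ ≠ 0)
    (hκ : ∀ x ∈ S, κ * x ∈ R) (h : Bdd R) : Bdd S := by
  obtain ⟨B, hB, ⟨a, ha0, ha⟩, b, hb0, hb⟩ := h
  refine ⟨B, hB, ⟨a * κ, mul_ne_zero ha0 hκ0, fun r hr => ?_⟩, b, hb0, fun x hx => hRS (hb x hx)⟩
  rw [mul_assoc]
  exact ha _ (hκ r hr)

/-- the inverses of the values of some polynomial are bounded -/
def Away (R : Subring K) : Prop :=
  ∃ f : K[X], f.derivative ≠ 0 ∧ ∃ b : K, b ≠ 0 ∧ ∀ y : K, f.eval y ≠ 0 → b * (f.eval y)⁻¹ ∈ R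

theorem Away.get (h : Away R) : ∃ f : K[X], f.derivative ≠ 0 ∧ ∃ b : K, b ≠ 0 ∧
    ∀ y : K, b * (f.eval y)⁻¹ ∈ R := by
  obtain ⟨f, hf, b, hb0, hb⟩ := h
  refine ⟨f, hf, b, hb0, fun y => ?_⟩
  by_cases h0 : f.eval y = 0
  · rw [h0, inv_zero, mul_zero]
    exact R.zero_mem
  · exact hb y h0

theorem infinite_of (I : Ideal R) [hH : HenselianRing R I] (hI : I ≠ ⊥) : Infinite K := by
  obtain ⟨ρ, h1, h2⟩ := exists_small I hI
  have h := conn_small I h1 h2
  by_contra hfin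
  rw [not_infinite_iff_finite] at hfin
  obtain ⟨m, n, hmn, e⟩ : ∃ m n : ℕ, m < n ∧ ρ ^ m = ρ ^ n := by
    obtain ⟨m, n, h3, h4⟩ := Finite.exists_ne_map_eq_of_infinite (fun n : ℕ => ρ ^ n)
    rcases lt_or_gt_of_ne h3 with h5 | h5
    · exact ⟨m, n, h5, h4⟩
    · exact ⟨n, m, h5, h4.symm⟩
  apply h.inv
  obtain ⟨k, rfl⟩ := Nat.exists_eq_add_of_lt hmn
  have e2 : ρ⁻¹ = ρ ^ k := by
    have h3 : ρ ^ m ≠ 0 := pow_ne_zero _ h2
    have e3 : ρ ^ m * 1 = ρ ^ m * (ρ * ρ ^ k) := by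
      rw [mul_one]
      conv_lhs => rw [e]
      ring
    have e4 := mul_left_cancel₀ h3 e3
    exact inv_eq_of_mul_eq_one_right e4.symm
  rw [e2]
  exact R.pow_mem h.mem _

/-- the conclusion -/
def Good (R : Subring K) (O : ValuationSubring K) : Prop :=
  (∀ x, x ∈ O ↔ AlmInt R x) ∧ RankOne O

theorem main_local [CompatibleRing K] (hK : NIPField K) (hloc : IsLocalRing R)
    (hic : ∀ x : K, IsIntegral R x → x ∈ R) (hfrac : ∀ x : K, ∃ c ∈ R, c ≠ 0 ∧ c * x ∈ R)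
    (hR : R ≠ ⊤) {κ : K} (hκ0 : κ ≠ 0) (hbd : ∀ x : K, AlmInt R x → κ * x ∈ R) (hB : Bdd R) :
    ∃ O : ValuationSubring K, Good R O := by
  have h1 : AlmInt R 1 := ⟨1, R.one_mem, one_ne_zero, fun m => by simp⟩
  have hκ : κ ∈ R := by simpa using hbd 1 h1
  obtain ⟨O, g1, g2, -⟩ := main hK hic hfrac ⟨κ, hκ, hκ0, hbd⟩ (conn_local hfrac hR) hB
  exact ⟨O, g1, g2⟩

theorem main_pair [CompatibleRing K] (hK : NIPField K) (I : Ideal R) [hH : HenselianRing R I]
    (hI : I ≠ ⊥) (hfrac : ∀ x : K, ∃ c ∈ R, c ≠ 0 ∧ c * x ∈ R)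
    {κ : K} (hκ0 : κ ≠ 0) (hbd : ∀ x : K, AlmInt R x → κ * x ∈ R) (hB : Bdd R ∨ Away R) :
    ∃ O : ValuationSubring K, Good R O ∧ HenselianLocalRing O := by
  have h1 : AlmInt R 1 := ⟨1, R.one_mem, one_ne_zero, fun m => by simp⟩
  have hκ : κ ∈ R := by simpa using hbd 1 h1
  have hB' : Bdd R := by
    rcases hB with hB | hB
    · exact hB
    · obtain ⟨f, hf, b, hb0, hb⟩ := hB.get
      exact bdd_of_values I hI hfrac f hf hb0 hb (infinite_of I hI)
  obtain ⟨ρ, hρ, hρ0⟩ := exists_small I hI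
  have hρR : ρ ∈ R := by
    obtain ⟨r, -, rfl⟩ := hρ
    exact r.2
  set S : Subring K := acl R with hS
  have hRS : R ≤ S := le_acl
  have hSb : ∀ x ∈ S, κ * x ∈ R := fun x hx => hbd x (mem_acl.1 hx)
  have hfracS : ∀ x : K, ∃ c ∈ S, c ≠ 0 ∧ c * x ∈ S := fun x => by
    obtain ⟨c, hc, hc0, h⟩ := hfrac x
    exact ⟨c, hRS hc, hc0, hRS h⟩
  have hcic : ∀ x : K, AlmInt S x → x ∈ S := by
    rintro x ⟨c, hc, hc0, h⟩
    rw [hS, mem_acl]
    refine ⟨κ * c, hSb c hc, mul_ne_zero hκ0 hc0, fun m => ?_⟩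
    rw [mul_assoc]
    exact hSb _ (h m)
  have hAlm : ∀ x : K, AlmInt S x ↔ AlmInt R x := fun x =>
    ⟨fun h => mem_acl.1 (hcic x h), fun h => ⟨1, S.one_mem, one_ne_zero, fun m => by
      rw [one_mul]
      exact S.pow_mem (mem_acl.2 h) m⟩⟩
  set J : Ideal S := Ideal.span {⟨ρ * κ, hRS (R.mul_mem hρR hκ)⟩} with hJ
  have hJs : ∀ j ∈ J, Small I (j : K) := by
    intro j hj
    obtain ⟨s, rfl⟩ := Ideal.mem_span_singleton'.1 hj
    have e : ((s * ⟨ρ * κ, hRS (R.mul_mem hρR hκ)⟩ : S) : K) = ρ * (κ * s) := by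
      show (s : K) * (ρ * κ) = _
      ring
    rw [e]
    exact hρ.mul (hSb _ s.2)
  have hJ0 : J ≠ ⊥ := by
    intro h0
    have h2 : (⟨ρ * κ, hRS (R.mul_mem hρR hκ)⟩ : S) ∈ J := Ideal.mem_span_singleton_self _
    rw [h0, Ideal.mem_bot] at h2
    exact mul_ne_zero hρ0 hκ0 (congrArg Subtype.val h2)
  have hHJ : HenselianRing S J := pair_conductor hRS I J hJs
  obtain ⟨O, g1, g2, g3⟩ := main hK (R := S)
    (fun x hx => hcic x (almInt_of_integral hfracS hx)) hfracS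
    ⟨1, S.one_mem, one_ne_zero, fun x hx => by
      rw [one_mul]
      exact hcic x hx⟩ (conn_pair J hJ0) (hB'.mono hRS hκ0 hSb)
  exact ⟨O, ⟨fun x => (g1 x).trans (hAlm x), g2⟩, g3 J hJ0 hHJ⟩

theorem mem_cl_of_integral {x : K} (hx : IsIntegral (cl R) x) : x ∈ cl R := by
  rw [mem_cl]
  exact isIntegral_trans (A := integralClosure R K) x hx

theorem main_tate [CompatibleRing K] (hK : NIPField K) (hmem : π ∈ R) (hne : π ≠ 0)
    (hfin : ∀ x : K, ∃ n : ℕ, π ^ n * x ∈ R)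
    [hH : HenselianRing R (Ideal.span {(⟨π, hmem⟩ : R)})] (hf : Away R) :
    ∃ O : ValuationSubring K, Good R O ∧ HenselianLocalRing O ∧
      ∃ a : K, a ≠ 0 ∧ ∀ x ∈ O, a * x ∈ R := by
  obtain ⟨f, hf, b, hb0, hb⟩ := hf.get
  set S : Subring K := cl R with hS
  have hRS : R ≤ S := le_cl
  have hHS : HenselianRing S (Ideal.span {(⟨π, le_cl hmem⟩ : S)}) := pair_cl hmem hne hfin
  set I : Ideal S := Ideal.span {(⟨π, le_cl hmem⟩ : S)} with hI
  have hI0 : I ≠ ⊥ := by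
    intro h0
    have h2 : (⟨π, le_cl hmem⟩ : S) ∈ I := Ideal.mem_span_singleton_self _
    rw [h0, Ideal.mem_bot] at h2
    exact hne (congrArg Subtype.val h2)
  have hfracS : ∀ x : K, ∃ c ∈ S, c ≠ 0 ∧ c * x ∈ S := fun x => by
    obtain ⟨n, hn⟩ := hfin x
    exact ⟨π ^ n, S.pow_mem (hRS hmem) n, pow_ne_zero _ hne, hRS hn⟩
  have hicS : ∀ x : K, IsIntegral S x → x ∈ S := fun x hx => mem_cl_of_integral hx
  have hbS : ∀ y : K, b * (f.eval y)⁻¹ ∈ S := fun y => hRS (hb y)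
  have hinf : Infinite K := infinite_of I hI0
  -- `S` is bounded
  obtain ⟨z, h0, h1⟩ := exists_nonroot f hf hinf
  obtain ⟨c, hc, hc0, hcr⟩ := open_values I hfracS (ρ := π)
    ⟨⟨π, le_cl hmem⟩, Ideal.mem_span_singleton_self _, rfl⟩ hne f z h0 h1
  have hSb : ∀ x ∈ S, b * (π * c) * x ∈ R := by
    intro x hx
    have h2 : π * c * x ∈ valSet f (f.eval z)⁻¹ := hcr x hx
    rw [mul_assoc]
    exact valSet_bounded hb z _ h2
  have hbd : ∀ x : K, AlmInt S x → π * x ∈ S := by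
    rintro x ⟨d, hd, hd0, h⟩
    obtain ⟨n, hn⟩ := hfin d⁻¹
    have h2 : (π * x) ^ (n + 1) ∈ S := by
      have e : (π * x) ^ (n + 1) = π * ((π ^ n * d⁻¹) * (d * x ^ (n + 1))) := by
        field_simp
        ring
      rw [e]
      exact S.mul_mem (hRS hmem) (S.mul_mem (hRS hn) (h _))
    apply hicS
    have h3 : IsIntegral S ((π * x) ^ (n + 1)) := by
      have := isIntegral_algebraMap (R := S) (A := K) (x := ⟨_, h2⟩)
      exact this
    exact IsIntegral.of_pow (by omega) h3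
  obtain ⟨O, g1, g2, g3⟩ := main hK (R := S) hicS hfracS ⟨π, hRS hmem, hne, hbd⟩
    (conn_pair I hI0) (bdd_of_values I hI0 hfracS f hf hb0 hbS hinf)
  have hOb : ∀ x ∈ O, b * (π * c) * π * x ∈ R := fun x hx => by
    rw [mul_assoc]
    exact hSb _ (hbd x ((g1 x).1 hx))
  have ha0 : b * (π * c) * π ≠ 0 := mul_ne_zero (mul_ne_zero hb0 (mul_ne_zero hne hc0)) hne
  refine ⟨O, ⟨fun x => ⟨fun hx => ?_, ?_⟩, g2⟩, g3 I hI0 hHS, b * (π * c) * π, ha0, hOb⟩
  · refine ⟨b * (π * c) * π, ?_, ha0, fun m => hOb _ (pow_mem hx m)⟩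
    simpa using hOb 1 O.one_mem
  · rintro ⟨d, hd, hd0, h⟩
    exact (g1 x).2 ⟨d, hRS hd, hd0, fun m => hRS (h m)⟩

end Pool.Agent.H48.TP
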