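import Pool.Agent.H48.TP.Val

/-!
# Henselian rings
-/

set_option autoImplicit false

namespace Pool.Agent.H48.TP

open Polynomial

section pair

variable {R : Type} [CommRing R] (I : Ideal R) [HenselianRing R I]

theorem root_unit {d : ℕ} (hd : 1 ≤ d) (c : Fin d → R) (hc : ∀ k, c k ∈ I) :
    ∃ a : R, a ^ d + a ^ (d - 1) + ∑ k : Fin d, c k * a ^ (d - 1 - (k : ℕ)) = 0 ∧ a + 1 ∈ I := by
  classical
  let p : R[X] := X ^ (d - 1) + ∑ k : Fin d, C (c k) * X ^ (d - 1 - (k : ℕ))
  let g : R[X] := X ^ d + p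
  have hp : p.degree < (d : WithBot ℕ) := by
    have h1 : ∀ m : ℕ, m ≤ d - 1 → (X ^ m : R[X]).degree < (d : WithBot ℕ) := fun m hm =>
      lt_of_le_of_lt (Polynomial.degree_X_pow_le m) (by
        have : m < d := by omega
        exact_mod_cast this)
    refine lt_of_le_of_lt (Polynomial.degree_add_le _ _) (max_lt (h1 _ le_rfl) ?_)
    refine lt_of_le_of_lt (Polynomial.degree_sum_le _ _) ?_
    rw [Finset.sup_lt_iff (by exact WithBot.bot_lt_coe d)]
    intro k _
    refine lt_of_le_of_lt (Polynomial.degree_C_mul_X_pow_le _ _) ?_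
    have : d - 1 - (k : ℕ) < d := by omega
    exact_mod_cast this
  have hg : g.Monic := Polynomial.monic_X_pow_add hp
  have h1 : g.eval (-1) ∈ I := by
    have e : g.eval (-1) = ((-1) ^ d + (-1) ^ (d - 1)) +
        ∑ k : Fin d, c k * (-1) ^ (d - 1 - (k : ℕ)) := by
      simp only [g, p, eval_add, eval_pow, eval_X, eval_finsetSum, eval_mul, eval_C]
      ring
    have e2 : ((-1 : R) ^ d + (-1) ^ (d - 1)) = 0 := by
      obtain ⟨d', rfl⟩ : ∃ d', d = d' + 1 := ⟨d - 1, by omega⟩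
      rw [Nat.add_sub_cancel]
      ring
    rw [e, e2, zero_add]
    exact Ideal.sum_mem _ fun k _ => Ideal.mul_mem_right _ _ (hc k)
  have h2 : g.derivative.eval (-1) - (-1) ^ (d - 1) ∈ I := by
    have e : g.derivative.eval (-1) = ((d : R) * (-1) ^ (d - 1) +
        ((d - 1 : ℕ) : R) * (-1) ^ (d - 1 - 1)) +
        ∑ k : Fin d, c k * (((d - 1 - (k : ℕ) : ℕ) : R) * (-1) ^ (d - 1 - (k : ℕ) - 1)) := by
      simp only [g, p, derivative_add, derivative_X_pow, derivative_sum, derivative_mul,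
        derivative_C, zero_mul, zero_add, eval_add, eval_mul, eval_pow, eval_X, eval_finsetSum,
        eval_C]
      ring
    have e2 : ((d : R) * (-1) ^ (d - 1) + ((d - 1 : ℕ) : R) * (-1) ^ (d - 1 - 1)) =
        (-1) ^ (d - 1) := by
      obtain ⟨d', rfl⟩ : ∃ d', d = d' + 1 := ⟨d - 1, by omega⟩
      rcases Nat.eq_zero_or_pos d' with h | h
      · subst h
        simp
      · obtain ⟨e', rfl⟩ : ∃ e', d' = e' + 1 := ⟨d' - 1, by omega⟩
        simp only [Nat.add_sub_cancel]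
        push_cast
        ring
    rw [e, e2, add_sub_cancel_left]
    exact Ideal.sum_mem _ fun k _ => Ideal.mul_mem_right _ _ (hc k)
  have h3 : IsUnit (Ideal.Quotient.mk I (g.derivative.eval (-1))) := by
    have e : Ideal.Quotient.mk I (g.derivative.eval (-1)) = Ideal.Quotient.mk I ((-1) ^ (d - 1)) :=
      Ideal.Quotient.eq.2 h2
    rw [e]
    exact ((isUnit_one.neg).pow _).map _
  obtain ⟨a, ha, ha2⟩ := HenselianRing.is_henselian g hg (-1) h1 h3
  refine ⟨a, ?_, by simpa using ha2⟩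
  have h4 : g.eval a = 0 := ha
  simp only [g, p, eval_add, eval_pow, eval_X, eval_finsetSum, eval_mul, eval_C] at h4
  rw [← h4]
  ring

theorem isUnit_of_quot {J : Ideal R} (hJ : J ≤ Ideal.jacobson ⊥) {x : R}
    (hx : IsUnit (Ideal.Quotient.mk J x)) : IsUnit x := by
  have := isLocalHom_of_le_jacobson_bot J hJ
  exact isUnit_of_map_unit (Ideal.Quotient.mk J) x hx

theorem isUnit_add {J : Ideal R} (hJ : J ≤ Ideal.jacobson ⊥) {x y : R} (hx : IsUnit x)
    (hy : y ∈ J) : IsUnit (x + y) := by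
  apply isUnit_of_quot hJ
  rw [map_add, Ideal.Quotient.eq_zero_iff_mem.2 hy, add_zero]
  exact hx.map _

/-- Newton's method -/
theorem newton {J : Ideal R} (hJ : J ≤ Ideal.jacobson ⊥) (f : R[X]) (a₀ : R) (h1 : f.eval a₀ ∈ J)
    (h2 : IsUnit (f.derivative.eval a₀)) (n : ℕ) :
    ∃ a : R, a - a₀ ∈ J ∧ IsUnit (f.derivative.eval a) ∧ f.eval a₀ ^ (n + 1) ∣ f.eval a := by
  have hder : ∀ a : R, a - a₀ ∈ J → IsUnit (f.derivative.eval a) := by
    intro a ha
    obtain ⟨z, hz⟩ := f.derivative.evalSubFactor a a₀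
    have e : f.derivative.eval a = f.derivative.eval a₀ + z * (a - a₀) := by
      rw [← hz]
      ring
    rw [e]
    exact isUnit_add hJ h2 (Ideal.mul_mem_left _ _ ha)
  induction n with
  | zero => exact ⟨a₀, by simp, h2, by simp⟩
  | succ n ih =>
    obtain ⟨a, ha1, ha3, ha2⟩ := ih
    obtain ⟨u, hu⟩ := ha3
    obtain ⟨k, hk⟩ := f.binomExpansion a (-(f.eval a * (↑u⁻¹ : R)))
    have hd : f.eval a₀ ∣ f.eval a := dvd_trans (dvd_pow_self _ (by omega)) ha2
    have hmem : f.eval a ∈ J := Ideal.mem_of_dvd _ hd h1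
    have h4 : a + -(f.eval a * (↑u⁻¹ : R)) - a₀ ∈ J := by
      have : a + -(f.eval a * (↑u⁻¹ : R)) - a₀ = (a - a₀) - f.eval a * (↑u⁻¹ : R) := by ring
      rw [this]
      exact Ideal.sub_mem _ ha1 (Ideal.mul_mem_right _ _ hmem)
    refine ⟨a + -(f.eval a * (↑u⁻¹ : R)), h4, hder _ h4, ?_⟩
    rw [hk, ← hu]
    have e1 : f.eval a + ↑u * -(f.eval a * (↑u⁻¹ : R)) + k * (-(f.eval a * (↑u⁻¹ : R))) ^ 2 =
        f.eval a * (1 - ↑u * (↑u⁻¹ : R)) + (f.eval a * f.eval a) * (k * (↑u⁻¹ : R) ^ 2) := by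
      ring
    rw [e1, Units.mul_inv, sub_self, mul_zero, zero_add, pow_succ]
    exact (mul_dvd_mul ha2 hd).mul_right _

theorem jac_radical : I.radical ≤ Ideal.jacobson ⊥ :=
  (Ideal.isRadical_jacobson _).radical_le_iff.2 HenselianRing.jac

/-- The radical of a henselian ideal is henselian. -/
theorem henselian_radical : HenselianRing R I.radical where
  jac := jac_radical I
  is_henselian := by
    intro f hf a₀ h1 h2
    have hJ := jac_radical I
    have h3 := isUnit_of_quot hJ h2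
    obtain ⟨n, hn⟩ := h1
    obtain ⟨a, ha1, ha2, ha3⟩ := newton hJ f a₀ ⟨n, hn⟩ h3 n
    have h4 : f.eval a ∈ I := by
      refine Ideal.mem_of_dvd _ ha3 ?_
      rw [pow_succ]
      exact Ideal.mul_mem_right _ _ hn
    obtain ⟨b, hb1, hb2⟩ := HenselianRing.is_henselian f hf a h4 (ha2.map _)
    refine ⟨b, hb1, ?_⟩
    have : b - a₀ = (b - a) + (a - a₀) := by ring
    rw [this]
    exact Ideal.add_mem _ (Ideal.le_radical hb2) ha1

end pair

variable {K : Type} [Field K] {R : Subring K} {π : K}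

/-- `x` is in the ideal -/
def Small {R : Subring K} (I : Ideal R) (x : K) : Prop := ∃ r ∈ I, (r : K) = x

theorem Small.mul {I : Ideal R} {x y : K} (hx : Small I x) (hy : y ∈ R) : Small I (x * y) := by
  obtain ⟨r, hr, rfl⟩ := hx
  exact ⟨r * ⟨y, hy⟩, Ideal.mul_mem_right _ _ hr, rfl⟩

theorem Small.one_add {I : Ideal R} (hI : I ≤ Ideal.jacobson ⊥) {x : K} (hx : Small I x) :
    1 + x ≠ 0 ∧ (1 + x)⁻¹ ∈ R := by
  obtain ⟨r, hr, rfl⟩ := hx
  exact isUnit_iff.1 (isUnit_add hI isUnit_one hr)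

theorem normal (I : Ideal R) [HenselianRing R I] {n : ℕ} (d : Fin n → K)
    (hd : ∀ k, Small I (d k)) :
    ∃ s ∈ R, 1 + s + ∑ k : Fin n, d k * s ^ ((k : ℕ) + 2) = 0 := by
  choose r hr hrd using hd
  obtain ⟨b, hb1, hb2⟩ := root_unit I (d := n + 1) (by omega)
    (Fin.cons 0 r) (fun k => by
      refine Fin.cases ?_ (fun i => ?_) k
      · simp
      · simpa using hr i)
  have hbu : IsUnit b := by
    have : b = -1 + (b + 1) := by ring
    rw [this]
    exact isUnit_add HenselianRing.jac isUnit_one.neg hb2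
  obtain ⟨hb0, hbi⟩ := isUnit_iff.1 hbu
  refine ⟨(b : K)⁻¹, hbi, ?_⟩
  rw [Nat.add_sub_cancel, Fin.sum_univ_succ] at hb1
  simp only [Fin.cons_zero, zero_mul, zero_add, Fin.cons_succ, Fin.val_succ] at hb1
  have h3 := congrArg (fun x : R => (x : K)) hb1
  simp only [Subring.coe_add, Subring.coe_pow, Subring.coe_zero] at h3
  have h4 : ((∑ i : Fin n, r i * b ^ (n - ((i : ℕ) + 1)) : R) : K) =
      ∑ i : Fin n, d i * (b : K) ^ (n - ((i : ℕ) + 1)) := by
    rw [← Subring.subtype_apply, map_sum]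
    refine Finset.sum_congr rfl fun i _ => ?_
    rw [map_mul, map_pow, Subring.subtype_apply, Subring.subtype_apply, hrd]
  rw [h4] at h3
  have hbp : (b : K) ^ (n + 1) ≠ 0 := pow_ne_zero _ hb0
  apply mul_left_cancel₀ hbp
  rw [mul_zero, ← h3, mul_add, mul_add, mul_one, Finset.mul_sum]
  congr 1
  · congr 1
    rw [pow_succ, mul_assoc, mul_inv_cancel₀ hb0, mul_one]
  · refine Finset.sum_congr rfl fun i _ => ?_
    have hi := i.2
    have e : (b : K) ^ (n + 1) = (b : K) ^ (n - ((i : ℕ) + 1)) * (b : K) ^ ((i : ℕ) + 2) := by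
      rw [← pow_add]
      congr 1
      omega
    rw [e, inv_pow]
    field_simp

/-- the root near a simple approximate root -/
theorem root_near (I : Ideal R) [HenselianRing R I] {n : ℕ} (g : K[X])
    (hn : g.natDegree ≤ n + 1) (h0 : g.coeff 0 ≠ 0) (h1 : g.coeff 1 ≠ 0)
    (hd : ∀ k : Fin n, Small I (g.coeff ((k : ℕ) + 2) * g.coeff 0 ^ ((k : ℕ) + 1) /
      g.coeff 1 ^ ((k : ℕ) + 2))) :
    ∃ s ∈ R, g.eval (g.coeff 0 / g.coeff 1 * s) = 0 := by
  obtain ⟨s, hs, hs1⟩ := normal I _ hd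
  refine ⟨s, hs, ?_⟩
  rw [Polynomial.eval_eq_sum_range' (n := n + 2) (by omega), Finset.sum_range_succ',
    Finset.sum_range_succ', Finset.sum_range]
  have e : ∀ k : Fin n, g.coeff ((k : ℕ) + 1 + 1) * (g.coeff 0 / g.coeff 1 * s) ^ ((k : ℕ) + 1 + 1) =
      g.coeff 0 * (g.coeff ((k : ℕ) + 2) * g.coeff 0 ^ ((k : ℕ) + 1) /
      g.coeff 1 ^ ((k : ℕ) + 2) * s ^ ((k : ℕ) + 2)) := by
    intro k
    rw [mul_pow, div_pow]
    field_simp
    ring
  rw [Finset.sum_congr rfl fun k _ => e k, ← Finset.mul_sum]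
  have e2 : g.coeff (0 + 1) * (g.coeff 0 / g.coeff 1 * s) ^ (0 + 1) = g.coeff 0 * s := by
    rw [zero_add, pow_one]
    field_simp
  rw [e2, pow_zero, mul_one]
  have e3 := congrArg (fun x => g.coeff 0 * x) hs1
  simp only [mul_add, mul_one, mul_zero] at e3
  rw [← e3]
  ring

theorem henselian_of (I : Ideal R) [HenselianRing R I] (O : ValuationSubring K)
    (hRO : ∀ x ∈ R, x ∈ O) (hO : ∀ x, O.valuation x < 1 → Small I x) : HenselianLocalRing O := by
  refine ⟨fun f hf a₀ h1 h2 => ?_⟩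
  have hmax : ∀ x : O, x ∈ IsLocalRing.maximalIdeal O ↔ O.valuation (x : K) < 1 := fun x =>
    (O.valuation_lt_one_iff x)
  by_cases h0 : f.eval a₀ = 0
  · exact ⟨a₀, h0, by simp⟩
  set f' : K[X] := f.map (algebraMap O K) with hf'
  set g : K[X] := Polynomial.taylor (a₀ : K) f' with hg
  have hg0 : g.coeff 0 = ((f.eval a₀ : O) : K) := by
    rw [hg, Polynomial.taylor_coeff_zero, hf', Polynomial.eval_map]
    exact Polynomial.eval₂_at_apply (algebraMap O K) a₀
  have hg1 : g.coeff 1 = ((f.derivative.eval a₀ : O) : K) := by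
    rw [hg, Polynomial.taylor_coeff_one, hf', Polynomial.derivative_map, Polynomial.eval_map]
    exact Polynomial.eval₂_at_apply (algebraMap O K) a₀
  have hgk : ∀ k, g.coeff k ∈ O := by
    intro k
    have : g = (Polynomial.taylor a₀ f).map (algebraMap O K) := by
      rw [hg, hf', Polynomial.map_taylor]
      rfl
    rw [this, Polynomial.coeff_map]
    exact ((Polynomial.taylor a₀ f).coeff k).2
  have hv1 : O.valuation (g.coeff 1) = 1 := by
    rw [hg1]
    exact (O.valuation_eq_one_iff _).1 h2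
  have hv0 : O.valuation (g.coeff 0) < 1 := by
    rw [hg0]
    exact (hmax _).1 h1
  have hg1' : g.coeff 1 ≠ 0 := by
    intro h
    rw [h, map_zero] at hv1
    exact zero_ne_one hv1
  have hg0' : g.coeff 0 ≠ 0 := by
    rw [hg0]
    exact fun h => h0 (Subtype.ext h)
  obtain ⟨s, hs, hs1⟩ := root_near I g (n := g.natDegree) (by omega) hg0' hg1' (fun k => by
    apply hO
    rw [map_div₀, map_mul, map_pow, map_pow, hv1, one_pow, div_one]
    have h3 : O.valuation (g.coeff ((k : ℕ) + 2)) ≤ 1 :=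
      (ValuationSubring.valuation_le_one_iff _ _).2 (hgk _)
    calc O.valuation (g.coeff ((k : ℕ) + 2)) * O.valuation (g.coeff 0) ^ ((k : ℕ) + 1)
        ≤ 1 * O.valuation (g.coeff 0) ^ ((k : ℕ) + 1) := mul_le_mul_left h3 _
      _ = O.valuation (g.coeff 0) ^ ((k : ℕ) + 1) := one_mul _
      _ < 1 := pow_lt_one₀ zero_le hv0 (by omega))
  have hval : O.valuation (g.coeff 0 / g.coeff 1 * s) < 1 := by
    rw [map_mul, map_div₀, hv1, div_one]
    have h3 : O.valuation s ≤ 1 := (ValuationSubring.valuation_le_one_iff _ _).2 (hRO s hs)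
    calc O.valuation (g.coeff 0) * O.valuation s ≤ O.valuation (g.coeff 0) * 1 :=
          mul_le_mul_right h3 _
      _ = O.valuation (g.coeff 0) := mul_one _
      _ < 1 := hv0
  set t : O := ⟨g.coeff 0 / g.coeff 1 * s, (ValuationSubring.valuation_le_one_iff _ _).1 hval.le⟩
    with ht
  refine ⟨t + a₀, ?_, ?_⟩
  · have h4 : g.eval (t : K) = 0 := hs1
    rw [hg, Polynomial.taylor_eval, hf', Polynomial.eval_map] at h4
    have h5 : Polynomial.eval₂ (algebraMap O K) (((t + a₀ : O)) : K) f =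
        ((f.eval (t + a₀) : O) : K) := Polynomial.eval₂_at_apply (algebraMap O K) (t + a₀)
    have h6 : ((f.eval (t + a₀) : O) : K) = 0 := by
      rw [← h5]
      exact h4
    exact Subtype.ext h6
  · rw [add_sub_cancel_right, hmax]
    exact hval

end Pool.Agent.H48.TP
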