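import Pool.Agent.H48.TP.Def

/-!
# Preparations for the final statement
-/

set_option autoImplicit false

namespace Pool.Agent.H48.TP

open Polynomial FirstOrder FirstOrder.Language FirstOrder.Ring

variable {K : Type} [Field K] {R : Subring K}

/-- henselian and definable if the value group is not divisible -/
def HensDef [CompatibleRing K] (O : ValuationSubring K) : Prop :=
  HenselianLocalRing O ∧ (NotDivisible O → DefSet (O : Set K))

theorem hensDef_of [CompatibleRing K] {O : ValuationSubring K} (hfrac : ∀ x : K, ∃ c ∈ R, c ≠ 0 ∧ c * x ∈ R)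
    (hO : Good R O) (hH : HenselianLocalRing O) {a : K} (ha0 : a ≠ 0) (ha : ∀ x ∈ O, a * x ∈ R) :
    HensDef O :=
  ⟨hH, fun hnd => defSet_of O hH (fun _ hc _ h => arch hO.1 hfrac ha0 ha hc h) hnd⟩

theorem last_pair [CompatibleRing K] (hK : NIPField K) (I : Ideal R) (hH : HenselianRing R I)
    (hI : I ≠ ⊥) (hfrac : ∀ x : K, ∃ c ∈ R, c ≠ 0 ∧ c * x ∈ R)
    {κ : K} (hκ0 : κ ≠ 0) (hbd : ∀ x : K, AlmInt R x → κ * x ∈ R) (hB : Bdd R ∨ Away R) :
    ∃ O : ValuationSubring K, Good R O ∧ HensDef O ∧ ∀ x ∈ O, κ * x ∈ R := by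
  obtain ⟨O, h1, h2⟩ := main_pair hK I hI hfrac hκ0 hbd hB
  have h3 : ∀ x ∈ O, κ * x ∈ R := fun x hx => hbd x ((h1.1 x).1 hx)
  exact ⟨O, h1, hensDef_of hfrac h1 h2 hκ0 h3, h3⟩

theorem tate_bounded {π : K} (hmem : π ∈ R) (hne : π ≠ 0) (hfin : ∀ x : K, ∃ n : ℕ, π ^ n * x ∈ R)
    (hic : ∀ x : K, IsIntegral R x → x ∈ R) (x : K) (hx : AlmInt R x) : π * x ∈ R := by
  obtain ⟨d, hd, hd0, h⟩ := hx
  obtain ⟨n, hn⟩ := hfin d⁻¹
  have h2 : (π * x) ^ (n + 1) ∈ R := by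
    have e : (π * x) ^ (n + 1) = π * ((π ^ n * d⁻¹) * (d * x ^ (n + 1))) := by
      field_simp
      ring
    rw [e]
    exact R.mul_mem hmem (R.mul_mem hn (h _))
  apply hic
  have h3 : IsIntegral R ((π * x) ^ (n + 1)) := by
    have := isIntegral_algebraMap (R := R) (A := K) (x := ⟨_, h2⟩)
    exact this
  exact IsIntegral.of_pow (by omega) h3

theorem last_tate [CompatibleRing K] (hK : NIPField K) (π : R) (hne : π ≠ 0)
    (hA : IsLocalization.Away π K) (hH : HenselianRing R (Ideal.span {π}))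
    (hf : Away R ∨ (∀ x : K, IsIntegral R x → x ∈ R) ∧ Bdd R) :
    ∃ O : ValuationSubring K, Good R O ∧ HensDef O ∧ ∃ a : K, a ≠ 0 ∧ ∀ x ∈ O, a * x ∈ R := by
  have hne' : (π : K) ≠ 0 := fun h => hne (Subtype.ext h)
  have hfin : ∀ x : K, ∃ n : ℕ, (π : K) ^ n * x ∈ R := by
    intro x
    obtain ⟨n, a, h⟩ := IsLocalization.Away.surj π x
    refine ⟨n, ?_⟩
    have e : (π : K) ^ n * x = a := by
      rw [mul_comm]
      exact h
    rw [e]
    exact a.2
  have hfrac : ∀ x : K, ∃ c ∈ R, c ≠ 0 ∧ c * x ∈ R := fun x => by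
    obtain ⟨n, hn⟩ := hfin x
    exact ⟨(π : K) ^ n, R.pow_mem π.2 n, pow_ne_zero _ hne', hn⟩
  rcases hf with hf | ⟨hic, hB⟩
  · obtain ⟨O, h1, h2, a, ha0, ha⟩ := main_tate hK π.2 hne' hfin hf
    exact ⟨O, h1, hensDef_of hfrac h1 h2 ha0 ha, a, ha0, ha⟩
  · have hI : Ideal.span {π} ≠ ⊥ := by
      rw [Ne, Ideal.span_singleton_eq_bot]
      exact hne
    obtain ⟨O, h1, h2, h3⟩ := last_pair hK (Ideal.span {π}) hH hI hfrac hne'
      (tate_bounded π.2 hne' hfin hic) (Or.inl hB)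
    exact ⟨O, h1, h2, _, hne', h3⟩

theorem integral_mem [IsFractionRing R K] (hic : IsIntegrallyClosed R) (x : K)
    (hx : IsIntegral R x) : x ∈ R := by
  obtain ⟨y, rfl⟩ := IsIntegrallyClosed.isIntegral_iff.1 hx
  exact y.2

end Pool.Agent.H48.TP
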