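import Pool.Agent.H48.TP.Loc2

/-!
# Preparations for the final statement, second part
-/

set_option autoImplicit false

namespace Pool.Agent.H48.TP

open Polynomial FirstOrder FirstOrder.Language FirstOrder.Ring

variable {K : Type} [Field K] {R : Subring K}

/-- henselian pairs -/
theorem final_pair [CompatibleRing K] (hK : NIPField K) (I : Ideal R) (hH : HenselianRing R I)
    (hI : I ≠ ⊥) (hfrac : ∀ x : K, ∃ c ∈ R, c ≠ 0 ∧ c * x ∈ R)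
    (hbd : (∃ κ : K, κ ≠ 0 ∧ ∀ x : K, AlmInt R x → κ * x ∈ R) ∨
      (∀ x : K, IsIntegral R x → x ∈ R) ∧ ∃ y : K, ¬ AlmInt R y)
    (hB : Bdd R ∨ Away R) :
    ∃ O : ValuationSubring K, Good R O ∧ HensDef O ∧ ∃ a : K, a ≠ 0 ∧ ∀ x ∈ O, a * x ∈ R := by
  have hB' : Bdd R := by
    rcases hB with hB | hB
    · exact hB
    · obtain ⟨f, hf, b, hb0, hb⟩ := hB.get
      exact bdd_of_values I hI hfrac f hf hb0 hb (infinite_of I hI)
  obtain ⟨κ, hκ0, hκ⟩ : ∃ κ : K, κ ≠ 0 ∧ ∀ x : K, AlmInt R x → κ * x ∈ R := by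
    rcases hbd with h | ⟨hic, y, hy⟩
    · exact h
    · obtain ⟨κ, -, h⟩ := bounded_closure hK hic hfrac (conn_pair I hI) hB' hy
      exact ⟨κ, h⟩
  obtain ⟨O, h1, h2, h3⟩ := last_pair hK I hH hI hfrac hκ0 hκ (Or.inl hB')
  exact ⟨O, h1, h2, κ, hκ0, h3⟩

/-- local rings -/
theorem final_local [CompatibleRing K] (hK : NIPField K) (hloc : IsLocalRing R)
    (hic : ∀ x : K, IsIntegral R x → x ∈ R) (hfrac : ∀ x : K, ∃ c ∈ R, c ≠ 0 ∧ c * x ∈ R)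
    {y : K} (hy : ¬ AlmInt R y) (hB : Bdd R) :
    ∃ O : ValuationSubring K, Good R O ∧ ∃ a : K, a ≠ 0 ∧ ∀ x ∈ O, a * x ∈ R := by
  have hR : R ≠ ⊤ := by
    rintro rfl
    exact hy ⟨1, trivial, one_ne_zero, fun m => trivial⟩
  obtain ⟨κ, -, hκ0, hκ⟩ := bounded_closure hK hic hfrac (conn_local hfrac hR) hB hy
  obtain ⟨O, h1⟩ := main_local hK hloc hic hfrac hR hκ0 hκ hB
  exact ⟨O, h1, κ, hκ0, fun x hx => hκ x ((h1.1 x).1 hx)⟩

end Pool.Agent.H48.TP
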