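import Pool.Agent.H48.TP.Coa

/-!
# Preparations for the final statement, third part
-/

set_option autoImplicit false

namespace Pool.Agent.H48.TP

open Polynomial FirstOrder FirstOrder.Language FirstOrder.Ring

variable {K : Type} [Field K] {R : Subring K}

/-- the topology of `R` is the topology of `O` -/
def Same (R : Subring K) (O : ValuationSubring K) : Prop :=
  O ≠ ⊤ ∧ R ≤ O.toSubring ∧ ∃ a : K, a ≠ 0 ∧ ∀ x ∈ O, a * x ∈ R

/-- henselian, with a definable henselian coarsening if the value group is not divisible -/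
def HensCoa [CompatibleRing K] (O : ValuationSubring K) : Prop :=
  HenselianLocalRing O ∧ (NotDivisible O → ∃ O' : ValuationSubring K, O ≤ O' ∧ O' ≠ ⊤ ∧
    HenselianLocalRing O' ∧ DefSet (O' : Set K))

theorem le_of_good {O : ValuationSubring K} (h : Good R O) : R ≤ O.toSubring := fun x hx =>
  (h.1 x).2 ⟨1, R.one_mem, one_ne_zero, fun m => by
    rw [one_mul]
    exact R.pow_mem hx m⟩

theorem hensCoa_of [CompatibleRing K] {O : ValuationSubring K} (h : HenselianLocalRing O) :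
    HensCoa O := ⟨h, exists_coarsening O h⟩

theorem fin_closed [CompatibleRing K] (hK : NIPField K) (I : Ideal R) (hH : HenselianRing R I)
    (hI : I ≠ ⊥) (hic : ∀ x : K, IsIntegral R x → x ∈ R)
    (hfrac : ∀ x : K, ∃ c ∈ R, c ≠ 0 ∧ c * x ∈ R)
    (hB : Away R ∨ Bdd R ∧ ∃ y : K, ¬ AlmInt R y) :
    ∃ O : ValuationSubring K, Same R O ∧ HensCoa O := by
  rcases hB with hB | ⟨hB, hy⟩
  · obtain ⟨O, h1, h2, h3, h4⟩ := away_val hK I hH hI hic hfrac hB
    exact ⟨O, ⟨h1, h3, h4⟩, hensCoa_of h2⟩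
  · obtain ⟨O, h1, h2, h3⟩ := final_pair hK I hH hI hfrac (Or.inr ⟨hic, hy⟩) (Or.inl hB)
    exact ⟨O, ⟨h1.2.1, le_of_good h1, h3⟩, hensCoa_of h2.1⟩

theorem fin_bounded [CompatibleRing K] (hK : NIPField K) (I : Ideal R) (hH : HenselianRing R I)
    (hI : I ≠ ⊥) (hfrac : ∀ x : K, ∃ c ∈ R, c ≠ 0 ∧ c * x ∈ R)
    (hbd : ∃ κ : K, κ ≠ 0 ∧ ∀ x : K, AlmInt R x → κ * x ∈ R) (hB : Bdd R ∨ Away R) :
    ∃ O : ValuationSubring K, Same R O ∧ HensCoa O := by
  obtain ⟨O, h1, h2, h3⟩ := final_pair hK I hH hI hfrac (Or.inl hbd) hB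
  exact ⟨O, ⟨h1.2.1, le_of_good h1, h3⟩, hensCoa_of h2.1⟩

theorem fin_tate [CompatibleRing K] (hK : NIPField K) (π : R) (hne : π ≠ 0)
    (hA : IsLocalization.Away π K) (hH : HenselianRing R (Ideal.span {π})) (hf : Away R) :
    ∃ O : ValuationSubring K, Same R O ∧ HensCoa O := by
  obtain ⟨O, h1, h2, h3⟩ := last_tate hK π hne hA hH (Or.inl hf)
  exact ⟨O, ⟨h1.2.1, le_of_good h1, h3⟩, hensCoa_of h2.1⟩

theorem fin_local [CompatibleRing K] (hK : NIPField K) (hloc : IsLocalRing R)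
    (hic : ∀ x : K, IsIntegral R x → x ∈ R) (hfrac : ∀ x : K, ∃ c ∈ R, c ≠ 0 ∧ c * x ∈ R)
    {y : K} (hy : ¬ AlmInt R y) (hB : Bdd R) : ∃ O : ValuationSubring K, Same R O := by
  obtain ⟨O, h1, h3⟩ := final_local hK hloc hic hfrac hy hB
  exact ⟨O, h1.2.1, le_of_good h1, h3⟩

end Pool.Agent.H48.TP
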