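import Pool.Agent.H48.TP.Last

/-!
# Peaks given by elements of `R[1/π]`

The dichotomy of `Dich` for elements of `R[1/π]`, without conditions on the complete integral closure.
-/

set_option autoImplicit false

namespace Pool.Agent.H48.TP

open Polynomial FirstOrder FirstOrder.Language FirstOrder.Ring

variable {K : Type} [Field K] {R : Subring K} {π : K}

/-- `R` is integrally closed and satisfies the condition `Conn` for `π` -/
structure Pre (R : Subring K) (π : K) : Prop where
  ic : ∀ x : K, IsIntegral R x → x ∈ R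
  con : Conn R π

namespace Pre

variable (h : Pre R π)

include h

theorem mem : π ∈ R := h.con.mem

theorem ne : π ≠ 0 := h.con.ne

theorem of_pow {x : K} {n : ℕ} (hn : 1 ≤ n) (hx : x ^ n ∈ R) : x ∈ R := by
  apply h.ic
  have h1 : IsIntegral R (x ^ n) := by
    have := isIntegral_algebraMap (R := R) (A := K) (x := ⟨x ^ n, hx⟩)
    exact this
  exact IsIntegral.of_pow (by omega) h1

theorem mul_left {n : ℕ} {x : K} (hx : x ∈ R) : π ^ n * x ∈ R :=
  R.mul_mem (R.pow_mem h.mem n) hx

theorem mono {m n : ℕ} (hmn : m ≤ n) {x : K} (hx : π ^ m * x ∈ R) : π ^ n * x ∈ R := by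
  obtain ⟨k, rfl⟩ := Nat.exists_eq_add_of_le hmn
  rw [pow_add, mul_comm (π ^ m), mul_assoc]
  exact h.mul_left hx

theorem bounded_of {z : K} {k : ℕ} (hz : ∀ m : ℕ, π ^ k * z ^ m ∈ R) (m : ℕ) :
    π * z ^ m ∈ R := by
  apply h.of_pow (n := k + 1) (by omega)
  have e : (π * z ^ m) ^ (k + 1) = π * (π ^ k * z ^ (m * (k + 1))) := by
    rw [mul_pow, ← pow_mul, pow_succ' π k, mul_assoc]
  rw [e]
  exact R.mul_mem h.mem (hz _)

/-- the elements `x` such that all `π x ^ m` are in `R` -/
def ring : Subring K where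
  carrier := {x | ∀ m : ℕ, π * x ^ m ∈ R}
  mul_mem' := by
    intro x y hx hy m
    apply h.of_pow (n := 2) (by norm_num)
    have e : (π * (x * y) ^ m) ^ 2 = (π * x ^ (m * 2)) * (π * y ^ (m * 2)) := by ring
    rw [e]
    exact R.mul_mem (hx _) (hy _)
  one_mem' := by
    intro m
    rw [one_pow, mul_one]
    exact h.mem
  add_mem' := by
    intro x y hx hy m
    rw [add_pow, Finset.mul_sum]
    refine R.sum_mem fun k _ => ?_
    have e : π * (x ^ k * y ^ (m - k) * (m.choose k : K)) =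
        (m.choose k : K) * (π * (x ^ k * y ^ (m - k))) := by ring
    rw [e]
    refine R.mul_mem (natCast_mem R _) ?_
    apply h.of_pow (n := 2) (by norm_num)
    have e : (π * (x ^ k * y ^ (m - k))) ^ 2 = (π * x ^ (k * 2)) * (π * y ^ ((m - k) * 2)) := by
      ring
    rw [e]
    exact R.mul_mem (hx _) (hy _)
  zero_mem' := by
    intro m
    rcases Nat.eq_zero_or_pos m with rfl | hm
    · rw [pow_zero, mul_one]
      exact h.mem
    · rw [zero_pow (by omega), mul_zero]
      exact R.zero_mem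
  neg_mem' := by
    intro x hx m
    have e : π * (-x) ^ m = (-1) ^ m * (π * x ^ m) := by
      rw [neg_pow]
      ring
    rw [e]
    exact R.mul_mem (R.pow_mem (R.neg_mem R.one_mem) _) (hx m)

/-- values of polynomials at elements of `R[1/π]` -/
theorem poly_bound {t : K} {L : ℕ} (ht : π ^ L * t ∈ R) {D : ℕ} (r : R[X])
    (hr : r.natDegree ≤ D) : π ^ (L * D) * aeval t r ∈ R := by
  rw [aeval_eq_sum_range' (n := D + 1) (by omega), Finset.mul_sum]
  refine R.sum_mem fun k hk => ?_
  have hk' : k ≤ D := Nat.lt_succ_iff.1 (Finset.mem_range.1 hk)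
  have e : π ^ (L * D) * (r.coeff k • t ^ k) =
      π ^ (L * (D - k)) * ((r.coeff k : K) * (π ^ L * t) ^ k) := by
    rw [Algebra.smul_def]
    show π ^ (L * D) * ((r.coeff k : K) * t ^ k) = _
    have e2 : L * D = L * (D - k) + L * k := by
      rw [← mul_add]
      congr 1
      omega
    rw [e2, pow_add, mul_pow, ← pow_mul]
    ring
  rw [e]
  exact h.mul_left (R.mul_mem (r.coeff k).2 (R.pow_mem ht _))

end Pre

/-- quotients of polynomials by powers of `P`, with a bound for polynomials of small degree -/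
theorem expand' {P : R[X]} (hP : P.Monic) (t : K) (hz : aeval t P ≠ 0) {δ Λ : K}
    (hδ : ∀ r : R[X], r.natDegree ≤ P.natDegree → δ * aeval t r ∈ R) :
    ∀ (q : ℕ) (U : R[X]), U.natDegree ≤ P.natDegree * q →
      (∀ l ≤ q, Λ * ((aeval t P)⁻¹) ^ l ∈ R) →
      Λ * δ * (aeval t U * ((aeval t P)⁻¹) ^ q) ∈ R := by
  intro q
  induction q with
  | zero =>
    intro U hU hq
    have h2 := hq 0 le_rfl
    rw [pow_zero, mul_one] at h2
    rw [pow_zero, mul_one, mul_assoc]
    exact R.mul_mem h2 (hδ U (le_trans hU (by simp)))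
  | succ q ih =>
    intro U hU hq
    have h1 := modByMonic_add_div U P
    have h2 : (U /ₘ P).natDegree ≤ P.natDegree * q := by
      rw [natDegree_divByMonic _ hP]
      have : P.natDegree * (q + 1) = P.natDegree * q + P.natDegree := by ring
      omega
    have h3 := ih (U /ₘ P) h2 (fun l hl => hq l (by omega))
    have e : aeval t U = aeval t (U %ₘ P) + aeval t P * aeval t (U /ₘ P) := by
      rw [← map_mul, ← map_add, h1]
    have e2 : Λ * δ * (aeval t U * ((aeval t P)⁻¹) ^ (q + 1)) =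
        (Λ * ((aeval t P)⁻¹) ^ (q + 1)) * (δ * aeval t (U %ₘ P)) +
        Λ * δ * (aeval t (U /ₘ P) * ((aeval t P)⁻¹) ^ q) := by
      have hPz : aeval t P * (aeval t P)⁻¹ = 1 := mul_inv_cancel₀ hz
      rw [e]
      linear_combination (Λ * δ * aeval t (U /ₘ P) * ((aeval t P)⁻¹) ^ q) * hPz
    rw [e2]
    exact R.add_mem (R.mul_mem (hq _ le_rfl) (hδ _ (natDegree_modByMonic_le _ hP))) h3

/-- the factor `W (t)` does not help -/
theorem Pre.bad_scale (h : Pre R π) {t : K} {L : ℕ} (ht : π ^ L * t ∈ R) {P W : R[X]}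
    (hP : P.Monic) (hW : W.Monic) (hco : IsCoprime P W) (hz : aeval t P ≠ 0) {A : ℕ}
    (hb : ∀ m : ℕ, π ^ A * aeval t W * ((aeval t P)⁻¹) ^ m ∈ R) (m : ℕ) :
    π * ((aeval t P)⁻¹) ^ m ∈ R := by
  set D := max P.natDegree W.natDegree with hD
  refine h.bounded_of (k := A + L * D) (fun m => ?_) m
  obtain ⟨U, V, hUV, hU, hV⟩ := partial_fractions (hP.pow m) hW hco.pow_left
  rw [hP.natDegree_pow, mul_comm] at hV
  have h1 : π ^ A * aeval t W * π ^ (L * D) * (aeval t V * ((aeval t P)⁻¹) ^ m) ∈ R :=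
    expand' hP t hz (fun r hr => h.poly_bound ht r (le_trans hr (le_max_left _ _))) m V hV
      (fun l _ => hb l)
  have h2 : π ^ (L * D) * aeval t U ∈ R := h.poly_bound ht U (le_trans hU (le_max_right _ _))
  have h3 := congrArg (aeval t) hUV
  rw [map_add, map_mul, map_mul, map_pow, map_one] at h3
  have h4 : (aeval t P) ^ m * ((aeval t P)⁻¹) ^ m = 1 := by
    rw [← mul_pow, mul_inv_cancel₀ hz, one_pow]
  have e : π ^ (A + L * D) * ((aeval t P)⁻¹) ^ m = π ^ A * (π ^ (L * D) * aeval t U) +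
      π ^ A * aeval t W * π ^ (L * D) * (aeval t V * ((aeval t P)⁻¹) ^ m) := by
    rw [pow_add]
    linear_combination (-(π ^ A * π ^ (L * D) * ((aeval t P)⁻¹) ^ m)) * h3 +
      (π ^ A * π ^ (L * D) * aeval t U) * h4
  rw [e]
  exact R.add_mem (h.mul_left h2) h1

/-- peaks at many directions -/
theorem Pre.peaks_bad (h : Pre R π) {N : ℕ} (t : K) {L : ℕ} (ht : π ^ L * t ∈ R)
    (P : Fin N → R[X]) (hP : ∀ i, (P i).Monic)
    (hco : ∀ i j, i ≠ j → IsCoprime (P i) (P j))
    (hbad : ∀ i, ∃ m : ℕ, π * ((aeval t (P i))⁻¹) ^ m ∉ R) (n : ℕ) : Peaks R π n N := by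
  classical
  have hπ := h.ne
  set z : Fin N → K := fun i => (aeval t (P i))⁻¹ with hz
  have hne : ∀ i, aeval t (P i) ≠ 0 := by
    intro i h0
    obtain ⟨m, hm⟩ := hbad i
    rw [h0, inv_zero] at hm
    apply hm
    rcases Nat.eq_zero_or_pos m with rfl | hm
    · rw [pow_zero, mul_one]
      exact h.mem
    · rw [zero_pow (by omega), mul_zero]
      exact R.zero_mem
  -- the products of the other polynomials
  set G : R[X] := ∏ j, P j with hG
  set W : Fin N → R[X] := fun i => ∏ j ∈ Finset.univ.erase i, P j with hW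
  have hPW : ∀ i, G = P i * W i := fun i => (Finset.mul_prod_erase _ _ (Finset.mem_univ i)).symm
  have hWm : ∀ i, (W i).Monic := fun i => monic_prod_of_monic _ _ fun j _ => hP j
  have hdeg : ∀ i, G.natDegree = (P i).natDegree + (W i).natDegree := fun i => by
    rw [hPW i, (hP i).natDegree_mul (hWm i)]
  set M := L * G.natDegree with hM
  set γ : K := π ^ M * aeval t G with hγdef
  have hγ : γ ∈ R := h.poly_bound ht G le_rfl
  have hγ0 : γ ≠ 0 := by
    refine mul_ne_zero (pow_ne_zero _ hπ) ?_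
    rw [hG, map_prod]
    exact Finset.prod_ne_zero_iff.2 fun i _ => hne i
  have hγz : ∀ i, γ * z i = π ^ M * aeval t (W i) := by
    intro i
    rw [hγdef, hPW i, map_mul]
    have : aeval t (P i) * z i = 1 := mul_inv_cancel₀ (hne i)
    linear_combination (π ^ M * aeval t (W i)) * this
  have hc0 : ∀ i, γ * z i ∈ R := by
    intro i
    rw [hγz i]
    exact h.poly_bound ht _ (by rw [hdeg i]; omega)
  have hc : ∀ i, ∀ k < (P i).natDegree, γ * (t ^ k * (aeval t (P i))⁻¹) ∈ R := by
    intro i k hk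
    have e : γ * (t ^ k * (aeval t (P i))⁻¹) = π ^ M * aeval t (X ^ k * W i) := by
      rw [map_mul, map_pow, aeval_X]
      have := hγz i
      linear_combination t ^ k * this
    rw [e]
    refine h.poly_bound ht _ ?_
    refine le_trans natDegree_mul_le ?_
    rw [natDegree_X_pow, hdeg i]
    omega
  set Λ : K := (π ^ n) ^ 4 * γ ^ 4 with hΛ
  have hΛR : Λ ∈ R := R.mul_mem (R.pow_mem (R.pow_mem h.mem _) _) (R.pow_mem hγ _)
  have hΛ0 : Λ ≠ 0 := mul_ne_zero (pow_ne_zero _ (pow_ne_zero _ hπ)) (pow_ne_zero _ hγ0)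
  have hm : ∀ i, ∃ m : ℕ, (∀ k ≤ m, Λ * z i ^ k ∈ R) ∧ (π ^ n) ^ 4 * γ ^ 3 * z i ^ m ∉ R := by
    intro i
    have hex : ∃ m : ℕ, Λ * z i ^ m ∉ R := by
      by_contra hcon
      push Not at hcon
      obtain ⟨m, hm⟩ := hbad i
      apply hm
      refine h.bad_scale ht (hP i) ((hWm i).pow 4) ?_ (hne i) (A := n * 4 + M * 4) (fun m => ?_) m
      · exact (IsCoprime.prod_right fun j hj => hco i j (Finset.ne_of_mem_erase hj).symm).pow_right
      · have e : π ^ (n * 4 + M * 4) * aeval t (W i ^ 4) * ((aeval t (P i))⁻¹) ^ m =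
            Λ * z i ^ (m + 4) := by
          have e1 : γ ^ 4 * z i ^ 4 = π ^ (M * 4) * aeval t (W i) ^ 4 := by
            rw [← mul_pow, hγz i, mul_pow, ← pow_mul]
          rw [hΛ, map_pow, pow_add (z i) m 4, pow_add, pow_mul π n 4]
          linear_combination (-((π ^ n) ^ 4 * z i ^ m)) * e1
        rw [e]
        exact hcon _
    have h1 := Nat.find_spec hex
    have h2 : ∀ k < Nat.find hex, Λ * z i ^ k ∈ R := fun k hk => by
      have := Nat.find_min hex hk
      push Not at this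
      exact this
    have h3 : Nat.find hex ≠ 0 := by
      intro h0
      rw [h0, pow_zero, mul_one] at h1
      exact h1 hΛR
    obtain ⟨m, hm⟩ : ∃ m, Nat.find hex = m + 1 := ⟨Nat.find hex - 1, by omega⟩
    rw [hm] at h1 h2
    refine ⟨m, fun k hk => h2 k (by omega), fun hcon => h1 ?_⟩
    have e : Λ * z i ^ (m + 1) = ((π ^ n) ^ 4 * γ ^ 3 * z i ^ m) * (γ * z i) := by
      rw [hΛ]
      ring
    rw [e]
    exact R.mul_mem hcon (hc0 i)
  choose m hm1 hm2 using hm
  refine ⟨fun i => (π ^ n) ^ 3 * γ ^ 3 * z i ^ m i, fun i j hij => ?_, fun i hcon => ?_⟩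
  · have hco' : IsCoprime ((P i) ^ m i) ((P j) ^ m j) := (hco i j hij).pow
    obtain ⟨U, V, hUV, hU, hV⟩ := partial_fractions ((hP i).pow (m i)) ((hP j).pow (m j)) hco'
    rw [(hP j).natDegree_pow, mul_comm] at hU
    rw [(hP i).natDegree_pow, mul_comm] at hV
    have h1 : Λ * γ * (aeval t U * z j ^ m j) ∈ R :=
      expand (hP j) t (hne j) hγ (hc j) (m j) U hU (hm1 j)
    have h2 : Λ * γ * (aeval t V * z i ^ m i) ∈ R :=
      expand (hP i) t (hne i) hγ (hc i) (m i) V hV (hm1 i)
    have h3 : z i ^ m i * z j ^ m j = aeval t U * z j ^ m j + aeval t V * z i ^ m i := by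
      have h4 := congrArg (aeval t) hUV
      rw [map_add, map_mul, map_mul, map_pow, map_pow, map_one] at h4
      have h5 : (aeval t (P i)) ^ m i * z i ^ m i = 1 := by
        rw [← mul_pow, mul_inv_cancel₀ (hne i), one_pow]
      have h6 : (aeval t (P j)) ^ m j * z j ^ m j = 1 := by
        rw [← mul_pow, mul_inv_cancel₀ (hne j), one_pow]
      calc z i ^ m i * z j ^ m j = (aeval t U * aeval t (P i) ^ m i +
            aeval t V * aeval t (P j) ^ m j) * (z i ^ m i * z j ^ m j) := by rw [h4, one_mul]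
        _ = aeval t U * ((aeval t (P i)) ^ m i * z i ^ m i) * z j ^ m j +
            aeval t V * ((aeval t (P j)) ^ m j * z j ^ m j) * z i ^ m i := by ring
        _ = _ := by rw [h5, h6, mul_one, mul_one]
    refine ⟨π ^ n * (γ * (Λ * γ * (z i ^ m i * z j ^ m j))), ?_, ?_⟩
    · apply h.mul_left
      apply R.mul_mem hγ
      rw [h3, mul_add]
      exact R.add_mem h1 h2
    · rw [hΛ]
      ring
  · apply hm2 i
    apply h.of_pow (n := 2) (by norm_num)
    have e : ((π ^ n) ^ 4 * γ ^ 3 * z i ^ m i) ^ 2 =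
        π ^ n * (π ^ n * ((π ^ n) ^ 3 * γ ^ 3 * z i ^ m i) ^ 2) := by ring
    rw [e]
    exact h.mul_left hcon

/-- quotients by a good polynomial are power bounded -/
theorem Pre.good (h : Pre R π) {P : R[X]} (hP : P.Monic) {t : K} {L : ℕ} (ht : π ^ L * t ∈ R)
    (hz : aeval t P ≠ 0) (hg : ∀ m : ℕ, π * ((aeval t P)⁻¹) ^ m ∈ R) (U : R[X])
    (hU : U.natDegree ≤ P.natDegree) : aeval t U * (aeval t P)⁻¹ ∈ h.ring := by
  intro m
  refine h.bounded_of (k := 1 + L * P.natDegree) (fun m => ?_) m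
  rw [mul_pow, ← map_pow, pow_add, pow_one]
  refine expand' hP t hz (fun r hr => h.poly_bound ht r hr) m _ ?_ (fun l _ => hg l)
  refine le_trans natDegree_pow_le ?_
  rw [mul_comm]
  exact Nat.mul_le_mul_right _ hU

end Pool.Agent.H48.TP
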