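import Pool.Agent.H48.TP.Loc

/-!
# The complete integral closure is bounded
-/

set_option autoImplicit false

namespace Pool.Agent.H48.TP

open Polynomial FirstOrder FirstOrder.Language FirstOrder.Ring

variable {K : Type} [Field K] {R : Subring K} {π : K}

/-- peaks at many radii -/
theorem Pre.peaks_good (h : Pre R π) {N : ℕ} (x : K) {L : ℕ} (hx : π ^ L * x ∈ R) (s : Fin N → ℕ)
    (h1 : ∀ i : Fin N, x / π ^ (i : ℕ) ∉ R) (h2 : ∀ i : Fin N, (x / π ^ (i : ℕ))⁻¹ ∉ R)
    (hg : ∀ (i : Fin N) (m : ℕ), π * ((aeval (x / π ^ (i : ℕ)) (Pp R (s i)))⁻¹) ^ m ∈ R)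
    {n : ℕ} (hn : 1 ≤ n) : Peaks R π n N := by
  classical
  have hπ := h.ne
  set t : Fin N → K := fun i => x / π ^ (i : ℕ) with ht
  have hPm : ∀ i, (Pp R (s i)).Monic := fun i => (Qp_monic (A := R) (s i)).2.1
  have hQm : ∀ i, (Qp R (s i)).Monic := fun i => (Qp_monic (A := R) (s i)).1
  have hdeg : ∀ i, (Pp R (s i)).natDegree = (Qp R (s i)).natDegree + 1 :=
    fun i => (Qp_monic (A := R) (s i)).2.2
  -- a root of a monic polynomial is in `R`
  have hroot : ∀ i, ∀ r ∈ R, aeval (t i) (Pp R (s i)) ≠ r := by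
    intro i r hr h0
    apply h1 i
    apply h.ic
    refine ⟨Pp R (s i) - C ⟨r, hr⟩, ?_, ?_⟩
    · apply (hPm i).sub_of_left
      refine lt_of_le_of_lt degree_C_le ?_
      rw [degree_eq_natDegree (hPm i).ne_zero, hdeg]
      exact_mod_cast Nat.succ_pos _
    · rw [eval₂_sub, eval₂_C]
      have : eval₂ (algebraMap R K) (t i) (Pp R (s i)) = r := h0
      show eval₂ (algebraMap R K) (t i) (Pp R (s i)) - r = 0
      rw [this, sub_self]
  have hne : ∀ i, aeval (t i) (Pp R (s i)) ≠ 0 := fun i => hroot i 0 R.zero_mem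
  have ht0 : ∀ i, t i ≠ 0 := by
    intro i h0
    apply h1 i
    have : x / π ^ (i : ℕ) = 0 := h0
    rw [this]
    exact R.zero_mem
  set z : Fin N → K := fun i => (aeval (t i) (Pp R (s i)))⁻¹ with hz
  set q : Fin N → K := fun i => aeval (t i) (Qp R (s i)) with hq
  have hPq : ∀ i, aeval (t i) (Pp R (s i)) = t i * q i + 1 := by
    intro i
    rw [Pp, map_add, map_mul, aeval_X, map_one]
  have hzq : ∀ i, 1 - z i = t i * q i * z i := by
    intro i
    have h3 : (t i * q i + 1) * z i = 1 := by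
      rw [← hPq i]
      exact mul_inv_cancel₀ (hne i)
    linear_combination -h3
  have hz' : ∀ i, z i ∈ h.ring := fun i m => hg i m
  have htR : ∀ i : Fin N, π ^ (L + (i : ℕ)) * t i ∈ R := fun i => by
    have e : π ^ (L + (i : ℕ)) * t i = π ^ L * x := by
      simp only [ht]
      rw [pow_add]
      field_simp
    rw [e]
    exact hx
  have hqz : ∀ i, q i * z i ∈ h.ring := fun i =>
    h.good (hPm i) (htR i) (hne i) (hg i) _ (by rw [hdeg]; omega)
  have htz : ∀ i, t i * z i ∈ h.ring := fun i => by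
    have := h.good (hPm i) (htR i) (hne i) (hg i) X (by rw [hdeg]; exact le_trans natDegree_X_le (by omega))
    rwa [aeval_X] at this
  have htqz : ∀ i, t i * q i * z i ∈ h.ring := fun i => by
    rw [← hzq i]
    exact h.ring.sub_mem h.ring.one_mem (hz' i)
  set w : Fin N → K := fun i => z i * (1 - z i) with hw
  refine ⟨fun i => w i ^ (3 * n + 2) / π ^ n, ?_, fun i hcon => ?_⟩
  · -- symmetric in `i`, `j`
    have key : ∀ i j : Fin N, i < j → ∃ r ∈ R,
        w i ^ (3 * n + 2) / π ^ n * (w j ^ (3 * n + 2) / π ^ n) = π ^ n * r := by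
      intro i j hij
      obtain ⟨k, hk⟩ : ∃ k : ℕ, (j : ℕ) = i + (k + 1) := ⟨(j : ℕ) - i - 1, by
        have : (i : ℕ) < j := hij
        omega⟩
      have htij : t i = π ^ (k + 1) * t j := by
        simp only [ht]
        rw [hk]
        field_simp
        ring
      have hww : w i * w j = π ^ (k + 1) * (z i * (q i * z i) * (t j * z j) * (t j * q j * z j)) := by
        simp only [hw]
        rw [hzq i, hzq j]
        conv_lhs => rw [htij]
        ring
      have ho : z i * (q i * z i) * (t j * z j) * (t j * q j * z j) ∈ h.ring :=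
        h.ring.mul_mem (h.ring.mul_mem (h.ring.mul_mem (hz' i) (hqz i)) (htz j)) (htqz j)
      generalize z i * (q i * z i) * (t j * z j) * (t j * q j * z j) = o at hww ho
      refine ⟨π ^ (k * (3 * n + 2) + 1) * (π * o ^ (3 * n + 2)), h.mul_left (ho _), ?_⟩
      have e : w i ^ (3 * n + 2) / π ^ n * (w j ^ (3 * n + 2) / π ^ n) =
          (w i * w j) ^ (3 * n + 2) / (π ^ n * π ^ n) := by
        rw [mul_pow (w i) (w j), div_mul_div_comm]
      rw [e, hww]
      rw [div_eq_iff (mul_ne_zero (pow_ne_zero _ hπ) (pow_ne_zero _ hπ))]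
      ring
    intro i j hij
    rcases lt_or_gt_of_ne hij with h3 | h3
    · exact key i j h3
    · obtain ⟨r, hr, e⟩ := key j i h3
      exact ⟨r, hr, by rw [← e]; ring⟩
  · have e1 : w i ^ ((3 * n + 2) * 2) = π ^ n * (π ^ n * (w i ^ (3 * n + 2) / π ^ n) ^ 2) := by
      field_simp
      ring
    have hwR : w i ∈ R := by
      apply h.of_pow (n := (3 * n + 2) * 2) (by omega)
      rw [e1]
      exact h.mul_left hcon
    have hyR : z i ∈ R := by
      apply h.ic
      refine ⟨Polynomial.X ^ 2 + (-Polynomial.X + Polynomial.C ⟨w i, hwR⟩), ?_, ?_⟩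
      · apply Polynomial.monic_X_pow_add
        refine lt_of_le_of_lt (Polynomial.degree_add_le _ _) (max_lt ?_ ?_)
        · rw [Polynomial.degree_neg]
          exact lt_of_le_of_lt Polynomial.degree_X_le (by norm_num)
        · exact lt_of_le_of_lt Polynomial.degree_C_le (by norm_num)
      · simp only [Polynomial.eval₂_add, Polynomial.eval₂_neg, Polynomial.eval₂_X_pow,
          Polynomial.eval₂_X, Polynomial.eval₂_C]
        show z i ^ 2 + (-z i + w i) = 0
        simp only [hw]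
        ring
    have h4 := h.con.conn (z i) hyR ((3 * n + 2) * 2) (by
      show π⁻¹ * (w i) ^ ((3 * n + 2) * 2) ∈ R
      rw [e1]
      have : π⁻¹ * (π ^ n * (π ^ n * (w i ^ (3 * n + 2) / π ^ n) ^ 2)) =
          π ^ (n - 1) * (π ^ n * (w i ^ (3 * n + 2) / π ^ n) ^ 2) := by
        obtain ⟨n', rfl⟩ : ∃ n', n = n' + 1 := ⟨n - 1, by omega⟩
        rw [Nat.add_sub_cancel, ← mul_assoc, pow_succ' π n', inv_mul_cancel_left₀ hπ]
      rw [this]
      exact h.mul_left hcon)
    rcases h4 with ⟨h5, h6⟩ | ⟨h5, h6⟩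
    · -- `P (t i)` is in `R`
      have h7 : (z i)⁻¹ = aeval (t i) (Pp R (s i)) := inv_inv _
      exact hroot i _ h6 h7.symm
    · -- `1 / t i` is integral over `R`
      apply h2 i
      apply h.ic
      set v := (t i)⁻¹ with hv
      set ρ : K := z i * (1 - z i)⁻¹ with hρ
      have hρR : ρ ∈ R := R.mul_mem hyR h6
      have h7 : ρ * (t i * q i) = 1 := by
        rw [hρ]
        have : z i * (1 - z i)⁻¹ * (t i * q i) = (1 - z i)⁻¹ * (t i * q i * z i) := by ring
        rw [this, ← hzq i]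
        exact inv_mul_cancel₀ h5
      set d := (Qp R (s i)).natDegree with hd
      have h8 : q i = ∑ k ∈ Finset.range (d + 1), ((Qp R (s i)).coeff k : K) * (t i) ^ k := by
        rw [hq]
        show aeval (t i) (Qp R (s i)) = _
        rw [aeval_eq_sum_range]
        rfl
      refine ⟨Polynomial.X ^ (d + 1) + (-(C (⟨ρ, hρR⟩ : R) *
        ∑ k ∈ Finset.range (d + 1), C ((Qp R (s i)).coeff k) * X ^ (d - k))), ?_, ?_⟩
      · apply Polynomial.monic_X_pow_add
        rw [degree_neg, ← smul_eq_C_mul]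
        refine lt_of_le_of_lt (degree_smul_le _ _) ?_
        refine lt_of_le_of_lt (degree_sum_le _ _) ?_
        rw [Finset.sup_lt_iff (by exact WithBot.bot_lt_coe _)]
        intro k _
        refine lt_of_le_of_lt (degree_C_mul_X_pow_le _ _) ?_
        have : d - k < d + 1 := by omega
        exact_mod_cast this
      · simp only [eval₂_add, eval₂_neg, eval₂_mul, eval₂_X_pow, eval₂_C, eval₂_finsetSum]
        have h9 : ∀ k ∈ Finset.range (d + 1), (algebraMap R K) ((Qp R (s i)).coeff k) * v ^ (d - k) =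
            ((Qp R (s i)).coeff k : K) * (t i) ^ k * v ^ d := by
          intro k hk
          have hk' : k ≤ d := Nat.lt_succ_iff.1 (Finset.mem_range.1 hk)
          have : v ^ d = v ^ k * v ^ (d - k) := by
            rw [← pow_add]
            congr 1
            omega
          rw [this, hv, mul_assoc, ← mul_assoc (t i ^ k), ← mul_pow, mul_inv_cancel₀ (ht0 i),
            one_pow, one_mul]
          rfl
        rw [Finset.sum_congr rfl h9, ← Finset.sum_mul, ← h8]
        show v ^ (d + 1) + -(ρ * (q i * v ^ d)) = 0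
        have h10 : ρ * q i = v := by
          rw [hv]
          apply eq_inv_of_mul_eq_one_left
          rw [← h7]
          ring
        rw [← mul_assoc, h10]
        ring

/-- If there are not `N` peaks then elements of `R[1/π]` or their inverses are in a multiple of `R`. -/
theorem Pre.dichotomy (h : Pre R π) {N n : ℕ} (hn : 1 ≤ n) (hno : ¬ Peaks R π n N) (x : K) {L : ℕ}
    (hx : π ^ L * x ∈ R) : x ∈ R ∨ π ^ N * x⁻¹ ∈ R := by
  by_contra hcon
  push Not at hcon
  obtain ⟨hx1, hx2⟩ := hcon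
  have hπ := h.ne
  have h1 : ∀ i : Fin N, x / π ^ (i : ℕ) ∉ R := by
    intro i hi
    apply hx1
    have : x = π ^ (i : ℕ) * (x / π ^ (i : ℕ)) := by field_simp
    rw [this]
    exact h.mul_left hi
  have h2 : ∀ i : Fin N, (x / π ^ (i : ℕ))⁻¹ ∉ R := by
    intro i hi
    apply hx2
    refine h.mono (le_of_lt i.2) ?_
    have : π ^ (i : ℕ) * x⁻¹ = (x / π ^ (i : ℕ))⁻¹ := by
      rw [inv_div, div_eq_mul_inv]
    rw [this]
    exact hi
  by_cases hb : ∃ i : Fin N, ∀ j : Fin N, ∃ m : ℕ,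
      π * ((aeval (x / π ^ (i : ℕ)) (Pp R (j : ℕ)))⁻¹) ^ m ∉ R
  · obtain ⟨i, hi⟩ := hb
    have hxi : π ^ (L + (i : ℕ)) * (x / π ^ (i : ℕ)) ∈ R := by
      have e : π ^ (L + (i : ℕ)) * (x / π ^ (i : ℕ)) = π ^ L * x := by
        rw [pow_add]
        field_simp
      rw [e]
      exact hx
    refine hno (h.peaks_bad (x / π ^ (i : ℕ)) hxi (fun j => Pp R (j : ℕ))
      (fun j => (Qp_monic (A := R) _).2.1) (fun i j hij => Pp_coprime ?_) hi n)
    exact fun h => hij (Fin.ext h)
  · push Not at hb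
    choose s hs using hb
    exact hno (h.peaks_good x hx (fun i => (s i : ℕ)) h1 h2 hs hn)

/-- In an NIP field a definable bounded neighbourhood bounds the number of peaks. -/
theorem Pre.exists_no_peaks [CompatibleRing K] (hK : NIPField K) (B : Set K) (hB : DefSet B)
    {n : ℕ} (h : Pre R π) (hn : Nbhd R π n B) : ∃ N, ¬ Peaks R π n N := by
  classical
  obtain ⟨p, ψ, c, hψ⟩ := hB
  obtain ⟨N, hN⟩ := hK 1 (p + 1) (mulF ψ)
  refine ⟨N, ?_⟩
  rintro ⟨g, hg1, hg2⟩
  have hpat := hN (fun i _ => g i) (fun J => Fin.cons (∑ j ∈ Finset.univ \ J, g j) c)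
  obtain ⟨i, J, hiJ⟩ := hpat
  apply hiJ
  rw [realize_mulF, ← hψ]
  have hsum : ∀ s : Finset (Fin N), i ∉ s → ∃ r ∈ R, g i * ∑ j ∈ s, g j = π ^ n * r := by
    intro s hs
    choose r hr e using fun j (hj : i ≠ j) => hg1 i j hj
    refine ⟨∑ j ∈ s.attach, r j (fun h => hs (h ▸ j.2)), R.sum_mem fun j _ => hr _ _, ?_⟩
    rw [Finset.mul_sum, Finset.mul_sum, ← Finset.sum_attach]
    exact Finset.sum_congr rfl fun j _ => e _ _
  constructor
  · intro h1
    by_contra h2
    have h3 : i ∈ Finset.univ \ J := by simpa using h2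
    rw [← Finset.add_sum_erase _ _ h3, mul_add] at h1
    obtain ⟨r, hr, e⟩ := hsum ((Finset.univ \ J).erase i) (Finset.notMem_erase i _)
    rw [e] at h1
    have h4 := hn.2 _ h1
    apply hg2 i
    have e2 : π ^ n * g i ^ 2 = π ^ n * (g i * g i + π ^ n * r) - π ^ n * (π ^ n * r) := by ring
    rw [e2]
    exact R.sub_mem h4 (h.mul_left (h.mul_left hr))
  · intro h1
    obtain ⟨r, hr, e⟩ := hsum (Finset.univ \ J) (by simpa using h1)
    rw [e]
    exact hn.1 r hr

/-- If some element of the field is not almost integral then the complete integral closure is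
bounded. -/
theorem bounded_closure [CompatibleRing K] (hK : NIPField K)
    (hic : ∀ x : K, IsIntegral R x → x ∈ R) (hfrac : ∀ x : K, ∃ c ∈ R, c ≠ 0 ∧ c * x ∈ R)
    (hconn : ∃ ρ, Conn R ρ) (hB : Bdd R) {y₀ : K} (hy₀ : ¬ AlmInt R y₀) :
    ∃ κ ∈ R, κ ≠ 0 ∧ ∀ x : K, AlmInt R x → κ * x ∈ R := by
  classical
  obtain ⟨ρ, hρ⟩ := hconn
  obtain ⟨B, hB, ⟨a, ha0, ha⟩, b, hb0, hb⟩ := hB
  obtain ⟨c, hc, hc0, hcab⟩ := common hfrac {a⁻¹, b⁻¹}
  have hca := hcab a⁻¹ (by simp)
  have hcb := hcab b⁻¹ (by simp)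
  obtain ⟨a₀, ha₀, ha₀0, hay⟩ := hfrac y₀
  set π : K := ρ * (c * a₀) with hπ
  have hπc : Conn R π := hρ.mul (R.mul_mem hc ha₀) (mul_ne_zero hc0 ha₀0)
  -- the inverse of `π` is not almost integral
  have hπi : ¬ AlmInt R π⁻¹ := by
    rintro ⟨d, hd, hd0, h⟩
    apply hy₀
    refine ⟨d, hd, hd0, fun m => ?_⟩
    have e : d * y₀ ^ m = (ρ * c * (a₀ * y₀)) ^ m * (d * π⁻¹ ^ m) := by
      have hρ0 := hρ.ne
      have e2 : y₀ = ρ * c * (a₀ * y₀) * π⁻¹ := by
        rw [hπ]
        field_simp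
      conv_lhs => rw [e2]
      rw [mul_pow (ρ * c * (a₀ * y₀)) π⁻¹]
      ring
    rw [e]
    exact R.mul_mem (R.pow_mem (R.mul_mem (R.mul_mem hρ.mem hc) hay) _) (h m)
  refine ⟨π, hπc.mem, hπc.ne, ?_⟩
  rintro x ⟨d, hd, hd0, hx⟩
  by_contra hcon
  have hx0 : x ≠ 0 := by
    rintro rfl
    rw [mul_zero] at hcon
    exact hcon R.zero_mem
  -- the scale `π d`
  have h : Pre R (π * d) := ⟨hic, hπc.mul hd hd0⟩
  have hn : Nbhd R (π * d) 1 B := by
    refine ⟨fun y hy => ?_, fun y hy => ?_⟩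
    · have e : (π * d) ^ 1 * y = a * ((c * a⁻¹) * (ρ * (a₀ * (d * y)))) := by
        rw [hπ]
        field_simp
      rw [e]
      exact ha _ (R.mul_mem hca (R.mul_mem hρ.mem (R.mul_mem ha₀ (R.mul_mem hd hy))))
    · have e : (π * d) ^ 1 * y = (c * b⁻¹) * (b * y) * (ρ * (a₀ * d)) := by
        rw [hπ]
        field_simp
      rw [e]
      exact R.mul_mem (R.mul_mem hcb (hb y hy)) (R.mul_mem hρ.mem (R.mul_mem ha₀ hd))
  obtain ⟨N, hN⟩ := h.exists_no_peaks hK B hB hn
  have hdich := fun (y : K) {L : ℕ} (hy : (π * d) ^ L * y ∈ R) => h.dichotomy le_rfl hN y hy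
  apply hπi
  refine ⟨(π * d) ^ N * d, R.mul_mem (R.pow_mem h.mem N) hd,
    mul_ne_zero (pow_ne_zero _ h.ne) hd0, fun k => ?_⟩
  rcases Nat.eq_zero_or_pos k with rfl | hk
  · rw [pow_zero, mul_one]
    exact R.mul_mem (R.pow_mem h.mem N) hd
  have h1 : (π * x) ^ k ∉ R := fun h1 => hcon (h.of_pow hk h1)
  have h2 : (π * d) ^ 1 * (π * x) ^ k ∈ R := by
    have e : (π * d) ^ 1 * (π * x) ^ k = π ^ (k + 1) * (d * x ^ k) := by ring
    rw [e]
    exact R.mul_mem (R.pow_mem hπc.mem _) (hx k)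
  have h3 := (hdich _ h2).resolve_left h1
  have e : (π * d) ^ N * d * π⁻¹ ^ k = (π * d) ^ N * ((π * x) ^ k)⁻¹ * (d * x ^ k) := by
    have := hπc.ne
    rw [mul_pow π x, inv_pow]
    field_simp
  rw [e]
  exact R.mul_mem h3 (hx k)

end Pool.Agent.H48.TP
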