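import Pool.Agent.H48.TP.Hens
import Pool.Agent.H48.Fml

/-!
# Definable bounded neighbourhoods of zero in NIP fields
-/

set_option autoImplicit false

namespace Pool.Agent.H48.TP

open Polynomial FirstOrder FirstOrder.Language FirstOrder.Ring

variable {K : Type} [Field K] {R : Subring K} {π : K}

/-- definable with parameters in the language of rings -/
def DefSet [CompatibleRing K] (B : Set K) : Prop :=
  ∃ (p : ℕ) (ψ : FirstOrder.Language.ring.Formula (Fin 1 ⊕ Fin p)) (c : Fin p → K),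
    ∀ x : K, x ∈ B ↔ ψ.Realize (Sum.elim (fun _ => x) c)

/-- `B` lies between `π ^ n R` and `π ^ (- n) R` -/
def Nbhd (R : Subring K) (π : K) (n : ℕ) (B : Set K) : Prop :=
  (∀ x ∈ R, π ^ n * x ∈ B) ∧ ∀ x ∈ B, π ^ n * x ∈ R

/-- the formula `ψ (x y, c)` -/
noncomputable def mulF {p : ℕ} (ψ : Language.ring.Formula (Fin 1 ⊕ Fin p)) :
    Language.ring.Formula (Fin 1 ⊕ Fin (p + 1)) :=
  BoundedFormula.subst ψ (Sum.elim (fun _ => Term.var (Sum.inl 0) * Term.var (Sum.inr 0))
    (fun j => Term.var (Sum.inr j.succ)))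

theorem realize_mulF [CompatibleRing K] {p : ℕ} (ψ : Language.ring.Formula (Fin 1 ⊕ Fin p))
    (x y : K) (c : Fin p → K) :
    (mulF ψ).Realize (Sum.elim (fun _ => x) (Fin.cons y c : Fin (p + 1) → K)) ↔
      ψ.Realize (Sum.elim (fun _ => x * y) c) := by
  rw [mulF, Formula.Realize, BoundedFormula.realize_subst, ← Formula.Realize]
  have e : (fun a : Fin 1 ⊕ Fin p => (Sum.elim (fun _ => (Term.var (Sum.inl 0) *
      Term.var (Sum.inr 0) : Language.ring.Term (Fin 1 ⊕ Fin (p + 1))))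
      (fun j => Term.var (Sum.inr j.succ)) a).realize
      (Sum.elim (fun _ => x) (Fin.cons y c : Fin (p + 1) → K))) =
      Sum.elim (fun _ => x * y) c := by
    funext a
    rcases a with a | a
    · simp
    · simp
  rw [e]

/-- In an NIP field a definable bounded neighbourhood bounds the number of peaks. -/
theorem exists_no_peaks [CompatibleRing K] (hK : NIPField K) (B : Set K) (hB : DefSet B) {n : ℕ}
    (h : Tate R π) (hn : Nbhd R π n B) : ∃ N, ¬ Peaks R π n N := by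
  classical
  obtain ⟨p, ψ, c, hψ⟩ := hB
  obtain ⟨N, hN⟩ := hK 1 (p + 1) (mulF ψ)
  refine ⟨N, ?_⟩
  rintro ⟨g, hg1, hg2⟩
  have hpat := hN (fun i _ => g i) (fun J => Fin.cons (∑ j ∈ Finset.univ \ J, g j) c)
  obtain ⟨i, J, hiJ⟩ := hpat
  apply hiJ
  rw [realize_mulF, ← hψ]
  have hsum : ∀ s : Finset (Fin N), i ∉ s → ∃ r ∈ R, g i * ∑ j ∈ s, g j = π ^ n * r := by
    intro s hs
    choose r hr e using fun j (hj : i ≠ j) => hg1 i j hj
    refine ⟨∑ j ∈ s.attach, r j (fun h => hs (h ▸ j.2)), R.sum_mem fun j _ => hr _ _, ?_⟩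
    rw [Finset.mul_sum, Finset.mul_sum, ← Finset.sum_attach]
    exact Finset.sum_congr rfl fun j _ => e _ _
  constructor
  · intro h1
    by_contra h2
    have h3 : i ∈ Finset.univ \ J := by simpa using h2
    rw [← Finset.add_sum_erase _ _ h3, mul_add] at h1
    obtain ⟨r, hr, e⟩ := hsum ((Finset.univ \ J).erase i) (Finset.notMem_erase i _)
    rw [e] at h1
    have h4 := hn.2 _ h1
    apply hg2 i
    have e2 : π ^ n * g i ^ 2 = π ^ n * (g i * g i + π ^ n * r) - π ^ n * (π ^ n * r) := by ring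
    rw [e2]
    exact R.sub_mem h4 (h.mul_left (h.mul_left hr))
  · intro h1
    obtain ⟨r, hr, e⟩ := hsum (Finset.univ \ J) (by simpa using h1)
    rw [e]
    exact hn.1 r hr

theorem Nbhd.succ (h : Tate R π) {n : ℕ} {B : Set K} (hn : Nbhd R π n B) : Nbhd R π (n + 1) B := by
  refine ⟨fun x hx => ?_, fun x hx => ?_⟩
  · rw [pow_succ, mul_assoc]
    exact hn.1 _ (R.mul_mem h.mem hx)
  · exact h.mono (Nat.le_succ n) (hn.2 x hx)

theorem vtopology [CompatibleRing K] (hK : NIPField K) (B : Set K) (hB : DefSet B) {n : ℕ}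
    (h : Tate R π) (hn : Nbhd R π n B) :
    ∃ M : ℕ, 1 ≤ M ∧ ∀ x : K, x ∈ R ∨ π ^ M * x⁻¹ ∈ R := by
  obtain ⟨N, hN⟩ := exists_no_peaks hK B hB h (hn.succ h)
  have hN1 : 1 ≤ N := by
    by_contra hcon
    have : N = 0 := by omega
    subst this
    exact hN ⟨Fin.elim0, fun i => i.elim0, fun i => i.elim0⟩
  exact ⟨N, hN1, h.dichotomy (by omega) hN⟩

end Pool.Agent.H48.TP
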