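import Mathlib

/-!
# Peak functions for integrally closed local domains which are not nearly valuation rings
-/

set_option autoImplicit false

namespace Pool.Agent.H48.TP

variable {K : Type} [Field K]

/-- `R` is integrally closed in its field of fractions `K`, its complete integral closure is bounded
(by `π⁻¹`), `π` is not a unit, and if a power of `y (1 - y)` is divisible by `π` then `y` or `1 - y`
is a unit (for example `R` is local) -/
structure Tate (R : Subring K) (π : K) : Prop where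
  ic : ∀ x : K, IsIntegral R x → x ∈ R
  mem : π ∈ R
  ne : π ≠ 0
  inv : π⁻¹ ∉ R
  frac : ∀ x : K, ∃ c ∈ R, c ≠ 0 ∧ c * x ∈ R
  bdd : ∀ x : K, (∃ c ∈ R, c ≠ 0 ∧ ∀ m : ℕ, c * x ^ m ∈ R) → ∀ m : ℕ, π * x ^ m ∈ R
  conn : ∀ y ∈ R, ∀ k : ℕ, π⁻¹ * (y * (1 - y)) ^ k ∈ R →
    (y ≠ 0 ∧ y⁻¹ ∈ R) ∨ (1 - y ≠ 0 ∧ (1 - y)⁻¹ ∈ R)

variable {R : Subring K} {π : K}

namespace Tate

variable (h : Tate R π)

include h

theorem of_pow {x : K} {n : ℕ} (hn : 1 ≤ n) (hx : x ^ n ∈ R) : x ∈ R := by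
  apply h.ic
  have h1 : IsIntegral R (x ^ n) := by
    have := isIntegral_algebraMap (R := R) (A := K) (x := ⟨x ^ n, hx⟩)
    exact this
  exact IsIntegral.of_pow (by omega) h1

theorem mul_left {n : ℕ} {x : K} (hx : x ∈ R) : π ^ n * x ∈ R :=
  R.mul_mem (R.pow_mem h.mem n) hx

theorem mono {m n : ℕ} (hmn : m ≤ n) {x : K} (hx : π ^ m * x ∈ R) : π ^ n * x ∈ R := by
  obtain ⟨k, rfl⟩ := Nat.exists_eq_add_of_le hmn
  rw [pow_add, mul_comm (π ^ m), mul_assoc]
  exact h.mul_left hx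

/-- `z` is power bounded -/
theorem bounded_of {z : K} {c : K} (hc : c ∈ R) (hc0 : c ≠ 0) (hz : ∀ m : ℕ, c * z ^ m ∈ R)
    (m : ℕ) : π * z ^ m ∈ R := h.bdd z ⟨c, hc, hc0, hz⟩ m

/-- the complete integral closure of `R` -/
def ring : Subring K where
  carrier := {x | ∀ m : ℕ, π * x ^ m ∈ R}
  mul_mem' := by
    intro x y hx hy m
    apply h.of_pow (n := 2) (by norm_num)
    have e : (π * (x * y) ^ m) ^ 2 = (π * x ^ (m * 2)) * (π * y ^ (m * 2)) := by ring
    rw [e]
    exact R.mul_mem (hx _) (hy _)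
  one_mem' := by
    intro m
    rw [one_pow, mul_one]
    exact h.mem
  add_mem' := by
    intro x y hx hy m
    rw [add_pow, Finset.mul_sum]
    refine R.sum_mem fun k _ => ?_
    have e : π * (x ^ k * y ^ (m - k) * (m.choose k : K)) =
        (m.choose k : K) * (π * (x ^ k * y ^ (m - k))) := by ring
    rw [e]
    refine R.mul_mem (natCast_mem R _) ?_
    apply h.of_pow (n := 2) (by norm_num)
    have e : (π * (x ^ k * y ^ (m - k))) ^ 2 = (π * x ^ (k * 2)) * (π * y ^ ((m - k) * 2)) := by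
      ring
    rw [e]
    exact R.mul_mem (hx _) (hy _)
  zero_mem' := by
    intro m
    rcases Nat.eq_zero_or_pos m with rfl | hm
    · rw [pow_zero, mul_one]
      exact h.mem
    · rw [zero_pow (by omega), mul_zero]
      exact R.zero_mem
  neg_mem' := by
    intro x hx m
    have e : π * (-x) ^ m = (-1) ^ m * (π * x ^ m) := by
      rw [neg_pow]
      ring
    rw [e]
    exact R.mul_mem (R.pow_mem (R.neg_mem R.one_mem) _) (hx m)

theorem mem_ring {x : K} : x ∈ h.ring ↔ ∀ m : ℕ, π * x ^ m ∈ R := Iff.rfl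

theorem le_ring : R ≤ h.ring := fun _ hx _ => R.mul_mem h.mem (R.pow_mem hx _)

theorem smul_ring {x : K} (hx : x ∈ h.ring) : π * x ∈ R := by
  have := hx 1
  rwa [pow_one] at this

end Tate

/-- `N` elements which are large at disjoint places and small elsewhere -/
def Peaks (R : Subring K) (π : K) (n N : ℕ) : Prop :=
  ∃ g : Fin N → K, (∀ i j, i ≠ j → ∃ r ∈ R, g i * g j = π ^ n * r) ∧ ∀ i, π ^ n * (g i) ^ 2 ∉ R

end Pool.Agent.H48.TP
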