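import Pool.Agent.H48.TP.Nip

/-!
# Polynomials with values which are bounded away from zero
-/

set_option autoImplicit false

namespace Pool.Agent.H48.TP

open Polynomial FirstOrder FirstOrder.Language FirstOrder.Ring

variable {K : Type} [Field K] {R : Subring K}

/-- common denominators -/
theorem common (hfrac : ∀ x : K, ∃ c ∈ R, c ≠ 0 ∧ c * x ∈ R) (s : Finset K) :
    ∃ c ∈ R, c ≠ 0 ∧ ∀ x ∈ s, c * x ∈ R := by
  classical
  induction s using Finset.induction_on with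
  | empty => exact ⟨1, R.one_mem, one_ne_zero, by simp⟩
  | insert a s _ ih =>
    obtain ⟨c, hc, hc0, h⟩ := ih
    obtain ⟨d, hd, hd0, h'⟩ := hfrac a
    refine ⟨c * d, R.mul_mem hc hd, mul_ne_zero hc0 hd0, fun x hx => ?_⟩
    rcases Finset.mem_insert.1 hx with rfl | hx
    · rw [mul_assoc]
      exact R.mul_mem hc h'
    · rw [mul_comm c, mul_assoc]
      exact R.mul_mem hd (h x hx)

/-- the differences of the inverses of the values of `f` contain a neighbourhood of zero -/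
theorem open_values (I : Ideal R) [hH : HenselianRing R I]
    (hfrac : ∀ x : K, ∃ c ∈ R, c ≠ 0 ∧ c * x ∈ R) {ρ : K} (hρ : Small I ρ) (hρ0 : ρ ≠ 0)
    (f : K[X]) (z : K) (h0 : f.eval z ≠ 0) (h1 : f.derivative.eval z ≠ 0) :
    ∃ c ∈ R, c ≠ 0 ∧ ∀ r ∈ R, ∃ y : K, (ρ * c * r + (f.eval z)⁻¹) * f.eval y = 1 := by
  classical
  set g : K[X] := Polynomial.taylor z f with hg
  have hg0 : g.coeff 0 = f.eval z := Polynomial.taylor_coeff_zero _ _
  have hg1 : g.coeff 1 = f.derivative.eval z := Polynomial.taylor_coeff_one _ _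
  set c₀ := f.eval z with hc₀
  set c₁ := f.derivative.eval z with hc₁
  set n := g.natDegree with hn
  set e : Fin n → K := fun k => g.coeff ((k : ℕ) + 2) * c₀ ^ (2 * ((k : ℕ) + 1)) / c₁ ^ ((k : ℕ) + 2)
    with he
  obtain ⟨c, hcR, hc0, hM1, hM2⟩ : ∃ c ∈ R, c ≠ 0 ∧ c * c₀ ∈ R ∧ ∀ k, c * e k ∈ R := by
    obtain ⟨c, hc, hc0, h⟩ := common hfrac (insert c₀ (Finset.univ.image e))
    exact ⟨c, hc, hc0, h _ (Finset.mem_insert_self _ _), fun k =>
      h _ (Finset.mem_insert_of_mem (Finset.mem_image_of_mem _ (Finset.mem_univ k)))⟩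
  refine ⟨c, hcR, hc0, fun r hr => ?_⟩
  by_cases hr0 : r = 0
  · refine ⟨z, ?_⟩
    rw [hr0, mul_zero, zero_add]
    exact inv_mul_cancel₀ h0
  -- the unit `u`
  set u : K := 1 + ρ * c * r * c₀ with hu
  have hsm : Small I (ρ * c * r * c₀) := by
    have e1 : ρ * c * r * c₀ = ρ * (r * (c * c₀)) := by ring
    rw [e1]
    exact hρ.mul (R.mul_mem hr hM1)
  obtain ⟨hu0, hui⟩ := hsm.one_add hH.jac
  -- the polynomial `u g - c₀`
  set G : K[X] := C u * g - C c₀ with hG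
  have hG0 : G.coeff 0 = ρ * c * r * c₀ ^ 2 := by
    rw [hG, Polynomial.coeff_sub, Polynomial.coeff_C_mul, Polynomial.coeff_C_zero, hg0, hu]
    ring
  have hGk : ∀ k, G.coeff (k + 1) = u * g.coeff (k + 1) := by
    intro k
    rw [hG, Polynomial.coeff_sub, Polynomial.coeff_C_mul, Polynomial.coeff_C_succ, sub_zero]
  have hG1 : G.coeff 1 = u * c₁ := by
    have := hGk 0
    rw [zero_add, hg1] at this
    exact this
  have hGd : G.natDegree ≤ n + 1 := by
    refine le_trans (Polynomial.natDegree_sub_le _ _) (max_le ?_ ?_)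
    · exact le_trans (Polynomial.natDegree_C_mul_le _ _) (by omega)
    · rw [Polynomial.natDegree_C]
      omega
  obtain ⟨s, -, hs⟩ := root_near I (n := n) G hGd
    (by rw [hG0]; exact mul_ne_zero (mul_ne_zero (mul_ne_zero hρ0 hc0) hr0) (pow_ne_zero _ h0))
    (by rw [hG1]; exact mul_ne_zero hu0 h1) (fun k => by
      have e1 : G.coeff ((k : ℕ) + 2) * G.coeff 0 ^ ((k : ℕ) + 1) / G.coeff 1 ^ ((k : ℕ) + 2) =
          ρ * (((ρ * c) ^ (k : ℕ) * (c * e k)) * (r ^ ((k : ℕ) + 1) * u⁻¹ ^ ((k : ℕ) + 1))) := by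
        have hu0' : u ≠ 0 := hu0
        have e3 : u⁻¹ ^ ((k : ℕ) + 1) = u / u ^ ((k : ℕ) + 2) := by
          rw [inv_pow, eq_div_iff (pow_ne_zero _ hu0'), pow_succ u ((k : ℕ) + 1), ← mul_assoc,
            inv_mul_cancel₀ (pow_ne_zero _ hu0'), one_mul]
        rw [hG0, hG1, hGk, he, e3]
        clear_value u
        field_simp
        ring
      rw [e1]
      have hρR : ρ ∈ R := by
        obtain ⟨r', -, rfl⟩ := hρ
        exact r'.2
      exact hρ.mul (R.mul_mem (R.mul_mem (R.pow_mem (R.mul_mem hρR hcR) _) (hM2 k))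
        (R.mul_mem (R.pow_mem hr _) (R.pow_mem hui _))))
  set t := G.coeff 0 / G.coeff 1 * s with ht
  refine ⟨t + z, ?_⟩
  have h3 : u * f.eval (t + z) = c₀ := by
    rw [hG, Polynomial.eval_sub, Polynomial.eval_mul, Polynomial.eval_C, Polynomial.eval_C,
      hg, Polynomial.taylor_eval, sub_eq_zero] at hs
    exact hs
  have e2 : (ρ * c * r + c₀⁻¹) * f.eval (t + z) = c₀⁻¹ * (u * f.eval (t + z)) := by
    rw [hu]
    field_simp
    ring
  rw [e2, h3, inv_mul_cancel₀ h0]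

/-- the set of the `x` such that `(x + w) f (y) = 1` for some `y` -/
def valSet (f : K[X]) (w : K) : Set K := {x | ∃ y : K, (x + w) * f.eval y = 1}

/-- the formula for this set -/
noncomputable def valF (D : ℕ) : Language.ring.Formula (Fin 1 ⊕ Fin (D + 2)) :=
  (BoundedFormula.ex (n := 0) (Term.bdEqual (termOfFreeCommRing
    (((FreeCommRing.of (Sum.inl (Sum.inl 0)) + FreeCommRing.of (Sum.inl (Sum.inr (Fin.last (D + 1))))) *
      ∑ k : Fin (D + 1), FreeCommRing.of (Sum.inl (Sum.inr k.castSucc)) *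
        FreeCommRing.of (Sum.inr 0) ^ (k : ℕ) - 1 :
      FreeCommRing ((Fin 1 ⊕ Fin (D + 2)) ⊕ Fin 1)))) 0) :
    Language.ring.BoundedFormula (Fin 1 ⊕ Fin (D + 2)) 0)

theorem realize_valF [CompatibleRing K] (D : ℕ) (x : K) (c : Fin (D + 1) → K) (w : K) :
    (valF D).Realize (Sum.elim (fun _ => x) (Fin.snoc c w : Fin (D + 2) → K)) ↔
      ∃ y : K, (x + w) * (∑ k : Fin (D + 1), c k * y ^ (k : ℕ)) = 1 := by
  rw [valF, Formula.Realize, BoundedFormula.realize_ex]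
  refine exists_congr fun y => ?_
  rw [BoundedFormula.realize_bdEqual, realize_termOfFreeCommRing, realize_zero]
  simp only [map_sub, map_add, map_mul, map_pow, map_sum, map_one, FreeCommRing.lift_of,
    Sum.elim_inl, Sum.elim_inr, Fin.snoc_last, Fin.snoc_castSucc, sub_eq_zero]
  rfl

theorem defSet_valSet [CompatibleRing K] (f : K[X]) (w : K) : DefSet (valSet f w) := by
  refine ⟨f.natDegree + 2, valF f.natDegree,
    (Fin.snoc (fun k : Fin (f.natDegree + 1) => f.coeff k) w : Fin (f.natDegree + 2) → K),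
    fun x => ?_⟩
  rw [realize_valF]
  refine exists_congr fun y => ?_
  rw [Polynomial.eval_eq_sum_range, Finset.sum_range]

theorem valSet_bounded {f : K[X]} {b : K} (hb : ∀ y : K, b * (f.eval y)⁻¹ ∈ R) (z : K) :
    ∀ x ∈ valSet f (f.eval z)⁻¹, b * x ∈ R := by
  rintro x ⟨y, hy⟩
  have h3 : x = (f.eval y)⁻¹ - (f.eval z)⁻¹ := by
    rw [eq_sub_iff_add_eq]
    exact eq_inv_of_mul_eq_one_left hy
  rw [h3, mul_sub]
  exact R.sub_mem (hb y) (hb z)

/-- The field has a definable set between two multiples of `R`. -/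
def Bdd [CompatibleRing K] (R : Subring K) : Prop :=
  ∃ B : Set K, DefSet B ∧ (∃ a : K, a ≠ 0 ∧ ∀ r ∈ R, a * r ∈ B) ∧
    ∃ b : K, b ≠ 0 ∧ ∀ x ∈ B, b * x ∈ R

theorem exists_nonroot (f : K[X]) (hf : f.derivative ≠ 0) (hinf : Infinite K) :
    ∃ z : K, f.eval z ≠ 0 ∧ f.derivative.eval z ≠ 0 := by
  have hf0 : f ≠ 0 := by
    rintro rfl
    exact hf Polynomial.derivative_zero
  obtain ⟨z, hz⟩ : ∃ z : K, (f * f.derivative).eval z ≠ 0 := by
    by_contra hcon
    push Not at hcon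
    exact mul_ne_zero hf0 hf (Polynomial.funext (by simpa using hcon))
  rw [Polynomial.eval_mul] at hz
  exact ⟨z, left_ne_zero_of_mul hz, right_ne_zero_of_mul hz⟩

theorem bdd_of_values [CompatibleRing K] (I : Ideal R) [HenselianRing R I] (hI : I ≠ ⊥)
    (hfrac : ∀ x : K, ∃ c ∈ R, c ≠ 0 ∧ c * x ∈ R) (f : K[X]) (hf : f.derivative ≠ 0) {b : K}
    (hb0 : b ≠ 0) (hb : ∀ y : K, b * (f.eval y)⁻¹ ∈ R) (hinf : Infinite K) : Bdd R := by
  obtain ⟨z, h0, h1⟩ := exists_nonroot f hf hinf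
  obtain ⟨⟨ρ, hρR⟩, hρ, hρ0⟩ := Submodule.exists_mem_ne_zero_of_ne_bot hI
  have hρ0' : ρ ≠ 0 := fun h => hρ0 (Subtype.ext h)
  obtain ⟨c, hc, hc0, hcr⟩ := open_values I hfrac (ρ := ρ) ⟨⟨ρ, hρR⟩, hρ, rfl⟩ hρ0' f z h0 h1
  exact ⟨valSet f (f.eval z)⁻¹, defSet_valSet _ _, ⟨ρ * c, mul_ne_zero hρ0' hc0, hcr⟩, b, hb0,
    valSet_bounded hb z⟩

end Pool.Agent.H48.TP
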