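import Pool.Agent.H48.TP.Dich

/-!
# If there are not arbitrarily many peaks then the ring is nearly a valuation ring
-/

set_option autoImplicit false

namespace Pool.Agent.H48.TP

variable {K : Type} [Field K] {R : Subring K} {π : K}

theorem isUnit_iff {x : R} : IsUnit x ↔ (x : K) ≠ 0 ∧ (x : K)⁻¹ ∈ R := by
  constructor
  · rintro ⟨u, rfl⟩
    have h1 : ((u : R) : K) * ((u⁻¹ : Rˣ) : R) = 1 := by
      rw [← Subring.coe_mul, Units.mul_inv, Subring.coe_one]
    refine ⟨left_ne_zero_of_mul_eq_one h1, ?_⟩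
    rw [← eq_inv_of_mul_eq_one_right h1]
    exact Subtype.property _
  · rintro ⟨h1, h2⟩
    refine IsUnit.of_mul_eq_one (⟨_, h2⟩ : R) (Subtype.ext ?_)
    show (x : K) * (x : K)⁻¹ = 1
    exact mul_inv_cancel₀ h1

/-- the valuation ring -/
def Tate.valRing (h : Tate R π) {M : ℕ} (hV : ∀ x : K, x ∈ R ∨ π ^ M * x⁻¹ ∈ R) :
    ValuationSubring K :=
  { h.ring with
    mem_or_inv_mem' := by
      intro x
      by_cases hx : x ∈ R
      · exact Or.inl (h.le_ring hx)
      · right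
        refine h.bounded_of (R.pow_mem h.mem M) (pow_ne_zero _ h.ne) fun m => ?_
        rcases Nat.eq_zero_or_pos m with rfl | hm
        · rw [pow_zero, mul_one]
          exact R.pow_mem h.mem _
        · rw [inv_pow]
          refine (hV (x ^ m)).resolve_left fun h1 => hx (h.of_pow hm h1) }

theorem Tate.valRing_spec (h : Tate R π) {M : ℕ}
    (hV : ∀ x : K, x ∈ R ∨ π ^ M * x⁻¹ ∈ R) :
    (∀ x, x ∈ h.valRing hV ↔ ∀ m : ℕ, π * x ^ m ∈ R) ∧ h.valRing hV ≠ ⊤ ∧
      (∀ O' : ValuationSubring K, h.valRing hV ≤ O' → O' = h.valRing hV ∨ O' = ⊤) := by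
  refine ⟨fun x => Iff.rfl, ?_, ?_⟩
  · intro htop
    have h1 : π⁻¹ ∈ h.valRing hV := by rw [htop]; trivial
    have h2 : π * π⁻¹ ^ 2 ∈ R := h1 2
    apply h.inv
    have e : π * π⁻¹ ^ 2 = π⁻¹ := by
      have := h.ne
      field_simp
    rwa [e] at h2
  · intro O' hO'
    rcases eq_or_ne O' (h.valRing hV) with h1 | h1
    · exact Or.inl h1
    right
    obtain ⟨x, hx1, hx2⟩ : ∃ x ∈ O', x ∉ h.valRing hV := by
      by_contra hcon
      push Not at hcon
      exact h1 (le_antisymm hcon hO')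
    have hx0 : x ≠ 0 := by
      rintro rfl
      exact hx2 (h.valRing hV).zero_mem
    have hπ := h.ne
    have key : ∀ c ∈ R, c ≠ 0 → c⁻¹ ∈ O' := by
      intro c hc hc0
      have hex : ∃ m : ℕ, π ^ M * c * x ^ m ∉ R := by
        by_contra hcon
        push Not at hcon
        exact hx2 fun m => h.bounded_of (R.mul_mem (R.pow_mem h.mem M) hc)
          (mul_ne_zero (pow_ne_zero _ hπ) hc0) hcon m
      obtain ⟨m, hm⟩ := hex
      have h2 := (hV _).resolve_left hm
      have e : π ^ M * (π ^ M * c * x ^ m)⁻¹ * x ^ m = c⁻¹ := by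
        field_simp
      rw [← e]
      exact O'.mul_mem _ _ (hO' (h.le_ring h2)) (pow_mem hx1 m)
    rw [eq_top_iff]
    intro y _
    obtain ⟨c, hc, hc0, hcy⟩ := h.frac y
    have e2 : y = c⁻¹ * (c * y) := (inv_mul_cancel_left₀ hc0 y).symm
    rw [e2]
    exact O'.mul_mem _ _ (key c hc hc0) (hO' (h.le_ring hcy))

end Pool.Agent.H48.TP
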